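import Pool.Agent.BisRf.Targets

/-!
# Bipartite graphs with a spread fractional matching: time `2 ^ O ((a + b) / D + c)`

MP_29585b_lc. No bound for the degrees. All costs are computed with the maximum `D`-matching `F` of
BisRf; the vertices which are removed are the neighbours in the graph.
-/

set_option autoImplicit false

namespace Pool.Agent.BisRk

open Finset Pool.Agent.BisTh Pool.Agent.BisRg Pool.Agent.BisRt Pool.Agent.BisRf

/-- The algorithm with time bound `w ≥ 2 ^ k`, `k ≥ (a + b) / D + c`. -/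
def Statement11 : Prop :=
  ∃ A : Bip × ℕ × ℕ → ℕ, Nonempty (Turing.TM2ComputableInPolyTime encInput₂ encNat A) ∧
    ∀ (G : Bip) (t w : ℕ), A (G, t, w) ≤ G.count ∧
      ∀ D c k : ℕ, 1 ≤ D → SpreadMatching G D c → G.a + G.b + D * c ≤ D * k → 2 ^ k ≤ w →
        t * (G.count - A (G, t, w)) ≤ G.count

/-- Polynomial time if `(a + b) / D + c ≤ q * log (a + b)`. -/
def Statement12 : Prop :=
  ∀ q : ℕ, ∃ A : Bip × ℕ → ℕ, Nonempty (Turing.TM2ComputableInPolyTime encInput encNat A) ∧
    ∀ (G : Bip) (t : ℕ), A (G, t) ≤ G.count ∧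
      ∀ D c : ℕ, 1 ≤ D → SpreadMatching G D c →
        G.a + G.b + D * c ≤ D * (q * Nat.log 2 (G.a + G.b)) → t * (G.count - A (G, t)) ≤ G.count

/-- Nearly biregular graphs: degrees between `d` and `d + s` on the left side, between `e` and
`e + s` on the right side. -/
def Statement13 : Prop :=
  ∀ (G : Bip) (d e s c : ℕ), 1 ≤ d → (∀ i, d ≤ G.degL i ∧ G.degL i ≤ d + s) →
    (∀ j, e ≤ G.degR j ∧ G.degR j ≤ e + s) → min G.a G.b * s ≤ (max d e + s) * c →
    SpreadMatching G (max d e + s) c

/-! ### The potential -/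

/-- `fd` is a part of `adj` with degrees at most `D`. -/
def FSub (adj fd : ℕ → ℕ → Bool) (n D : ℕ) : Prop :=
  (∀ i j, fd i j = true → adj i j = true) ∧
  (∀ i < n, (nb fd (range n) i).card ≤ D) ∧ ∀ j < n, (nb (tr fd) (range n) j).card ≤ D

/-- The potential (BisRf with `adj = fd`, `κ = 1`). -/
noncomputable def PW (fd : ℕ → ℕ → Bool) (D m : ℕ) (θ : ℝ) (X Y : Finset ℕ) : ℝ :=
  Pk fd fd D 1 m θ X Y

/-- The weight. -/
noncomputable def WW (fd : ℕ → ℕ → Bool) (D m : ℕ) (θ : ℝ) (X Y : Finset ℕ) : ℝ :=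
  Wk fd fd D 1 m θ X Y

/-! ### The algorithm -/

/-- Neighbours in `F` of the left vertex `i`. -/
def fr (F : List (ℕ × ℕ)) (J : List ℕ) (i : ℕ) : List ℕ := J.filter fun j => aF F i j

/-- Neighbours in `F` of the right vertex `j`. -/
def fl (F : List (ℕ × ℕ)) (I : List ℕ) (j : ℕ) : List ℕ := I.filter fun i => aF F i j

/-- Inner cost in `F` of a left vertex. -/
def cstL (D : ℕ) (V : List ℕ) (F : List (ℕ × ℕ)) (s : SI) (i : ℕ) : ℕ :=
  ((fr F s.2 i).flatMap fun j => gap D V (fl F s.1 j).length).length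

/-- Inner cost in `F` of a right vertex. -/
def cstR (D : ℕ) (V : List ℕ) (F : List (ℕ × ℕ)) (s : SI) (j : ℕ) : ℕ :=
  ((fl F s.1 j).flatMap fun i => gap D V (fr F s.2 i).length).length

/-- The vertices with more than `D / 5` neighbours and at most `D / 2` edges of `F`. -/
def cand1 (D : ℕ) (R : List (List Bool)) (F : List (ℕ × ℕ)) (s : SI) : List (Bool × ℕ × ℕ) :=
  ((s.1.filter fun i => big D (nbr R s.2 i).length &&
    decide ((fr F s.2 i).length + (fr F s.2 i).length ≤ D)).map fun i => (false, i, 0)) ++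
    (s.2.filter fun j => big D (nbl R s.1 j).length &&
      decide ((fl F s.1 j).length + (fl F s.1 j).length ≤ D)).map fun j => (true, j, 0)

/-- The vertices with more than `D / 5` edges of `F`, with their costs. -/
def cand2 (D : ℕ) (V : List ℕ) (F : List (ℕ × ℕ)) (s : SI) : List (Bool × ℕ × ℕ) :=
  ((s.1.filter fun i => big D (fr F s.2 i).length).map fun i => (false, i, cstL D V F s i)) ++
    (s.2.filter fun j => big D (fl F s.1 j).length).map fun j => (true, j, cstR D V F s j)

/-- The candidates. -/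
def candsK (D : ℕ) (V : List ℕ) (R : List (List Bool)) (F : List (ℕ × ℕ)) (s : SI) :
    List (Bool × ℕ × ℕ) :=
  cond (cand1 D R F s).isEmpty (cand2 D V F s) (cand1 D R F s)

/-- One step. -/
def stepK (D K : ℕ) (V Ml : List ℕ) (R : List (List Bool)) (F : List (ℕ × ℕ)) (s : SI) : List SI :=
  cond (candsK D V R F s).isEmpty [s]
    ((kids R (best (candsK D V R F s)) s).filter fun s' => keep D K V Ml F s')

/-- All rounds (`V.length` of them); lists with more than `P.length` states are dropped. -/
def roundsK (D K : ℕ) (P : Un) (V Ml : List ℕ) (R : List (List Bool)) (F : List (ℕ × ℕ))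
    (L : List SI) : List SI :=
  V.foldl (fun L _ =>
    cond (decide (L.length ≤ P.length)) (L.flatMap (stepK D K V Ml R F)) []) L

/-- The value for a fixed `D`. -/
def algKD (D : ℕ) (W T B : Un) (R : List (List Bool)) : ℕ :=
  tot (((roundsK D (limDG D W T (vG B R)) (capG W T) (vG B R) (mG B R) R (maxM D B R)
    [(List.range R.length, List.range B.length)]).map (toSt R)).flatMap
      (leafExp (bud (capG W T) (T ++ T))))

/-- The maximum over all `D ≤ a + b`. -/
def algK (W T B : Un) (R : List (List Bool)) : ℕ :=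
  maxL ((List.range (true :: (un R ++ B)).length).map fun D => algKD D W T B R)

/-- The whole algorithm. -/
def algZ (W T B : Un) (R : List (List Bool)) : ℕ :=
  maxL [algK W T B R, algW (pw 135 W) T B R]

end Pool.Agent.BisRk
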