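import Pool.Agent.BisRk.Targets

/-!
# Bipartite graphs with a spread fractional matching: the general parameter

MP_29585b_lc. The number `max a b` of the first version is replaced by any number `M` with
`2 ^ M ≤ i(G)`, for example `M = a + b - ν(G)` (independence number).
-/

set_option autoImplicit false

namespace Pool.Agent.BisRk

open Finset Pool.Agent.BisTh Pool.Agent.BisRg Pool.Agent.BisRt Pool.Agent.BisRf

/-- `G` has a fractional matching with all weights at most `1 / D` and total weight at least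
`a + b - m`. -/
def SpreadFor (G : Bip) (D m : ℕ) : Prop :=
  ∃ f : Fin G.a → Fin G.b → ℚ,
    (∀ i j, 0 ≤ f i j) ∧ (∀ i j, G.adj i j = false → f i j = 0) ∧ (∀ i j, D * f i j ≤ 1) ∧
    (∀ i, ∑ j, f i j ≤ 1) ∧ (∀ j, ∑ i, f i j ≤ 1) ∧
    ((G.a + G.b : ℕ) : ℚ) ≤ ∑ i, ∑ j, f i j + m

/-- The algorithm with time bound `w ≥ 2 ^ k`, `k ≥ (a + b) / D + c`, for graphs with at least
`2 ^ M` independent sets and a fractional matching with total at least `a + b - M - c`. -/
def Statement14 : Prop :=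
  ∃ A : Bip × ℕ × ℕ → ℕ, Nonempty (Turing.TM2ComputableInPolyTime encInput₂ encNat A) ∧
    ∀ (G : Bip) (t w : ℕ), A (G, t, w) ≤ G.count ∧
      ∀ D M c k : ℕ, 1 ≤ D → 2 ^ M ≤ G.count → SpreadFor G D (M + c) →
        G.a + G.b + D * c ≤ D * k → 2 ^ k ≤ w → t * (G.count - A (G, t, w)) ≤ G.count

/-- Polynomial time if `(a + b) / D + c ≤ q * log (a + b)`. -/
def Statement15 : Prop :=
  ∀ q : ℕ, ∃ A : Bip × ℕ → ℕ, Nonempty (Turing.TM2ComputableInPolyTime encInput encNat A) ∧
    ∀ (G : Bip) (t : ℕ), A (G, t) ≤ G.count ∧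
      ∀ D M c : ℕ, 1 ≤ D → 2 ^ M ≤ G.count → SpreadFor G D (M + c) →
        G.a + G.b + D * c ≤ D * (q * Nat.log 2 (G.a + G.b)) → t * (G.count - A (G, t)) ≤ G.count

/-- If all matchings of `G` have at most `ν` edges then `G` has at least `2 ^ (a + b - ν)`
independent sets. -/
def Statement16 : Prop :=
  ∀ (G : Bip) (ν : ℕ), (∀ P : Finset (Fin G.a × Fin G.b), (∀ p ∈ P, G.adj p.1 p.2 = true) →
      (∀ p ∈ P, ∀ q ∈ P, p.1 = q.1 → p = q) → (∀ p ∈ P, ∀ q ∈ P, p.2 = q.2 → p = q) →
      P.card ≤ ν) → 2 ^ (G.a + G.b - ν) ≤ G.count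

/-- The value for fixed `D` and `M`. -/
def algLD (D M : ℕ) (W T B : Un) (R : List (List Bool)) : ℕ :=
  tot (((roundsK D (limDG D W T (vG B R)) (capG W T) (vG B R) (dl M (vG B R)) R (maxM D B R)
    [(List.range R.length, List.range B.length)]).map (toSt R)).flatMap
      (leafExp (bud (capG W T) (T ++ T))))

/-- The maximum over all `D, M ≤ a + b`. -/
def algL (W T B : Un) (R : List (List Bool)) : ℕ :=
  maxL ((List.range (true :: (un R ++ B)).length).flatMap fun D =>
    (List.range (true :: (un R ++ B)).length).map fun M => algLD D M W T B R)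

/-- The whole algorithm. -/
def algQ (W T B : Un) (R : List (List Bool)) : ℕ :=
  maxL [algL W T B R, algW (pw 135 W) T B R]

end Pool.Agent.BisRk
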