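import Pool.Agent.BisRk.Targets2

/-!
# S16: the independence number and the matching number of a bipartite graph
-/

set_option autoImplicit false

namespace Pool.Agent.BisRk

open Finset Pool.Agent.PT Pool.Agent.BisTh Pool.Agent.BisRg Pool.Agent.BisRt Pool.Agent.BisRf

namespace LS16_

/-- a matching of the complement of `I` into `J`, for an independent pair of maximal size -/
theorem half {α β : Type} [Fintype α] [Fintype β] [DecidableEq α] [DecidableEq β]
    (r : α → β → Prop) (I : Finset α) (J : Finset β) (hI : ∀ i ∈ I, ∀ j ∈ J, ¬ r i j)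
    (hmax : ∀ (I' : Finset α) (J' : Finset β), (∀ i ∈ I', ∀ j ∈ J', ¬ r i j) →
      I'.card + J'.card ≤ I.card + J.card) :
    ∃ f : {i // i ∉ I} → β, Function.Injective f ∧ ∀ i, f i ∈ J ∧ r i.1 (f i) := by
  classical
  have key : ∀ s : Finset {i // i ∉ I},
      s.card ≤ (s.biUnion fun i => J.filter fun j => r i.1 j).card := by
    intro s
    set N : Finset β := s.biUnion fun i => J.filter fun j => r i.1 j with hN
    have hNJ : N ⊆ J := by
      intro j hj
      obtain ⟨i, -, hi⟩ := Finset.mem_biUnion.1 hj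
      exact (Finset.mem_filter.1 hi).1
    set S : Finset α := s.map (Function.Embedding.subtype _) with hS
    have hSc : S.card = s.card := Finset.card_map _
    have hdis : Disjoint I S := by
      rw [Finset.disjoint_left]
      intro i hi hiS
      obtain ⟨x, -, hx⟩ := Finset.mem_map.1 hiS
      exact x.2 (by rw [← hx] at hi; exact hi)
    have h1 := hmax (I ∪ S) (J \ N) (by
      intro i hi j hj hr
      obtain ⟨hjJ, hjN⟩ := Finset.mem_sdiff.1 hj
      rcases Finset.mem_union.1 hi with h | h
      · exact hI i h j hjJ hr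
      · obtain ⟨x, hx, rfl⟩ := Finset.mem_map.1 h
        exact hjN (Finset.mem_biUnion.2 ⟨x, hx, Finset.mem_filter.2 ⟨hjJ, hr⟩⟩))
    rw [Finset.card_union_of_disjoint hdis, hSc, Finset.card_sdiff_of_subset hNJ] at h1
    have h2 := Finset.card_le_card hNJ
    omega
  obtain ⟨f, hf, hf'⟩ := (Finset.all_card_le_biUnion_card_iff_exists_injective _).1 key
  exact ⟨f, hf, fun i => Finset.mem_filter.1 (hf' i)⟩

theorem indep_of_sub (G : Bip) (I : Finset (Fin G.a)) (J : Finset (Fin G.b))
    (h : ∀ i ∈ I, ∀ j ∈ J, ¬ G.adj i j = true) (Y : Finset (Fin G.a ⊕ Fin G.b))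
    (hY : Y ⊆ I.disjSum J) : G.graph.IsIndepSet (Y : Set (Fin G.a ⊕ Fin G.b)) := by
  intro v hv w hw _ hadj
  have hv' := hY hv
  have hw' := hY hw
  rcases v with i | j <;> rcases w with i' | j'
  · exact hadj
  · exact h i (Finset.inl_mem_disjSum.1 hv') j' (Finset.inr_mem_disjSum.1 hw') hadj
  · exact h i' (Finset.inl_mem_disjSum.1 hw') j (Finset.inr_mem_disjSum.1 hv') hadj
  · exact hadj

theorem count_ge (G : Bip) (I : Finset (Fin G.a)) (J : Finset (Fin G.b))
    (h : ∀ i ∈ I, ∀ j ∈ J, ¬ G.adj i j = true) : 2 ^ (I.card + J.card) ≤ G.count := by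
  classical
  have e : Nat.card {Y // Y ∈ (I.disjSum J).powerset} = 2 ^ (I.card + J.card) := by
    rw [Nat.card_eq_fintype_card, Fintype.card_coe, Finset.card_powerset,
      Finset.card_disjSum]
  rw [← e]
  unfold Bip.count
  exact Nat.card_le_card_of_injective
    (fun Y => ⟨Y.1, indep_of_sub G I J h Y.1 (Finset.mem_powerset.1 Y.2)⟩)
    fun Y Y' hh => by
      have h2 := congrArg Subtype.val hh
      exact Subtype.ext h2

theorem card_compl' {n : ℕ} (I : Finset (Fin n)) :
    Fintype.card {i // i ∉ I} = n - I.card := by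
  rw [Fintype.card_subtype_compl, Fintype.card_fin, Fintype.card_coe]

end LS16_

open LS16_ in
theorem l_S16 : L_S16 := by
  intro G ν hν
  classical
  obtain ⟨p, hp, hmax⟩ := Finset.exists_max_image
    ((Finset.univ : Finset (Finset (Fin G.a) × Finset (Fin G.b))).filter
      fun p => ∀ i ∈ p.1, ∀ j ∈ p.2, ¬ G.adj i j = true)
    (fun p => p.1.card + p.2.card) ⟨(∅, ∅), by simp⟩
  obtain ⟨I, J⟩ := p
  have hI : ∀ i ∈ I, ∀ j ∈ J, ¬ G.adj i j = true := (Finset.mem_filter.1 hp).2
  have hm : ∀ (I' : Finset (Fin G.a)) (J' : Finset (Fin G.b)),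
      (∀ i ∈ I', ∀ j ∈ J', ¬ G.adj i j = true) → I'.card + J'.card ≤ I.card + J.card :=
    fun I' J' h => hmax (I', J') (Finset.mem_filter.2 ⟨Finset.mem_univ _, h⟩)
  obtain ⟨f, hf, hf'⟩ := half (fun i j => G.adj i j = true) I J hI hm
  obtain ⟨g, hg, hg'⟩ := half (fun j i => G.adj i j = true) J I
    (fun j hj i hi => hI i hi j hj) (fun J' I' h => by
      have := hm I' J' fun i hi j hj => h j hj i hi
      omega)
  set P1 : Finset (Fin G.a × Fin G.b) :=
    Finset.univ.image fun i : {i // i ∉ I} => (i.1, f i) with hP1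
  set P2 : Finset (Fin G.a × Fin G.b) :=
    Finset.univ.image fun j : {j // j ∉ J} => (g j, j.1) with hP2
  have m1 : ∀ p ∈ P1, p.1 ∉ I ∧ p.2 ∈ J ∧ G.adj p.1 p.2 = true := by
    intro p hp
    obtain ⟨i, -, rfl⟩ := Finset.mem_image.1 hp
    exact ⟨i.2, (hf' i).1, (hf' i).2⟩
  have m2 : ∀ p ∈ P2, p.1 ∈ I ∧ p.2 ∉ J ∧ G.adj p.1 p.2 = true := by
    intro p hp
    obtain ⟨j, -, rfl⟩ := Finset.mem_image.1 hp
    exact ⟨(hg' j).1, j.2, (hg' j).2⟩
  have c1 : P1.card = G.a - I.card := by
    rw [hP1, Finset.card_image_of_injective _ fun i i' h =>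
      Subtype.ext (congrArg Prod.fst h), Finset.card_univ, card_compl']
  have c2 : P2.card = G.b - J.card := by
    rw [hP2, Finset.card_image_of_injective _ fun i i' h =>
      Subtype.ext (congrArg Prod.snd h), Finset.card_univ, card_compl']
  have hd : Disjoint P1 P2 := by
    rw [Finset.disjoint_left]
    intro p h1 h2
    exact (m1 p h1).1 (m2 p h2).1
  have hle := hν (P1 ∪ P2) (by
      intro p hp
      rcases Finset.mem_union.1 hp with h | h
      · exact (m1 p h).2.2
      · exact (m2 p h).2.2) (by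
      intro p hp q hq he
      rcases Finset.mem_union.1 hp with h | h <;> rcases Finset.mem_union.1 hq with h' | h'
      · obtain ⟨i, -, rfl⟩ := Finset.mem_image.1 h
        obtain ⟨i', -, rfl⟩ := Finset.mem_image.1 h'
        have : i = i' := Subtype.ext he
        rw [this]
      · exact absurd (m2 q h').1 (by rw [← he]; exact (m1 p h).1)
      · exact absurd (m2 p h).1 (by rw [he]; exact (m1 q h').1)
      · obtain ⟨j, -, rfl⟩ := Finset.mem_image.1 h
        obtain ⟨j', -, rfl⟩ := Finset.mem_image.1 h'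
        have : j = j' := hg he
        rw [this]) (by
      intro p hp q hq he
      rcases Finset.mem_union.1 hp with h | h <;> rcases Finset.mem_union.1 hq with h' | h'
      · obtain ⟨i, -, rfl⟩ := Finset.mem_image.1 h
        obtain ⟨i', -, rfl⟩ := Finset.mem_image.1 h'
        have : i = i' := hf he
        rw [this]
      · exact absurd (m1 p h).2.1 (by rw [he]; exact (m2 q h').2.1)
      · exact absurd (m1 q h').2.1 (by rw [← he]; exact (m2 p h).2.1)
      · obtain ⟨j, -, rfl⟩ := Finset.mem_image.1 h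
        obtain ⟨j', -, rfl⟩ := Finset.mem_image.1 h'
        have : j = j' := Subtype.ext he
        rw [this])
  rw [Finset.card_union_of_disjoint hd, c1, c2] at hle
  refine le_trans (Nat.pow_le_pow_right (by norm_num) ?_) (count_ge G I J hI)
  omega

end Pool.Agent.BisRk
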