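import Pool.Agent.BisRk.Fin
import Pool.Agent.BisRk.Q_S16

/-!
# Bipartite graphs with a spread fractional matching: time `2 ^ O (ν / D + c)`

MP_29585b_lc. The number `a + b` of vertices is replaced by the matching number `ν`. The algorithm
is the same for `D ≥ 350` (other constants); for `D < 350` all sets of matched vertices are
enumerated.
-/

set_option autoImplicit false

namespace Pool.Agent.BisRk

open Finset Pool.Agent.BisTh Pool.Agent.BisRg Pool.Agent.BisRt Pool.Agent.BisRf

/-- All matchings of `G` have at most `ν` edges. -/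
def MatchLe (G : Bip) (ν : ℕ) : Prop :=
  ∀ P : Finset (Fin G.a × Fin G.b), (∀ p ∈ P, G.adj p.1 p.2 = true) →
    (∀ p ∈ P, ∀ q ∈ P, p.1 = q.1 → p = q) → (∀ p ∈ P, ∀ q ∈ P, p.2 = q.2 → p = q) →
    P.card ≤ ν

/-- The algorithm with time bound `w ≥ 2 ^ k`, `k ≥ ν / D + c`. -/
def Statement18 : Prop :=
  ∃ A : Bip × ℕ × ℕ → ℕ, Nonempty (Turing.TM2ComputableInPolyTime encInput₂ encNat A) ∧
    ∀ (G : Bip) (t w : ℕ), A (G, t, w) ≤ G.count ∧
      ∀ D M c ν k : ℕ, 1 ≤ D → MatchLe G ν → 2 ^ M ≤ G.count → SpreadFor G D (M + c) →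
        ν + D * c ≤ D * k → 2 ^ k ≤ w → t * (G.count - A (G, t, w)) ≤ G.count

/-- Polynomial time if `ν / D + c ≤ q * log (a + b)`. -/
def Statement19 : Prop :=
  ∀ q : ℕ, ∃ A : Bip × ℕ → ℕ, Nonempty (Turing.TM2ComputableInPolyTime encInput encNat A) ∧
    ∀ (G : Bip) (t : ℕ), A (G, t) ≤ G.count ∧
      ∀ D M c ν : ℕ, 1 ≤ D → MatchLe G ν → 2 ^ M ≤ G.count → SpreadFor G D (M + c) →
        ν + D * c ≤ D * (q * Nat.log 2 (G.a + G.b)) → t * (G.count - A (G, t)) ≤ G.count

/-! ### The potential -/

/-- The vertices with more than `D / 5` edges of `fd`. -/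
def hv (fd : ℕ → ℕ → Bool) (D n : ℕ) : Finset ℕ :=
  (range n).filter fun i => D < 5 * (nb fd (range n) i).card

/-- The potential. -/
noncomputable def PH (fd : ℕ → ℕ → Bool) (n D m : ℕ) (θ : ℝ) (X Y : Finset ℕ) : ℝ :=
  -(θ * sg fd D m X Y) +
    80 * ((((X ∩ hv fd D n).card + (Y ∩ hv (tr fd) D n).card : ℕ) : ℝ) / D) +
    (Sk fd fd D 1 X Y + Sk (tr fd) (tr fd) D 1 Y X) / D

/-- The weight. -/
noncomputable def WH (fd : ℕ → ℕ → Bool) (n D m : ℕ) (θ : ℝ) (X Y : Finset ℕ) : ℝ :=
  Real.exp (PH fd n D m θ X Y)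

/-- The weight of a state. -/
noncomputable def WS (F : List (ℕ × ℕ)) (n D m : ℕ) (θ : ℝ) (s : SI) : ℝ :=
  WH (aF F) n D m θ s.1.toFinset s.2.toFinset

/-- The factor for dropped states. -/
noncomputable def Mg (m D K : ℕ) : ℝ := 2 ^ m * Real.exp (-(9 / 100 * ((K : ℝ) / D)))

/-- The number of edges of `fd`. -/
def eN (fd : ℕ → ℕ → Bool) (n : ℕ) : ℕ := ∑ i ∈ range n, (nb fd (range n) i).card

/-! ### The algorithm for large `D` -/

/-- Bound for the number of states. -/
def capN (W T : Un) : Un := pw 19300 (W ++ W ++ T ++ T ++ [true, true, true])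

/-- `9300 (bits w + bits t + 1)`. -/
def limN (W T : Un) : Un := rep 9300 (W.length.bits ++ T.length.bits ++ [true])

/-- The limit `D * limN`. -/
def limDN (D : ℕ) (W T : Un) (V : List ℕ) : ℕ := ((dl D V).flatMap fun _ => limN W T).length

/-- The value for fixed `D` and `M`. -/
def algND (D M : ℕ) (W T B : Un) (R : List (List Bool)) : ℕ :=
  tot (((roundsK D (limDN D W T (vG B R)) (capN W T) (vG B R) (dl M (vG B R)) R (maxM D B R)
    [(List.range R.length, List.range B.length)]).map (toSt R)).flatMap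
      (leafExp (bud (capN W T) (T ++ T))))

/-- The maximum over all `D, M ≤ a + b`. -/
def algM (W T B : Un) (R : List (List Bool)) : ℕ :=
  maxL ((List.range (true :: (un R ++ B)).length).flatMap fun D =>
    (List.range (true :: (un R ++ B)).length).map fun M => algND D M W T B R)

/-! ### The algorithm for small `D` -/

/-- Is the vertex in the state? -/
def inS (c : Bool × ℕ) (s : SI) : Bool :=
  cond c.1 (s.2.any fun j => decide (j = c.2)) (s.1.any fun i => decide (i = c.2))

/-- Branching for one vertex. -/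
def stepB (R : List (List Bool)) (c : Bool × ℕ) (s : SI) : List SI :=
  cond (inS c s) (kids R (c.1, c.2, 0) s) [s]

/-- Branching for all vertices of `C`. -/
def roundsB (P : Un) (R : List (List Bool)) (C : List (Bool × ℕ)) (L : List SI) : List SI :=
  C.foldl (fun L c => cond (decide (L.length ≤ P.length)) (L.flatMap (stepB R c)) []) L

/-- The vertices of the edges of `F`. -/
def cov (F : List (ℕ × ℕ)) : List (Bool × ℕ) :=
  (F.map fun e => (false, e.1)) ++ F.map fun e => (true, e.2)

/-- Exact algorithm for small matching number. -/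
def algB (P B : Un) (R : List (List Bool)) : ℕ :=
  tot (((roundsB P R (cov (maxM 1 B R)) [(List.range R.length, List.range B.length)]).map
    (toSt R)).flatMap (leafExp []))

/-- The whole algorithm. -/
def algS (W T B : Un) (R : List (List Bool)) : ℕ :=
  maxL [algM W T B R, algB (pw 700 W) B R]

end Pool.Agent.BisRk
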