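import Pool.Agent.BisRk.Main

/-!
# Nearly biregular graphs in the general form of the matching condition
-/

set_option autoImplicit false

namespace Pool.Agent.BisRk

open Pool.Agent.BisTh Pool.Agent.BisRg Pool.Agent.BisRt Pool.Agent.BisRf

theorem spreadFor_of_spreadMatching (G : Bip) (D c : ℕ) (h : SpreadMatching G D c) :
    SpreadFor G D (max G.a G.b + c) := by
  obtain ⟨f, h0, h1, h2, h3, h4, h5⟩ := h
  refine ⟨f, h0, h1, h2, h3, h4, ?_⟩
  have e : ((G.a + G.b : ℕ) : ℚ) = ((min G.a G.b : ℕ) : ℚ) + ((max G.a G.b : ℕ) : ℚ) := by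
    exact_mod_cast (min_add_max G.a G.b).symm
  rw [e]
  push_cast at h5 ⊢
  linarith

/-- Nearly biregular graphs. -/
theorem statement17 (G : Bip) (d e s c : ℕ) (hd : 1 ≤ d)
    (hL : ∀ i, d ≤ G.degL i ∧ G.degL i ≤ d + s) (hR : ∀ j, e ≤ G.degR j ∧ G.degR j ≤ e + s)
    (hc : min G.a G.b * s ≤ (max d e + s) * c) :
    SpreadFor G (max d e + s) (max G.a G.b + c) :=
  spreadFor_of_spreadMatching G _ c (k_S13 G d e s c hd hL hR hc)

end Pool.Agent.BisRk
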