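import Pool.Agent.BisRk.Targets2
import Pool.Agent.BisRu.P_PTX

/-!
# Polynomial time: the whole algorithm (general `M`)
-/

set_option autoImplicit false

namespace Pool.Agent.BisRk

open Finset Pool.Agent.PT Pool.Agent.BisTh Pool.Agent.BisRg Pool.Agent.BisRt Pool.Agent.BisRf

namespace LPTX_

theorem L_pt (h_PTA : L_PTA) [hC : Fact Core] :
    PolyF (fun x : In₂ => algL x.1 x.2.1 x.2.2.1 x.2.2.2) := by
  have h1 := h_PTA hC
  have h2 : PolyF (fun x : In₂ => List.range (true :: (un x.2.2.2 ++ x.2.2.1)).length) := by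
    refine PolyF.range_length ?_
    fun_prop
  have h3 : PolyF (fun p : In₂ × ℕ =>
      List.range (true :: (un p.1.2.2.2 ++ p.1.2.2.1)).length) := h2.comp (PolyF.fst PolyF.id)
  have h4 : PolyF (fun p : (In₂ × ℕ) × ℕ =>
      algLD p.1.2 p.2 p.1.1.1 p.1.1.2.1 p.1.1.2.2.1 p.1.1.2.2.2) :=
    h1.comp (g := fun p : (In₂ × ℕ) × ℕ =>
      ((p.1.2, p.2), p.1.1.1, p.1.1.2.1, p.1.1.2.2.1, p.1.1.2.2.2)) (by fun_prop)
  have h5 : PolyF (fun p : In₂ × ℕ =>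
      (List.range (true :: (un p.1.2.2.2 ++ p.1.2.2.1)).length).map fun M =>
        algLD p.2 M p.1.1 p.1.2.1 p.1.2.2.1 p.1.2.2.2) :=
    PolyF.map (f := fun (p : In₂ × ℕ) M => algLD p.2 M p.1.1 p.1.2.1 p.1.2.2.1 p.1.2.2.2) h4 h3
  unfold algL
  exact Pool.Agent.BisRt.PTX_.maxL_pt
    (PolyF.flatMap (f := fun (x : In₂) D =>
      (List.range (true :: (un x.2.2.2 ++ x.2.2.1)).length).map fun M =>
        algLD D M x.1 x.2.1 x.2.2.1 x.2.2.2) h5 h2)

attribute [local irreducible] algL algW pw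

theorem gen_pt [hC : Fact Core] (f g : In₂ → ℕ) (hf : PolyF f) (hg : PolyF g) :
    PolyF (fun x : In₂ => maxL [f x, g x]) := by
  refine Pool.Agent.BisRt.PTX_.maxL_pt ?_
  exact PolyF.cons hf (PolyF.cons hg (PolyF.const _))

end LPTX_

theorem l_PTX (h_PTA : L_PTA) : L_PTX := by
  intro hC
  have h6 : PolyF (fun x : In₂ => pw 135 x.1) := pw_pt 135 (PolyF.fst PolyF.id)
  exact LPTX_.gen_pt (fun x : In₂ => algL x.1 x.2.1 x.2.2.1 x.2.2.2)
    (fun x : In₂ => algW (pw 135 x.1) x.2.1 x.2.2.1 x.2.2.2) (LPTX_.L_pt h_PTA)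
    (Pool.Agent.BisRu.PTX_.W_pt (hC := hC) (pw 135) h6)

end Pool.Agent.BisRk
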