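import Pool.Agent.BisRk.Ext
import Pool.Agent.BisRk.Q_ALT
import Pool.Agent.BisRk.Q_PTX

/-!
# Assembly, second part
-/

set_option autoImplicit false

namespace Pool.Agent.BisRk

open Pool.Agent.BisTh Pool.Agent.BisRg Pool.Agent.BisRt Pool.Agent.BisRf

theorem tALT : L_ALT := l_ALT tERR
theorem tPTX : L_PTX := l_PTX tPTA

theorem statement14 : Statement14 := l_S14 tPTX tALT l_DUL

theorem statement15 : Statement15 := l_S15 tPTX tALT l_DUL

end Pool.Agent.BisRk
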