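import Pool.Agent.BisRk.Targets3
import Pool.Agent.BisRf.P_ALT

/-!
# ALT, third version: the maximum over all `D` and `M`, and the exact algorithm for small `D`
-/

set_option autoImplicit false

namespace Pool.Agent.BisRk

open Finset Pool.Agent.PT Pool.Agent.BisTh Pool.Agent.BisRg Pool.Agent.BisRt Pool.Agent.BisRf

namespace NALT_

theorem le_algM (D M : ℕ) (W T B : Un) (R : List (List Bool)) (hD : D ≤ R.length + B.length)
    (hM : M ≤ R.length + B.length) : algND D M W T B R ≤ algM W T B R := by
  unfold algM maxL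
  refine Pool.Agent.BisRg.ALW_.le_foldl_max _ _ _
    (List.mem_flatMap.2 ⟨D, ?_, List.mem_map.2 ⟨M, ?_, rfl⟩⟩)
  · rw [List.mem_range, Pool.Agent.BisRf.ALT_.length_eq]
    omega
  · rw [List.mem_range, Pool.Agent.BisRf.ALT_.length_eq]
    omega

end NALT_

/-- The whole algorithm. -/
theorem n_ALT (h_ERR : N_ERR) (h_BFB : N_BFB) (v_MXM : V_MXM) : N_ALT := by
  obtain ⟨e1, e2⟩ := h_ERR
  obtain ⟨f1, f2⟩ := h_BFB
  refine ⟨fun W T B R hR => ?_, fun D M c c' ν k W T B R hR hD hC hMc hν hM hk hW => ?_⟩
  · unfold algS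
    rw [Pool.Agent.BisRf.ALT_.maxL_two]
    refine max_le ?_ (f1 _ _ _ hR)
    unfold algM maxL
    refine Pool.Agent.BisRg.ALW_.foldl_max_le _ _ _ (Nat.zero_le _) fun n hn => ?_
    obtain ⟨D, hD, hn'⟩ := List.mem_flatMap.1 hn
    obtain ⟨M, _, rfl⟩ := List.mem_map.1 hn'
    rw [List.mem_range, Pool.Agent.BisRf.ALT_.length_eq] at hD
    rw [← Pool.Agent.BisRf.ALT_.cs_eq]
    exact e1 D M W T B R hR (by omega)
  · have hle1 : algM W T B R ≤ algS W T B R := by
      unfold algS
      rw [Pool.Agent.BisRf.ALT_.maxL_two]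
      exact le_max_left _ _
    have hle2 : algB (pw 700 W) B R ≤ algS W T B R := by
      unfold algS
      rw [Pool.Agent.BisRf.ALT_.maxL_two]
      exact le_max_right _ _
    have hMab : M ≤ R.length + B.length := by
      have h1 := cnt_le R (List.range B.length)
      rw [List.length_range] at h1
      exact (Nat.pow_le_pow_iff_right (by norm_num)).1 (hM.trans h1)
    have hex : ∀ ν' : ℕ, (maxM 1 B R).length ≤ ν' → 2 * ν' ≤ 700 * k →
        T.length * (cnt R (List.range B.length) - algS W T B R) ≤
          cnt R (List.range B.length) := by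
      intro ν' h1 h2
      have h3 : 4 ^ ν' ≤ (pw 700 W).length := by
        rw [pw_length]
        calc 4 ^ ν' = 2 ^ (2 * ν') := by rw [pow_mul]; norm_num
          _ ≤ 2 ^ (700 * k) := Nat.pow_le_pow_right (by norm_num) h2
          _ = (2 ^ k) ^ 700 := by rw [← pow_mul, mul_comm]
          _ ≤ W.length ^ 700 := Nat.pow_le_pow_left hW _
      have h4 := f2 ν' (pw 700 W) B R hR h1 h3
      rw [h4] at hle2
      rw [Nat.sub_eq_zero_of_le hle2, Nat.mul_zero]
      exact Nat.zero_le _
    have hone : (maxM 1 B R).length ≤ ν := by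
      have := hν 1
      omega
    rcases Nat.eq_zero_or_pos ν with hν0 | hν0
    · exact hex 0 (by omega) (by omega)
    have hmain : ∀ D' ν' : ℕ, 350 ≤ D' → D' ≤ R.length + B.length → Cond D' c' B R →
        (maxM D' B R).length ≤ D' * ν' → ν' + D' * c ≤ D' * k →
        T.length * (cnt R (List.range B.length) - algS W T B R) ≤
          cnt R (List.range B.length) := by
      intro D' ν' h1 h2 h3 h5 h4
      have h8 := e2 D' M c c' ν' k W T B R hR h1 h2 hMab h3 hMc h5 h4 hW
      rw [Pool.Agent.BisRf.ALT_.cs_eq] at h8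
      exact (Pool.Agent.BisRf.ALT_.err_mono
        ((NALT_.le_algM D' M W T B R h2 hMab).trans hle1) h8).trans hM
    by_cases hD350 : D < 350
    · refine hex ν hone ?_
      have h1 : D * k ≤ 350 * k := Nat.mul_le_mul_right _ (by omega)
      omega
    have hck : c + 1 ≤ k := by
      have h1 : D * c < D * k := by omega
      have := Nat.lt_of_mul_lt_mul_left h1
      omega
    by_cases hN350 : R.length + B.length < 350
    · refine hex 350 ?_ (by omega)
      have h1 := (v_MXM 1 B R hR).2.2.2
      omega
    rcases le_total D (R.length + B.length) with h | h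
    · exact hmain D ν (by omega) h hC (hν D) hk
    · refine hmain (R.length + B.length) (R.length + B.length) (by omega) le_rfl
        (Pool.Agent.BisRg.ALW_.cond_mono hC h) ?_ ?_
      · have h1 := (v_MXM (R.length + B.length) B R hR).2.2.2
        exact (Nat.le_add_right _ _).trans h1
      · calc R.length + B.length + (R.length + B.length) * c
            = (R.length + B.length) * (c + 1) := by ring
          _ ≤ (R.length + B.length) * k := Nat.mul_le_mul_left _ hck

end Pool.Agent.BisRk
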