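import Pool.Agent.BisRk.Targets3
import Pool.Agent.BisRf.P_MXM

/-!
# BRN, target BFA: the maximum matching is maximal (MP_29585b_lc)
-/

set_option autoImplicit false

namespace Pool.Agent.BisRk

open Finset Pool.Agent.PT Pool.Agent.BisTh Pool.Agent.BisRg Pool.Agent.BisRt Pool.Agent.BisRf

namespace NBFA_

theorem fold_sub (E F : List (ℕ × ℕ)) (l : List ℕ) : ∀ (Z : List Rec) (z : Rec), z ∈ Z →
    z ∈ l.foldl (fun Z _ => Z ++ (newr E F Z).take 1) Z := by
  induction l with
  | nil => exact fun Z z h => h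
  | cons x l ih =>
    intro Z z h
    rw [List.foldl_cons]
    exact ih _ z (List.mem_append_left _ h)

theorem z0_sub (D : ℕ) (E F : List (ℕ × ℕ)) (J : List ℕ) (z : Rec) (h : z ∈ z0 D F J) :
    z ∈ zs D E F J := fold_sub E F J _ z h

theorem mem_z0 (D : ℕ) (F : List (ℕ × ℕ)) (J : List ℕ) (j : ℕ) (hj : j ∈ J) (hd : dR F j < D) :
    (j, [], []) ∈ z0 D F J := by
  unfold z0
  rw [List.mem_map]
  exact ⟨j, List.mem_filter.2 ⟨hj, decide_eq_true hd⟩, rfl⟩

theorem aug_ne (D : ℕ) (E F : List (ℕ × ℕ)) (J : List ℕ) (i j : ℕ) (hE : (i, j) ∈ E)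
    (hj : j ∈ J) (hL : dL F i < D) (hR : dR F j < D) (hF : aF F i j = false) :
    aug D E F (zs D E F J) ≠ [] := by
  intro h
  unfold aug at h
  rw [List.flatMap_eq_nil_iff] at h
  have h1 := h (i, j) hE
  simp only [decide_eq_true hL, hF, Bool.not_false, Bool.and_self, cond_true,
    List.map_eq_nil_iff] at h1
  have h2 := z0_sub D E F J _ (mem_z0 D F J j hj hR)
  have h3 : ((j, [], []) : Rec) ∈ (zs D E F J).filter fun z => decide (z.1 = j) :=
    List.mem_filter.2 ⟨h2, decide_eq_true rfl⟩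
  rw [h1] at h3
  exact absurd h3 List.not_mem_nil

end NBFA_

open Pool.Agent.BisRf.MXM_ in
/-- **BFA** -/
theorem n_BFA (v_AUG : V_AUG) : N_BFA := by
  intro B R _ i j hi hj hij
  have hE : ∀ e ∈ edgesL B R, e.2 ∈ List.range B.length := by
    rintro ⟨i, j⟩ he
    exact List.mem_range.mpr ((mem_edgesL B R i j).mp he).2.1
  obtain ⟨hM, hA⟩ := fold_inv v_AUG (D := 1) List.nodup_range hE (edgesL B R) [] (isM_nil 1 _)
  have hM' : IsM 1 (edgesL B R) (maxM 1 B R) := hM
  have hA' : aug 1 (edgesL B R) (maxM 1 B R)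
      (zs 1 (edgesL B R) (maxM 1 B R) (List.range B.length)) = [] := by
    rcases hA with hA | hA
    · refine aug_full hM' ?_ _
      rw [List.length_nil, Nat.zero_add] at hA
      exact hA
    · exact hA
  by_contra hcon
  rw [not_or] at hcon
  obtain ⟨hc1, hc2⟩ := hcon
  have hL : dL (maxM 1 B R) i < 1 := by
    unfold dL
    rw [Nat.lt_one_iff, List.length_eq_zero_iff, List.filter_eq_nil_iff]
    intro e he h
    exact hc1 ⟨e, he, of_decide_eq_true h⟩
  have hRr : dR (maxM 1 B R) j < 1 := by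
    unfold dR
    rw [Nat.lt_one_iff, List.length_eq_zero_iff, List.filter_eq_nil_iff]
    intro e he h
    exact hc2 ⟨e, he, of_decide_eq_true h⟩
  have hF : aF (maxM 1 B R) i j = false := by
    rw [← Bool.not_eq_true]
    intro h
    exact hc1 ⟨(i, j), (aF_iff _ i j).1 h, rfl⟩
  exact NBFA_.aug_ne 1 _ _ _ i j ((mem_edgesL B R i j).2 ⟨hi, hj, hij⟩)
    (List.mem_range.2 hj) hL hRr hF hA'

end Pool.Agent.BisRk
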