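import Pool.Agent.BisRk.Targets3
import Pool.Agent.BisRt.P_CSK
import Pool.Agent.BisRf.P_ALT

/-!
# BFB: the exact algorithm for small matching number
-/

set_option autoImplicit false

namespace Pool.Agent.BisRk

open Finset Pool.Agent.PT Pool.Agent.BisTh Pool.Agent.BisRg Pool.Agent.BisRt Pool.Agent.BisRf

namespace NBFB_

theorem inS_false_left (i : ℕ) (s : SI) (h : inS (false, i) s = false) : i ∉ s.1 := by
  intro hi
  unfold inS at h
  rw [cond_false, List.any_eq_false] at h
  exact h i hi (decide_eq_true rfl)

theorem inS_false_right (j : ℕ) (s : SI) (h : inS (true, j) s = false) : j ∉ s.2 := by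
  intro hj
  unfold inS at h
  rw [cond_true, List.any_eq_false] at h
  exact h j hj (decide_eq_true rfl)

theorem inS_false_left' (i : ℕ) (s : SI) (h : i ∉ s.1) : inS (false, i) s = false := by
  unfold inS
  rw [cond_false, List.any_eq_false]
  intro x hx hd
  have e : x = i := of_decide_eq_true hd
  exact h (e ▸ hx)

theorem inS_false_right' (j : ℕ) (s : SI) (h : j ∉ s.2) : inS (true, j) s = false := by
  unfold inS
  rw [cond_true, List.any_eq_false]
  intro x hx hd
  have e : x = j := of_decide_eq_true hd
  exact h (e ▸ hx)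

theorem inS_true_left (i : ℕ) (s : SI) (h : inS (false, i) s = true) : i ∈ s.1 := by
  by_contra hi
  rw [inS_false_left' i s hi] at h
  exact absurd h (by simp)

theorem inS_true_right (j : ℕ) (s : SI) (h : inS (true, j) s = true) : j ∈ s.2 := by
  by_contra hj
  rw [inS_false_right' j s hj] at h
  exact absurd h (by simp)

theorem inS_mono (c : Bool × ℕ) (s s' : SI) (h1 : s'.1 ⊆ s.1) (h2 : s'.2 ⊆ s.2)
    (h : inS c s = false) : inS c s' = false := by
  obtain ⟨b, i⟩ := c
  cases b with
  | false => exact inS_false_left' i s' fun hi => inS_false_left i s h (h1 hi)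
  | true => exact inS_false_right' i s' fun hi => inS_false_right i s h (h2 hi)

/-- Good states. -/
def Nd (s : SI) : Prop := s.1.Nodup ∧ s.2.Nodup

theorem step_sum (R : List (List Bool)) (c : Bool × ℕ) (s : SI) (h : Nd s) :
    ((stepB R c s).map (cs R)).sum = cs R s := by
  obtain ⟨b, i⟩ := c
  unfold stepB
  cases hb : inS (b, i) s with
  | false =>
    rw [cond_false, List.map_singleton, List.sum_singleton]
  | true =>
    rw [cond_true]
    cases b with
    | false => exact (p_CSK R s h.1 h.2).1 i 0 (inS_true_left i s hb)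
    | true => exact (p_CSK R s h.1 h.2).2 i 0 (inS_true_right i s hb)

theorem step_len (R : List (List Bool)) (c : Bool × ℕ) (s : SI) :
    (stepB R c s).length ≤ 2 := by
  obtain ⟨b, i⟩ := c
  unfold stepB
  cases inS (b, i) s with
  | false => simp
  | true => cases b <;> simp [kids]

theorem fsub (l : List ℕ) (p : ℕ → Bool) : l.filter p ⊆ l :=
  fun _ hx => (List.mem_filter.1 hx).1

theorem not_mem_filter (l : List ℕ) (v : ℕ) : v ∉ l.filter fun i => !(decide (i = v)) := by
  intro h
  have h1 := (List.mem_filter.1 h).2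
  simp at h1

theorem step_mem (R : List (List Bool)) (c : Bool × ℕ) (s s' : SI) (h : Nd s)
    (hs : s' ∈ stepB R c s) : Nd s' ∧ s'.1 ⊆ s.1 ∧ s'.2 ⊆ s.2 ∧ inS c s' = false := by
  obtain ⟨b, i⟩ := c
  unfold stepB at hs
  cases hb : inS (b, i) s with
  | false =>
    rw [hb, cond_false, List.mem_singleton] at hs
    rw [hs]
    exact ⟨h, List.Subset.refl _, List.Subset.refl _, hb⟩
  | true =>
    rw [hb, cond_true] at hs
    cases b with
    | false =>
      unfold kids at hs
      simp only [cond_false, List.mem_cons, List.not_mem_nil, or_false] at hs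
      rcases hs with hs | hs
      · rw [hs]
        exact ⟨⟨h.1.filter _, h.2⟩, fsub _ _, List.Subset.refl _,
          inS_false_left' i _ (not_mem_filter _ _)⟩
      · rw [hs]
        exact ⟨⟨h.1.filter _, h.2.filter _⟩, fsub _ _, fsub _ _,
          inS_false_left' i _ (not_mem_filter _ _)⟩
    | true =>
      unfold kids at hs
      simp only [cond_true, List.mem_cons, List.not_mem_nil, or_false] at hs
      rcases hs with hs | hs
      · rw [hs]
        exact ⟨⟨h.1, h.2.filter _⟩, List.Subset.refl _, fsub _ _,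
          inS_false_right' i _ (not_mem_filter _ _)⟩
      · rw [hs]
        exact ⟨⟨h.1.filter _, h.2.filter _⟩, fsub _ _, fsub _ _,
          inS_false_right' i _ (not_mem_filter _ _)⟩

/-- The sum over a list of states. -/
def sm (R : List (List Bool)) (L : List SI) : ℕ := (L.map (cs R)).sum

theorem flat_sum (R : List (List Bool)) (c : Bool × ℕ) :
    ∀ L : List SI, (∀ s ∈ L, Nd s) → sm R (L.flatMap (stepB R c)) = sm R L
  | [], _ => rfl
  | s :: L, h => by
    have h1 := flat_sum R c L fun s hs => h s (List.mem_cons_of_mem _ hs)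
    have h2 := step_sum R c s (h s List.mem_cons_self)
    unfold sm at h1 ⊢
    rw [List.flatMap_cons, List.map_append, List.sum_append, h1, h2, List.map_cons, List.sum_cons]

theorem flat_len (R : List (List Bool)) (c : Bool × ℕ) :
    ∀ L : List SI, (L.flatMap (stepB R c)).length ≤ 2 * L.length
  | [] => by simp
  | s :: L => by
    have h1 := flat_len R c L
    have h2 := step_len R c s
    rw [List.flatMap_cons, List.length_append, List.length_cons]
    omega

theorem flat_mem (R : List (List Bool)) (c : Bool × ℕ) (L : List SI) (h : ∀ s ∈ L, Nd s)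
    (s' : SI) (hs : s' ∈ L.flatMap (stepB R c)) :
    Nd s' ∧ inS c s' = false ∧ ∃ s ∈ L, s'.1 ⊆ s.1 ∧ s'.2 ⊆ s.2 := by
  obtain ⟨s, hs1, hs2⟩ := List.mem_flatMap.1 hs
  obtain ⟨h1, h2, h3, h4⟩ := step_mem R c s s' (h s hs1) hs2
  exact ⟨h1, h4, s, hs1, h2, h3⟩

theorem roundsB_cons (P : Un) (R : List (List Bool)) (c : Bool × ℕ) (C : List (Bool × ℕ))
    (L : List SI) : roundsB P R (c :: C) L =
      roundsB P R C (cond (decide (L.length ≤ P.length)) (L.flatMap (stepB R c)) []) := rfl

theorem rounds_le (P : Un) (R : List (List Bool)) :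
    ∀ (C : List (Bool × ℕ)) (L : List SI), (∀ s ∈ L, Nd s) →
      sm R (roundsB P R C L) ≤ sm R L
  | [], _, _ => le_rfl
  | c :: C, L, h => by
    rw [roundsB_cons]
    cases decide (L.length ≤ P.length) with
    | true =>
      rw [cond_true]
      refine (rounds_le P R C _ fun s hs => (flat_mem R c L h s hs).1).trans ?_
      rw [flat_sum R c L h]
    | false =>
      rw [cond_false]
      refine (rounds_le P R C [] fun s hs => absurd hs List.not_mem_nil).trans ?_
      exact Nat.zero_le _

theorem rounds_eq (P : Un) (R : List (List Bool)) :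
    ∀ (C : List (Bool × ℕ)) (L : List SI), (∀ s ∈ L, Nd s) →
      L.length * 2 ^ C.length ≤ P.length →
      sm R (roundsB P R C L) = sm R L ∧ ∀ s' ∈ roundsB P R C L, (∀ c ∈ C, inS c s' = false) ∧
        ∃ s ∈ L, s'.1 ⊆ s.1 ∧ s'.2 ⊆ s.2
  | [], L, _, _ => ⟨rfl, fun s' hs' => ⟨fun c hc => absurd hc List.not_mem_nil, s', hs',
      List.Subset.refl _, List.Subset.refl _⟩⟩
  | c :: C, L, h, hP => by
    rw [List.length_cons, pow_succ] at hP
    have h0 : L.length ≤ P.length := by
      have h1 : 1 ≤ 2 ^ C.length * 2 := by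
        have := Nat.one_le_two_pow (n := C.length)
        omega
      exact (Nat.le_mul_of_pos_right _ h1).trans hP
    have hd : decide (L.length ≤ P.length) = true := decide_eq_true h0
    rw [roundsB_cons, hd, cond_true]
    have hl := flat_len R c L
    have hP' : (L.flatMap (stepB R c)).length * 2 ^ C.length ≤ P.length := by
      refine (Nat.mul_le_mul_right _ hl).trans ?_
      rw [show 2 * L.length * 2 ^ C.length = L.length * (2 ^ C.length * 2) by ring]
      exact hP
    obtain ⟨h1, h2⟩ := rounds_eq P R C (L.flatMap (stepB R c))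
      (fun s hs => (flat_mem R c L h s hs).1) hP'
    refine ⟨h1.trans (flat_sum R c L h), fun s' hs' => ?_⟩
    obtain ⟨h3, s, hs, h4, h5⟩ := h2 s' hs'
    obtain ⟨-, h6, t, ht, h7, h8⟩ := flat_mem R c L h s hs
    refine ⟨fun c' hc' => ?_, t, ht, fun x hx => h7 (h4 hx), fun x hx => h8 (h5 hx)⟩
    rcases List.mem_cons.1 hc' with h9 | h9
    · rw [h9]
      exact inS_mono c s s' h4 h5 h6
    · exact h3 c' h9

theorem apx_zero : ∀ (X : List (List Bool)) (Y : List ℕ),
    (∀ u ∈ X, ∀ j ∈ Y, nadj u j = true) → apx 0 X Y = cnt X Y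
  | [], Y, _ => by rw [apx, cnt]
  | u :: X, Y, h => by
    have h1 := apx_zero X Y fun u hu => h u (List.mem_cons_of_mem _ hu)
    have h2 : Y.all (nadj u) = true := List.all_eq_true.2 (h u List.mem_cons_self)
    have h3 : Y.filter (nadj u) = Y := List.filter_eq_self.2 (List.all_eq_true.1 h2)
    rw [cnt, h3, apx.eq_def]
    simp only [h2, if_true]
    omega

theorem algB_eq (P B : Un) (R : List (List Bool)) :
    algB P B R = ((roundsB P R (cov (maxM 1 B R))
      [(List.range R.length, List.range B.length)]).map fun s =>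
        apx 0 (s.1.map fun i => R.getD i []) s.2).sum := by
  unfold algB
  rw [tot_flatMap_leafExp, List.map_map]
  rfl

theorem nd_root (a b : ℕ) : ∀ s ∈ [((List.range a, List.range b) : SI)], Nd s := by
  intro s hs
  rw [List.mem_singleton.1 hs]
  exact ⟨List.nodup_range, List.nodup_range⟩

theorem sm_root (B : Un) (R : List (List Bool)) :
    sm R [(List.range R.length, List.range B.length)] = cnt R (List.range B.length) := by
  unfold sm
  rw [List.map_singleton, List.sum_singleton, BisRf.ALT_.cs_eq]

theorem cov_length (F : List (ℕ × ℕ)) : (cov F).length = 2 * F.length := by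
  unfold cov
  rw [List.length_append, List.length_map, List.length_map]
  omega

end NBFB_

open NBFB_ in
theorem n_BFB (h_BFA : N_BFA) : N_BFB := by
  refine ⟨fun P B R hR => ?_, fun ν P B R hR hν hP => ?_⟩
  · rw [algB_eq]
    have h1 := rounds_le P R (cov (maxM 1 B R)) _ (nd_root R.length B.length)
    rw [sm_root] at h1
    refine le_trans ?_ h1
    exact List.sum_le_sum fun s _ => apx_le _ _ _
  · rw [algB_eq]
    have hP' : [((List.range R.length, List.range B.length) : SI)].length *
        2 ^ (cov (maxM 1 B R)).length ≤ P.length := by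
      rw [cov_length, List.length_singleton, Nat.one_mul, pow_mul]
      exact (Nat.pow_le_pow_right (by norm_num) hν).trans hP
    obtain ⟨h1, h2⟩ := rounds_eq P R (cov (maxM 1 B R)) _ (nd_root R.length B.length) hP'
    rw [sm_root] at h1
    rw [← h1]
    unfold sm
    refine congrArg List.sum (List.map_congr_left fun s hs => ?_)
    obtain ⟨h3, t, ht, h4, h5⟩ := h2 s hs
    rw [List.mem_singleton] at ht
    rw [ht] at h4 h5
    unfold cs
    refine apx_zero _ _ fun u hu j hj => ?_
    obtain ⟨i, hi, rfl⟩ := List.mem_map.1 hu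
    by_contra hn
    have hij : aj R i j = true := by
      unfold nadj at hn
      unfold aj
      simpa using hn
    rcases h_BFA B R hR i j (List.mem_range.1 (h4 hi)) (List.mem_range.1 (h5 hj)) hij with
      ⟨e, he, he'⟩ | ⟨e, he, he'⟩
    · have hc : ((false, e.1) : Bool × ℕ) ∈ cov (maxM 1 B R) :=
        List.mem_append_left _ (List.mem_map.2 ⟨e, he, rfl⟩)
      exact inS_false_left e.1 s (h3 _ hc) (he' ▸ hi)
    · have hc : ((true, e.2) : Bool × ℕ) ∈ cov (maxM 1 B R) :=
        List.mem_append_right _ (List.mem_map.2 ⟨e, he, rfl⟩)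
      exact inS_false_right e.2 s (h3 _ hc) (he' ▸ hj)

end Pool.Agent.BisRk
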