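import Pool.Agent.BisRk.Targets3
import Pool.Agent.BisRt.P_PTS
import Pool.Agent.BisRg.P_WPT

/-!
# The exact algorithm for small matching number runs in polynomial time
-/

set_option autoImplicit false

namespace Pool.Agent.BisRk

open Finset Pool.Agent.PT Pool.Agent.BisTh Pool.Agent.BisRg Pool.Agent.BisRt Pool.Agent.BisRf

namespace NBFP_

theorem length_flatMap_le {α : Type} (l : List α) (f : α → List α)
    (h : ∀ x, (f x).length ≤ 2) : (l.flatMap f).length ≤ 2 * l.length := by
  induction l with
  | nil => simp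
  | cons x l ih =>
    rw [List.flatMap_cons, List.length_append, List.length_cons]
    have h1 := h x
    omega

/-- Sizes in a guarded sweep. -/
theorem sweep_bound (step : Bool × ℕ → SI → List SI) (P : Un) (N : ℕ)
    (h2 : ∀ c s, (step c s).length ≤ 2) (h3 : ∀ c s, ∀ q ∈ step c s, sz q ≤ sz s) :
    ∀ (l : List (Bool × ℕ)) (L : List SI), (∀ s ∈ L, sz s ≤ N) →
      L.length ≤ 2 * P.length + 1 →
      sz (l.foldl (fun L c => cond (decide (L.length ≤ P.length)) (L.flatMap (step c)) []) L) ≤
        (2 * P.length + 1) * (N + 1) + 1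
  | [], L, hM, hL => by
    rw [List.foldl_nil]
    exact (sz_list_le hM).trans (Nat.add_le_add_right (Nat.mul_le_mul hL le_rfl) _)
  | k :: l, L, hM, hL => by
    rw [List.foldl_cons]
    by_cases h : L.length ≤ P.length
    · have e : (decide (L.length ≤ P.length)) = true := decide_eq_true h
      rw [e, cond_true]
      refine sweep_bound step P N h2 h3 l _ ?_ ?_
      · intro s hs
        obtain ⟨s', hs', hs⟩ := List.mem_flatMap.1 hs
        exact (h3 k s' s hs).trans (hM s' hs')
      · have := length_flatMap_le L (step k) (h2 k)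
        omega
    · have e : (decide (L.length ≤ P.length)) = false := decide_eq_false h
      rw [e, cond_false]
      exact sweep_bound step P N h2 h3 l [] (by simp) (by simp)

theorem stepB_len (R : List (List Bool)) (c : Bool × ℕ) (s : SI) :
    (stepB R c s).length ≤ 2 := by
  unfold stepB
  cases inS c s with
  | true =>
    rw [cond_true]
    exact (BisRt.PTS_.kids_len R _ s).le
  | false =>
    rw [cond_false]
    simp

theorem stepB_sz (R : List (List Bool)) (c : Bool × ℕ) (s : SI) :
    ∀ q ∈ stepB R c s, sz q ≤ sz s := by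
  intro q hq
  unfold stepB at hq
  cases h : inS c s with
  | true =>
    rw [h, cond_true] at hq
    exact BisRt.PTS_.kids_sz R _ s q hq
  | false =>
    rw [h, cond_false, List.mem_singleton] at hq
    rw [hq]

section

variable {γ : Type} [Dat γ] [hC : Fact Core]

theorem inS_pt {c : γ → Bool × ℕ} {s : γ → SI} (hc : PolyF c) (hs : PolyF s) :
    PolyF (fun x => inS (c x) (s x)) := by
  unfold inS
  refine PolyF.cond (by fun_prop) ?_ ?_
  · exact PolyF.any (f := fun (x : γ) (j : ℕ) => decide (j = (c x).2)) (by fun_prop)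
      (by fun_prop)
  · exact PolyF.any (f := fun (x : γ) (i : ℕ) => decide (i = (c x).2)) (by fun_prop)
      (by fun_prop)

theorem stepB_pt {R : γ → List (List Bool)} {c : γ → Bool × ℕ} {s : γ → SI} (hR : PolyF R)
    (hc : PolyF c) (hs : PolyF s) : PolyF (fun x => stepB (R x) (c x) (s x)) := by
  unfold stepB
  refine PolyF.cond (inS_pt hc hs) ?_ ?_
  · exact BisRt.PTS_.kids_pt (c := fun x => ((c x).1, (c x).2, 0)) hR (by fun_prop) hs
  · fun_prop

theorem cov_pt {F : γ → List (ℕ × ℕ)} (hF : PolyF F) : PolyF (fun x => cov (F x)) := by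
  unfold cov
  have h1 : PolyF (fun x => (F x).map fun e => (false, e.1)) :=
    PolyF.map (f := fun (_ : γ) (e : ℕ × ℕ) => (false, e.1)) (by fun_prop) hF
  have h2 : PolyF (fun x => (F x).map fun e => (true, e.2)) :=
    PolyF.map (f := fun (_ : γ) (e : ℕ × ℕ) => (true, e.2)) (by fun_prop) hF
  exact h1.append h2

theorem roundsB_pt {P : γ → Un} {R : γ → List (List Bool)} {C : γ → List (Bool × ℕ)} {s : γ → SI}
    (hP : PolyF P) (hR : PolyF R) (hCl : PolyF C) (hs : PolyF s) :
    PolyF (fun x => roundsB (P x) (R x) (C x) [s x]) := by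
  unfold roundsB
  refine PolyF.foldl (f := fun (x : γ) (L : List SI) (c : Bool × ℕ) =>
      cond (decide (L.length ≤ (P x).length)) (L.flatMap (stepB (R x) c)) [])
    ?_ (by fun_prop) hCl
    (fun x => (2 * sz (P x) + 1) * (sz (s x) + 1) + 1) ?_ ?_
  · have h0 : PolyF (fun q : (γ × List SI × (Bool × ℕ)) × SI =>
        stepB (R q.1.1) q.1.2.2 q.2) :=
      stepB_pt (R := fun q : (γ × List SI × (Bool × ℕ)) × SI => R q.1.1)
        (c := fun q => q.1.2.2) (s := fun q => q.2) (by fun_prop) (by fun_prop) (by fun_prop)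
    have h1 : PolyF (fun p : γ × List SI × (Bool × ℕ) =>
        p.2.1.flatMap (stepB (R p.1) p.2.2)) :=
      PolyF.flatMap (f := fun (p : γ × List SI × (Bool × ℕ)) s => stepB (R p.1) p.2.2 s) h0
        (by fun_prop)
    fun_prop
  · have b1 : PolyB (fun x => sz (P x)) := hP.bound
    have b2 : PolyB (fun x => sz (s x)) := hs.bound
    exact (((((PolyB.const 2).mul b1).add (PolyB.const 1)).mul
      (b2.add (PolyB.const 1))).add (PolyB.const 1))
  · intro x l₁ _
    have h1 := sweep_bound (stepB (R x)) (P x) (sz (s x)) (fun c s => stepB_len _ c s)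
      (fun c s => stepB_sz _ c s) l₁ [s x] (by simp) (by simp)
    refine h1.trans (Nat.add_le_add_right (Nat.mul_le_mul_right _ ?_) _)
    have := length_lt_sz (P x)
    omega

theorem leaf0_pt : PolyF (fun p : γ × St => leafExp [] p.2) := by
  have h := BisRg.WPT_.leaf_pt (γ := γ) (W := fun _ => ([] : Un)) (T := fun _ => ([] : Un))
    (PolyF.const _) (PolyF.const _)
  have e : bud ([] : Un) ([] : Un) = [] := by
    unfold bud
    simp [rep]
  rw [e] at h
  exact h

theorem toSt_pt {R : γ → List (List Bool)} (hR : PolyF R) :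
    PolyF (fun p : γ × SI => toSt (R p.1) p.2) := by
  unfold toSt
  have h1 : PolyF (fun p : γ × SI => p.2.1.map fun i => (R p.1).getD i []) :=
    PolyF.map (f := fun (p : γ × SI) i => (R p.1).getD i []) (by fun_prop) (by fun_prop)
  exact h1.pair (by fun_prop)

end

end NBFP_

theorem n_BFP (v_PTM : V_PTM) : N_BFP := by
  intro hC
  have hM : PolyF (fun x : Un × Un × List (List Bool) => maxM 1 x.2.1 x.2.2) :=
    (v_PTM hC).comp (g := fun x : Un × Un × List (List Bool) => (1, x.2.1, x.2.2))
      (by fun_prop)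
  have hs : PolyF (fun x : Un × Un × List (List Bool) =>
      ((List.range x.2.2.length, List.range x.2.1.length) : SI)) :=
    (PolyF.range_length (by fun_prop)).pair (PolyF.range_length (by fun_prop))
  have h1 : PolyF (fun x : Un × Un × List (List Bool) =>
      roundsB x.1 x.2.2 (cov (maxM 1 x.2.1 x.2.2))
        [(List.range x.2.2.length, List.range x.2.1.length)]) :=
    NBFP_.roundsB_pt (P := fun x : Un × Un × List (List Bool) => x.1) (R := fun x => x.2.2)
      (C := fun x => cov (maxM 1 x.2.1 x.2.2)) (by fun_prop) (by fun_prop)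
      (NBFP_.cov_pt hM) hs
  have h2 := PolyF.map (f := fun (x : Un × Un × List (List Bool)) s => toSt x.2.2 s)
    (NBFP_.toSt_pt (R := fun x : Un × Un × List (List Bool) => x.2.2) (by fun_prop)) h1
  have h4 := PolyF.flatMap (f := fun (_ : Un × Un × List (List Bool)) s => leafExp [] s)
    NBFP_.leaf0_pt h2
  unfold algB
  exact tot_pt h4

end Pool.Agent.BisRk
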