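import Pool.Agent.BisRk.Targets3
import Pool.Agent.BisRt.P_KID
import Pool.Agent.BisRt.P_CSK

/-!
# Target CBD: the weight bounds the number of independent pairs (matching number)
-/

set_option autoImplicit false

namespace Pool.Agent.BisRk

open Finset Pool.Agent.PT Pool.Agent.BisTh Pool.Agent.BisRg Pool.Agent.BisRt Pool.Agent.BisRf

namespace NCBD_

/-- One branching. -/
lemma step {R : List (List Bool)} {c : Bool × ℕ × ℕ} {s s₁ s₂ : SI} {f : SI → ℝ} {m : ℕ}
    (hk : kids R c s = [s₁, s₂]) (hsum : ((kids R c s).map (cs R)).sum = cs R s)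
    (hW : ((kids R c s).map f).sum ≤ f s)
    (h1 : (cs R s₁ : ℝ) ≤ 2 ^ m * f s₁) (h2 : (cs R s₂ : ℝ) ≤ 2 ^ m * f s₂) :
    (cs R s : ℝ) ≤ 2 ^ m * f s := by
  rw [hk] at hsum hW
  simp only [List.map_cons, List.map_nil, List.sum_cons, List.sum_nil, add_zero] at hsum hW
  rw [← hsum, Nat.cast_add]
  have h4 : (0 : ℝ) ≤ 2 ^ m := by positivity
  calc (cs R s₁ : ℝ) + cs R s₂ ≤ 2 ^ m * f s₁ + 2 ^ m * f s₂ := add_le_add h1 h2
    _ = 2 ^ m * (f s₁ + f s₂) := by ring
    _ ≤ 2 ^ m * f s := mul_le_mul_of_nonneg_left hW h4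

end NCBD_

theorem n_CBD (h_BST : K_BST) (h_WKD : N_WKD) (v_LFB : V_LFB) (h_WRT : N_WRT) : N_CBD := by
  intro R F n N D m hR hg hDN
  have h_KID : T_KID := p_KID
  have h_CSK : T_CSK := p_CSK
  have hD1 : 1 ≤ D := by omega
  have key : ∀ N' : ℕ, ∀ s : SI, s.1.length + s.2.length = N' → GoodS n s →
      0 ≤ SG F D m s → (cs R s : ℝ) ≤ 2 ^ m * WS F n D m (69 / 100) s := by
    intro N'
    induction N' using Nat.strong_induction_on with
    | _ N' ih =>
      intro s hN hs hsg
      by_cases hc : candsK D (List.range N) R F s = []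
      · have hlow := (h_BST R F n N D s hR.1 hs hDN).1 hc
        have h1 := v_LFB R F n D m hR.1 (by omega) s hs hlow hsg
        have h2 := ((h_WRT F n D m hD1).1 s).2.2 (69 / 100)
        have h4 : (0 : ℝ) ≤ 2 ^ m := by positivity
        exact h1.trans (mul_le_mul_of_nonneg_left h2 h4)
      · have hch := (h_BST R F n N D s hR.1 hs hDN).2 hc
        obtain ⟨hW, hS⟩ := h_WKD R F n D m hR hg (69 / 100) (by norm_num) s _ hs hch
        generalize best (candsK D (List.range N) R F s) = c at hch hW hS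
        obtain ⟨b, u, t⟩ := c
        obtain ⟨c1, c2⟩ := hch
        cases b with
        | false =>
          have hu : u ∈ s.1 := by
            have h6 := (c1 rfl).1
            exact List.mem_toFinset.1 (Finset.mem_filter.1 h6).1
          obtain ⟨s₁, s₂, hk, g1, g2, -, -, -, -, l1, l2⟩ := (h_KID R n s hs).1 u t hu
          have hsum := (h_CSK R s hs.1 hs.2.1).1 u t hu
          rw [hk] at hS
          have k1 := hsg.trans (hS s₁ (by simp))
          have k2 := hsg.trans (hS s₂ (by simp))
          exact NCBD_.step hk hsum hW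
            (ih _ (by omega) s₁ rfl g1 k1) (ih _ (by omega) s₂ rfl g2 k2)
        | true =>
          have hv : u ∈ s.2 := by
            have h6 := (c2 rfl).1
            exact List.mem_toFinset.1 (Finset.mem_filter.1 h6).1
          obtain ⟨s₁, s₂, hk, g1, g2, -, -, -, -, l1, l2⟩ := (h_KID R n s hs).2 u t hv
          have hsum := (h_CSK R s hs.1 hs.2.1).2 u t hv
          rw [hk] at hS
          have k1 := hsg.trans (hS s₁ (by simp))
          have k2 := hsg.trans (hS s₂ (by simp))
          exact NCBD_.step hk hsum hW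
            (ih _ (by omega) s₁ rfl g1 k1) (ih _ (by omega) s₂ rfl g2 k2)
  intro s hs hsg
  exact key _ s rfl hs hsg

end Pool.Agent.BisRk
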