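import Pool.Agent.BisRk.Targets3

/-!
# BRN-DPI: the potential when a vertex and its neighbours are removed
-/

set_option autoImplicit false

namespace Pool.Agent.BisRk

open Finset Pool.Agent.PT Pool.Agent.BisTh Pool.Agent.BisRg Pool.Agent.BisRt Pool.Agent.BisRf

namespace NDPI_

/-- a large cost, or many heavy neighbours -/
theorem cases_ {adj fd : ℕ → ℕ → Bool} {n D : ℕ} (hD : 350 ≤ D) {X Y : Finset ℕ}
    (hX : X ⊆ range n) (hY : Y ⊆ range n) {u : ℕ} (hN : D < 5 * (nb adj Y u).card) :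
    D ≤ 10 * (nb adj Y u ∩ hv (tr fd) D n).card ∨
      7 * (4 * D) ≤ cF adj fd D X Y u := by
  obtain ⟨H, hH⟩ : ∃ H, H = hv (tr fd) D n := ⟨_, rfl⟩
  obtain ⟨N, hNe⟩ : ∃ N, N = nb adj Y u := ⟨_, rfl⟩
  rw [← hH, ← hNe]
  rw [← hNe] at hN
  have hsplit : (N \ H).card + (N ∩ H).card = N.card := card_sdiff_add_card_inter N H
  by_cases h1 : D ≤ 10 * (N ∩ H).card
  · exact Or.inl h1
  · right
    have h2 : D < 10 * (N \ H).card := by omega
    have h3 : ∀ j ∈ N \ H, 4 * D ≤ 5 * (D - (nb (tr fd) X j).card) := by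
      intro j hj
      obtain ⟨hjN, hjH⟩ := mem_sdiff.1 hj
      have hjY : j ∈ Y := by
        rw [hNe] at hjN
        exact (mem_filter.1 hjN).1
      have hjn : j ∈ range n := hY hjY
      have h4 : ¬ D < 5 * (nb (tr fd) (range n) j).card := by
        intro h
        apply hjH
        rw [hH]
        exact mem_filter.2 ⟨hjn, h⟩
      have h5 : (nb (tr fd) X j).card ≤ (nb (tr fd) (range n) j).card :=
        card_le_card (filter_subset_filter _ hX)
      omega
    have h4 : ∑ j ∈ N \ H, 4 * D ≤ ∑ j ∈ N \ H, 5 * (D - (nb (tr fd) X j).card) :=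
      sum_le_sum h3
    rw [sum_const, smul_eq_mul, ← mul_sum] at h4
    have h5 : ∑ j ∈ N \ H, (D - (nb (tr fd) X j).card) ≤ cF adj fd D X Y u := by
      unfold cF
      rw [← hNe]
      exact sum_le_sum_of_subset sdiff_subset
    have h6 : 35 * (4 * D) ≤ (N \ H).card * (4 * D) := Nat.mul_le_mul_right _ (by omega)
    omega

end NDPI_

/-- DPI: the potential when `u` and its neighbours are removed. -/
theorem n_DPI (h_REG : K_REG) (h_INN : K_INN) (v_INN : V_INN) (v_FFF : V_FFF) : N_DPI := by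
  intro adj fd n D m hReg hD350 θ hθ X Y hX hY u hu
  have hD : 1 ≤ D := by omega
  have huX : u ∈ X := (mem_filter.mp hu).1
  have hN : D < 5 * (nb adj Y u).card := (mem_filter.mp hu).2
  have hE := (v_INN adj fd n D n m (h_REG adj fd n D hReg hD).2.1 hD X Y hX hY u huX).1
  have hL := DPI_.left h_INN v_FFF hReg hD hX hY huX
  have hR := DPI_.right h_INN v_FFF hReg hD hX hY huX
  have hdr : (0 : ℝ) < D := by exact_mod_cast hD
  have hA : (X.erase u ∩ hv fd D n).card ≤ (X ∩ hv fd D n).card :=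
    card_le_card (inter_subset_inter_right (erase_subset _ _))
  have hNY : nb adj Y u ⊆ Y := filter_subset _ _
  have hB : ((Y \ nb adj Y u) ∩ hv (tr fd) D n).card +
      (nb adj Y u ∩ hv (tr fd) D n).card = (Y ∩ hv (tr fd) D n).card := by
    rw [← card_union_of_disjoint]
    · congr 1
      ext j
      simp only [mem_union, mem_inter, mem_sdiff]
      constructor
      · rintro (⟨⟨h1, -⟩, h2⟩ | ⟨h1, h2⟩)
        · exact ⟨h1, h2⟩
        · exact ⟨hNY h1, h2⟩
      · rintro ⟨h1, h2⟩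
        by_cases h3 : j ∈ nb adj Y u
        · exact Or.inr ⟨h3, h2⟩
        · exact Or.inl ⟨⟨h1, h3⟩, h2⟩
    · rw [disjoint_left]
      intro j hj hj'
      exact (mem_sdiff.1 (mem_inter.1 hj).1).2 (mem_inter.1 hj').1
  have hT : (((X.erase u ∩ hv fd D n).card + ((Y \ nb adj Y u) ∩ hv (tr fd) D n).card : ℕ) : ℝ) +
      ((nb adj Y u ∩ hv (tr fd) D n).card : ℝ) ≤
      (((X ∩ hv fd D n).card + (Y ∩ hv (tr fd) D n).card : ℕ) : ℝ) := by
    have : (X.erase u ∩ hv fd D n).card + ((Y \ nb adj Y u) ∩ hv (tr fd) D n).card +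
        (nb adj Y u ∩ hv (tr fd) D n).card ≤
        (X ∩ hv fd D n).card + (Y ∩ hv (tr fd) D n).card := by omega
    exact_mod_cast this
  have hT' := div_le_div_of_nonneg_right hT hdr.le
  rw [add_div] at hT'
  have hS1 : (Sk fd fd D 1 (X.erase u) (Y \ nb adj Y u) +
      Sk (tr fd) (tr fd) D 1 (Y \ nb adj Y u) (X.erase u)) / D ≤
      (Sk fd fd D 1 X Y + Sk (tr fd) (tr fd) D 1 Y X) / D +
        (cF adj fd D X Y u : ℝ) / D / 4 := by
    have h := div_le_div_of_nonneg_right (add_le_add hL hR) hdr.le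
    have h2 : (Sk fd fd D 1 X Y + (cF adj fd D X Y u : ℝ) / 4 +
        Sk (tr fd) (tr fd) D 1 Y X) / D =
        (Sk fd fd D 1 X Y + Sk (tr fd) (tr fd) D 1 Y X) / D +
          (cF adj fd D X Y u : ℝ) / D / 4 := by
      field_simp
      ring
    linarith
  have hc : 0 ≤ (cF adj fd D X Y u : ℝ) / D := by positivity
  have hθc : 3 / 5 * ((cF adj fd D X Y u : ℝ) / D) ≤ θ * ((cF adj fd D X Y u : ℝ) / D) :=
    mul_le_mul_of_nonneg_right hθ hc
  have h3 : θ * (sg fd D m X Y + (1 + (cF adj fd D X Y u : ℝ) / D)) =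
      θ * sg fd D m X Y + θ + θ * ((cF adj fd D X Y u : ℝ) / D) := by ring
  have hk0 : (0 : ℝ) ≤ ((nb adj Y u ∩ hv (tr fd) D n).card : ℝ) / D := by positivity
  unfold PH
  rw [hE, h3]
  rcases NDPI_.cases_ (adj := adj) (fd := fd) hD350 hX hY hN with h | h
  · have h1 : 1 / 10 ≤ ((nb adj Y u ∩ hv (tr fd) D n).card : ℝ) / D := by
      rw [le_div_iff₀ hdr]
      have h' : (D : ℝ) ≤ 10 * ((nb adj Y u ∩ hv (tr fd) D n).card : ℝ) := by exact_mod_cast h
      linarith
    linarith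
  · have h1 : 28 ≤ (cF adj fd D X Y u : ℝ) / D := by
      rw [le_div_iff₀ hdr]
      have h' : 7 * (4 * (D : ℝ)) ≤ (cF adj fd D X Y u : ℝ) := by exact_mod_cast h
      linarith
    linarith

end Pool.Agent.BisRk
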