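import Pool.Agent.BisRk.Targets3

/-!
# BRN-DPO: the potential when a vertex is removed
-/

set_option autoImplicit false

namespace Pool.Agent.BisRk

open Finset Pool.Agent.PT Pool.Agent.BisTh Pool.Agent.BisRg Pool.Agent.BisRt Pool.Agent.BisRf

namespace NDPO_

/-- the new term does not increase -/
theorem card_le (fd : ℕ → ℕ → Bool) (n D : ℕ) (X : Finset ℕ) (u : ℕ) :
    ((X.erase u) ∩ hv fd D n).card ≤ (X ∩ hv fd D n).card :=
  card_le_card (inter_subset_inter (erase_subset u X) (Subset.refl _))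

/-- the new term decreases if `u` has more than `D / 5` edges of `fd` -/
theorem card_succ_le (fd : ℕ → ℕ → Bool) (n D : ℕ) {X Y : Finset ℕ} (hX : X ⊆ range n)
    (hY : Y ⊆ range n) {u : ℕ} (hu : u ∈ X) (h : D < 5 * (nb fd Y u).card) :
    ((X.erase u) ∩ hv fd D n).card + 1 ≤ (X ∩ hv fd D n).card := by
  have hsub : nb fd Y u ⊆ nb fd (range n) u := filter_subset_filter _ hY
  have hc := card_le_card hsub
  have hm : u ∈ X ∩ hv fd D n := by
    refine mem_inter.2 ⟨hu, ?_⟩
    unfold hv
    exact mem_filter.2 ⟨hX hu, by omega⟩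
  have he : (X.erase u) ∩ hv fd D n = (X ∩ hv fd D n).erase u := by
    ext x
    simp only [mem_inter, mem_erase]
    tauto
  rw [he]
  exact (card_erase_add_one hm).le

end NDPO_

open NDPO_ in
theorem n_DPO (h_REG : K_REG) (v_DPO : V_DPO) : N_DPO := by
  intro adj fd n D m hsub hD θ hθ X Y hX hY u hu
  have hD0 : (0 : ℝ) < D := by exact_mod_cast hD
  obtain ⟨hreg, -, -⟩ := h_REG adj fd n D hsub hD
  have h1 := v_DPO fd fd n D 1 m hreg hD le_rfl θ hθ X Y hX hY u hu
  unfold Pk at h1
  have hs : (Nat.size 1 : ℝ) = 1 := by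
    rw [Nat.size_one]
    norm_num
  rw [hs] at h1
  have hc : (X.card : ℝ) = ((X.erase u).card : ℝ) + 1 := by
    rw [← card_erase_add_one hu]
    push_cast
    ring
  rw [hc] at h1
  have e1 : (((X.erase u).card : ℝ) + 1 + Y.card) / D =
      (((X.erase u).card : ℝ) + Y.card) / D + 1 / D := by
    rw [← add_div]
    congr 1
    ring
  rw [e1] at h1
  have h2 : 80 * ((((X.erase u) ∩ hv fd D n).card + (Y ∩ hv (tr fd) D n).card : ℕ) / (D : ℝ)) +
      (if D < 5 * (nb fd Y u).card then 80 / (D : ℝ) else 0) ≤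
      80 * (((X ∩ hv fd D n).card + (Y ∩ hv (tr fd) D n).card : ℕ) / (D : ℝ)) := by
    split_ifs with h
    · have h3 := card_succ_le fd n D hX hY hu h
      have h4 : ((((X.erase u) ∩ hv fd D n).card + (Y ∩ hv (tr fd) D n).card : ℕ) : ℝ) + 1 ≤
          (((X ∩ hv fd D n).card + (Y ∩ hv (tr fd) D n).card : ℕ) : ℝ) := by
        have h5 : ((X.erase u) ∩ hv fd D n).card + (Y ∩ hv (tr fd) D n).card + 1 ≤
            (X ∩ hv fd D n).card + (Y ∩ hv (tr fd) D n).card := by omega
        exact_mod_cast h5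
      have h6 := div_le_div_of_nonneg_right h4 hD0.le
      rw [add_div] at h6
      have h7 : 80 / (D : ℝ) = 80 * (1 / D) := by ring
      rw [h7]
      linarith
    · have h3 := card_le fd n D X u
      have h4 : ((((X.erase u) ∩ hv fd D n).card + (Y ∩ hv (tr fd) D n).card : ℕ) : ℝ) ≤
          (((X ∩ hv fd D n).card + (Y ∩ hv (tr fd) D n).card : ℕ) : ℝ) := by
        have h5 : ((X.erase u) ∩ hv fd D n).card + (Y ∩ hv (tr fd) D n).card ≤
            (X ∩ hv fd D n).card + (Y ∩ hv (tr fd) D n).card := by omega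
        exact_mod_cast h5
      have h6 := div_le_div_of_nonneg_right h4 hD0.le
      linarith
  unfold PH
  have h8 : 35 / (D : ℝ) = 35 * (1 / D) := by ring
  rw [h8]
  linarith

end Pool.Agent.BisRk
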