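import Pool.Agent.BisRk.Targets3

/-!
# EDN: all edges of a `D`-matching are counted

MP_29585b_lc, project BRN.
-/

set_option autoImplicit false

namespace Pool.Agent.BisRk

open Finset Pool.Agent.PT Pool.Agent.BisTh Pool.Agent.BisRg Pool.Agent.BisRt Pool.Agent.BisRf

namespace NEDN_

theorem mem_edgesL (B : Un) (R : List (List Bool)) (i j : ℕ) (h : (i, j) ∈ edgesL B R) :
    i < R.length ∧ j < B.length := by
  unfold edgesL at h
  simp only [List.mem_flatMap, List.mem_range, List.mem_map, List.mem_filter,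
    Prod.mk.injEq] at h
  obtain ⟨i', hi, j', ⟨hj, -⟩, rfl, rfl⟩ := h
  exact ⟨hi, hj⟩

theorem aF_iff (F : List (ℕ × ℕ)) (i j : ℕ) : aF F i j = true ↔ (i, j) ∈ F := by
  unfold aF
  simp only [List.any_eq_true, Bool.and_eq_true, decide_eq_true_eq]
  constructor
  · rintro ⟨⟨x, y⟩, h, h1, h2⟩
    simp only at h1 h2
    rw [← h1, ← h2]
    exact h
  · intro h
    exact ⟨(i, j), h, rfl, rfl⟩

/-- the neighbours of one vertex -/
theorem fibre (F : List (ℕ × ℕ)) (n : ℕ) (hF : ∀ e ∈ F, e.2 < n) (i : ℕ) :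
    (nb (aF F) (range n) i).card = (F.toFinset.filter fun e => e.1 = i).card := by
  refine Finset.card_bij' (fun j _ => (i, j)) (fun e _ => e.2) ?_ ?_ ?_ ?_
  · intro j hj
    have h1 : aF F i j = true := (Finset.mem_filter.1 hj).2
    rw [Finset.mem_filter, List.mem_toFinset]
    exact ⟨(aF_iff F i j).1 h1, rfl⟩
  · rintro ⟨i', j⟩ he
    rw [Finset.mem_filter, List.mem_toFinset] at he
    obtain ⟨h1, h2⟩ := he
    change i' = i at h2
    subst h2
    exact Finset.mem_filter.2 ⟨Finset.mem_range.2 (hF _ h1), (aF_iff F i' j).2 h1⟩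
  · intro j _
    rfl
  · rintro ⟨i', j⟩ he
    have h2 : i' = i := (Finset.mem_filter.1 he).2
    rw [h2]

theorem count (F : List (ℕ × ℕ)) (n : ℕ) (hn : F.Nodup) (h1 : ∀ e ∈ F, e.1 < n)
    (h2 : ∀ e ∈ F, e.2 < n) : eN (aF F) n = F.length := by
  rw [← List.toFinset_card_of_nodup hn, Finset.card_eq_sum_card_fiberwise
    (f := fun e : ℕ × ℕ => e.1) (t := range n) fun e he =>
      Finset.mem_coe.2 (Finset.mem_range.2 (h1 e (List.mem_toFinset.1 he)))]
  unfold eN
  exact Finset.sum_congr rfl fun i _ => fibre F n h2 i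

end NEDN_

open NEDN_ in
/-- **EDN** -/
theorem n_EDN (v_MXM : V_MXM) : N_EDN := by
  intro D B R hR
  obtain ⟨⟨hnd, hE, -, -⟩, -⟩ := v_MXM D B R hR
  refine count _ _ hnd (fun e he => ?_) fun e he => ?_
  · exact lt_max_of_lt_left (mem_edgesL B R e.1 e.2 (hE e he)).1
  · exact lt_max_of_lt_right (mem_edgesL B R e.1 e.2 (hE e he)).2

end Pool.Agent.BisRk
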