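import Pool.Agent.BisRk.Targets3
import Pool.Agent.BisRk.Q_ERR

/-!
# ERR: the error of the value for fixed `D` and `M` (matching number)
-/

set_option autoImplicit false

namespace Pool.Agent.BisRk

open Finset Pool.Agent.PT Pool.Agent.BisTh Pool.Agent.BisRg Pool.Agent.BisRt Pool.Agent.BisRf

namespace NERR_

/-- The states after all rounds. -/
def NvL (D M : ℕ) (W T B : Un) (R : List (List Bool)) : List SI :=
  roundsK D (limDN D W T (vG B R)) (capN W T) (vG B R) (dl M (vG B R)) R (maxM D B R)
    [(List.range R.length, List.range B.length)]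

theorem algND_eq (D M : ℕ) (W T B : Un) (R : List (List Bool)) :
    algND D M W T B R = ((NvL D M W T B R).map fun s =>
      apx (bud (capN W T) (T ++ T)).length (rws R s) s.2).sum := by
  unfold algND
  rw [tot_flatMap_leafExp, List.map_map]
  rfl

theorem capN_length (W T : Un) :
    (capN W T).length = (2 * W.length + 2 * T.length + 3) ^ 19300 := by
  unfold capN
  rw [pw_length]
  have h : (W ++ W ++ T ++ T ++ [true, true, true]).length =
      2 * W.length + 2 * T.length + 3 := by
    simp only [List.length_append, List.length_cons, List.length_nil]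
    omega
  rw [h]

theorem le_capN (W T : Un) : W.length ≤ (capN W T).length := by
  rw [capN_length]
  exact BisRu.ERR_.le_pow_of_le _ _ _ (by norm_num) (by omega)

theorem limDN_eq (D n : ℕ) (W T : Un) (h : D ≤ n) :
    limDN D W T (List.range n) =
      D * (9300 * (Nat.size W.length + Nat.size T.length + 1)) := by
  unfold limDN
  rw [BisRf.ERR_.flatN_length, BisRf.ERR_.dl_length D n h]
  unfold limN
  rw [rep_length, List.length_append, List.length_append, ← Nat.size_eq_bits_len,
    ← Nat.size_eq_bits_len, List.length_singleton]

/-- The error if the slack of the first state is large. -/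
theorem bigN (t : ℝ) (cnt N Q E E' F W : ℝ) (hN : 0 ≤ N) (ht : 0 ≤ t) (hQ : 0 ≤ Q)
    (hF : 0 ≤ F) (hE' : 0 ≤ E') (hEE : E' ≤ E) (hW : W ≤ F)
    (h1 : cnt ≤ N * Q * (E' * W))
    (h2 : 2 * t * (Q * E * F) ≤ 1) :
    2 * t * cnt ≤ N := by
  have h3 : E' * W ≤ E * F :=
    (mul_le_mul_of_nonneg_left hW hE').trans (mul_le_mul_of_nonneg_right hEE hF)
  have h4 : cnt ≤ N * (Q * E * F) := by
    calc cnt ≤ N * Q * (E' * W) := h1
      _ ≤ N * Q * (E * F) := mul_le_mul_of_nonneg_left h3 (by positivity)
      _ = N * (Q * E * F) := by ring
  calc 2 * t * cnt ≤ 2 * t * (N * (Q * E * F)) :=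
        mul_le_mul_of_nonneg_left h4 (by positivity)
    _ = N * (2 * t * (Q * E * F)) := by ring
    _ ≤ N * 1 := mul_le_mul_of_nonneg_left h2 hN
    _ = N := mul_one N

end NERR_

open NERR_ BisRf.ERR_ BisRu.ERR_ in
theorem n_ERR (h_RND : N_RND) (h_RLB : K_RLB) (h_CBD : N_CBD) (h_WRT : N_WRT) (v_LFE : V_LFE)
    (h_NUM : N_NUM) (v_MXM : V_MXM) (h_FRG : K_FRG) (v_LNK : V_LNK) (h_EDN : N_EDN) :
    N_ERR := by
  refine ⟨fun D M W T B R hlen hD => ?_,
    fun D M c c' ν k W T B R hlen hD hDN hMN hcond hcc hν hk hw => ?_⟩
  · rw [algND_eq]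
    have h1 := h_RLB R (maxM D B R) R.length B.length D (limDN D W T (vG B R)) (capN W T)
      (dl M (vG B R)) (h_FRG D B R hlen).1 hD
    rw [← BisRf.ERR_.vG_eq] at h1
    refine le_trans ?_ h1
    exact List.sum_le_sum fun s _ => apx_le _ _ _
  · rcases Nat.eq_zero_or_pos T.length with ht | ht
    · rw [ht, Nat.zero_mul]
      exact Nat.zero_le _
    have hD1 : 1 ≤ D := by omega
    obtain ⟨hsub, hFR⟩ := h_FRG D B R hlen
    obtain ⟨-, hm2, hm3, hm4⟩ := v_MXM D B R hlen
    have hm5 := hm2 c' hcond
    have hML := LERR_.dlM_len M B R hMN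
    have hE : eN (aF (maxM D B R)) (max R.length B.length) ≤ D * ν := by
      rw [h_EDN D B R hlen]
      exact hν
    have hgood : GoodS (max R.length B.length) (List.range R.length, List.range B.length) := by
      refine ⟨List.nodup_range, List.nodup_range, fun i hi => ?_, fun j hj => ?_⟩
      · exact lt_of_lt_of_le (List.mem_range.1 hi) (le_max_left _ _)
      · exact lt_of_lt_of_le (List.mem_range.1 hj) (le_max_right _ _)
    obtain ⟨-, -, hl3, hl4⟩ := v_LNK R (maxM D B R) _ (R.length + B.length) D _ hgood hDN
    have hD0 : (0 : ℝ) < D := by exact_mod_cast hD1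
    have hsl : 0 ≤ SG (maxM D B R) D ((dl M (vG B R)).length + c)
        (List.range R.length, List.range B.length) := by
      unfold SG sg
      rw [← hl3, hm3, hML, ← hcc]
      have e1 : ((List.range R.length).toFinset).card = R.length := by
        rw [List.toFinset_card_of_nodup List.nodup_range, List.length_range]
      have e2 : ((List.range B.length).toFinset).card = B.length := by
        rw [List.toFinset_card_of_nodup List.nodup_range, List.length_range]
      have h5 : (D : ℝ) * (R.length + B.length) ≤
          (maxM D B R).length + D * ((max R.length B.length + c' : ℕ) : ℝ) := by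
        exact_mod_cast hm5
      have h6 : ((R.length : ℝ) + B.length) ≤
          ((max R.length B.length + c' : ℕ) : ℝ) + ((maxM D B R).length : ℝ) / D := by
        rw [← sub_le_iff_le_add', le_div_iff₀ hD0]
        nlinarith
      show 0 ≤ _ - ((((List.range R.length).toFinset).card : ℝ) +
        ((List.range B.length).toFinset).card)
      rw [e1, e2]
      linarith
    obtain ⟨hn2, hn3⟩ := h_NUM ν D c k W.length T.length hD1 hk hw ht
    have hcap := capN_length W T
    have hlim := limDN_eq D (R.length + B.length) W T hDN
    rw [← BisRf.ERR_.vG_eq] at hlim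
    rw [← hcap, ← hlim] at hn2
    rw [← hlim] at hn3
    by_cases hkeep : keep D (limDN D W T (vG B R)) (List.range (R.length + B.length))
        (dl M (vG B R)) (maxM D B R) (List.range R.length, List.range B.length) = true
    · obtain ⟨r1, r2, r3⟩ := h_RND R (maxM D B R) (max R.length B.length) R.length B.length D c
        (limDN D W T (vG B R)) ν (capN W T) (dl M (vG B R)) hFR hD hDN
        (le_max_left _ _) (le_max_right _ _) hE hsl hkeep hn2
      rw [← BisRf.ERR_.vG_eq] at r1 r2 r3
      have hck : c ≤ k := by
        have h1 : D * c ≤ D * k := le_trans (Nat.le_add_left _ _) hk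
        exact Nat.le_of_mul_le_mul_left h1 (by omega)
      have hQ : 2 ^ c ≤ (capN W T).length :=
        ((Nat.pow_le_pow_right (by norm_num) hck).trans hw).trans (le_capN W T)
      have hcap1 : 1 ≤ (capN W T).length := le_trans Nat.one_le_two_pow hQ
      have hcast : ((NvL D M W T B R).map fun s => (cs R s : ℝ)).sum =
          ((((NvL D M W T B R).map (cs R)).sum : ℕ) : ℝ) := by
        rw [Nat.cast_list_sum, List.map_map]
        rfl
      unfold NvL at hcast
      rw [hcast] at r3
      have hM : Mg ((dl M (vG B R)).length + c) D (limDN D W T (vG B R)) =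
          2 ^ M * 2 ^ c * 1 *
            Real.exp (-(9 / 100 * ((limDN D W T (vG B R) : ℝ) / D))) := by
        unfold Mg
        rw [pow_add, hML, mul_one]
      have r3' : (cs R (List.range R.length, List.range B.length) : ℝ) ≤
          (((((roundsK D (limDN D W T (vG B R)) (capN W T) (vG B R) (dl M (vG B R)) R
            (maxM D B R) [(List.range R.length, List.range B.length)]).map (cs R)).sum : ℕ)) : ℝ) +
            Mg ((dl M (vG B R)).length + c) D (limDN D W T (vG B R)) *
              (1 * Real.exp (825 * ((ν : ℝ) / D))) := by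
        rw [one_mul]
        exact r3
      have hn3' : 2 * (T.length : ℝ) * (2 ^ c * 1 *
          Real.exp (-(9 / 100 * ((limDN D W T (vG B R) : ℝ) / D))) *
          (1 * Real.exp (825 * ((ν : ℝ) / D)))) ≤ 1 := by
        rw [mul_one, one_mul]
        exact hn3
      have hl := loss _ _ (T.length : ℝ) (2 ^ M) (2 ^ c) _ _ _ _ _
        (by positivity) (by positivity) (by positivity) (le_refl (1 : ℝ)) zero_le_one zero_le_one
        (Real.exp_pos _).le (Real.exp_pos _).le hM r3' hn3'
      have hl' : 2 * T.length * (cs R (List.range R.length, List.range B.length) -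
          ((NvL D M W T B R).map (cs R)).sum) ≤ 2 ^ M := by
        exact_mod_cast hl
      have hbud : (bud (capN W T) (T ++ T)).length =
          6 * ((T ++ T).length.size + 3 * (capN W T).length.size) := ALD_.bud_length _ _
      have herr : ∀ s ∈ NvL D M W T B R,
          2 ^ ((T ++ T).length.size + 3 * (capN W T).length.size) *
            (cs R s - apx (bud (capN W T) (T ++ T)).length (rws R s) s.2) ≤
            2 ^ M * 2 ^ c := by
        intro s hs
        obtain ⟨q1, q2, q3⟩ := r1 s hs
        rw [hML] at q3
        rw [hbud, ← pow_add]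
        exact v_LFE R (maxM D B R) (max R.length B.length) D _ hsub hD1 s q1 q2 q3 _
      have h3 := sum_err R _ _ _ _ herr
      rw [← algND_eq] at h3
      have h5 := ALD_.le_pow (T ++ T).length (capN W T).length
      have h6 : (T ++ T).length = 2 * T.length := by rw [List.length_append]; ring
      rw [h6] at h5 h3
      have h7 := leaf_err T.length (capN W T).length _ _ _ _ _ hcap1 h5 r2 hQ h3
      exact combine _ _ _ _ _ hl' h7
    · -- the slack of the first state is large
      have hbig : ¬ SG (maxM D B R) D ((dl M (vG B R)).length + c)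
          (List.range R.length, List.range B.length) ≤
          c + (limDN D W T (vG B R) : ℝ) / D := fun h =>
        hkeep ((hl4 _ c _ hD1).2 h)
      rw [not_le, hML] at hbig
      rw [hML] at hsl
      have hc1 := h_CBD R (maxM D B R) (max R.length B.length) (R.length + B.length) D (M + c)
        hFR hD hDN _ hgood hsl
      obtain ⟨hw1, hw2⟩ := h_WRT (maxM D B R) (max R.length B.length) D (M + c) hD1
      have hw3 := hw2 _ _ ν (le_max_left _ _) (le_max_right _ _) hE hsl
      rw [(hw1 _).2.1] at hc1
      rw [pow_add] at hc1
      have hEE : Real.exp (-(9 / 100 * SG (maxM D B R) D (M + c)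
          (List.range R.length, List.range B.length))) ≤
          Real.exp (-(9 / 100 * ((limDN D W T (vG B R) : ℝ) / D))) := by
        have hc0 : (0 : ℝ) ≤ c := Nat.cast_nonneg c
        refine Real.exp_le_exp.2 ?_
        linarith
      have hfin := bigN (T.length : ℝ) _ (2 ^ M) (2 ^ c) _ _ _ _ (by positivity)
        (by positivity) (by positivity) (Real.exp_pos _).le (Real.exp_pos _).le hEE hw3 hc1 hn3
      have hfin' : 2 * T.length * cs R (List.range R.length, List.range B.length) ≤ 2 ^ M := by
        exact_mod_cast hfin
      calc T.length * (cs R (List.range R.length, List.range B.length) - algND D M W T B R)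
          ≤ T.length * cs R (List.range R.length, List.range B.length) :=
            Nat.mul_le_mul_left _ (Nat.sub_le _ _)
        _ ≤ 2 * T.length * cs R (List.range R.length, List.range B.length) :=
            Nat.mul_le_mul_right _ (by omega)
        _ ≤ 2 ^ M := hfin'

end Pool.Agent.BisRk
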