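import Pool.Agent.BisRk.Targets3
import Pool.Agent.BisRt.P_NUM

/-!
# Proof of NUM of the project BRN (MP_29585b_lc)

Numerical estimates for the limits of the algorithm.
-/

set_option autoImplicit false

namespace Pool.Agent.BisRk

open Finset Pool.Agent.PT Pool.Agent.BisTh Pool.Agent.BisRg Pool.Agent.BisRt Pool.Agent.BisRf

namespace NNUM_

/-- `e ^ (6406 m) ≤ (2 ^ m) ^ 9609`. -/
theorem exp_le (m : ℕ) : Real.exp (6406 * (m : ℝ)) ≤ ((2 : ℝ) ^ m) ^ 9609 := by
  have h1 : Real.exp (6406 * (m : ℝ)) = (Real.exp 2) ^ (3203 * m) := by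
    rw [← Real.exp_nat_mul]
    congr 1
    push_cast
    ring
  have h2 : (8 : ℝ) ^ (3203 * m) = ((2 : ℝ) ^ m) ^ 9609 := by
    have h3 : (8 : ℝ) = 2 ^ 3 := by norm_num
    rw [h3, ← pow_mul, ← pow_mul]
    congr 1
    ring
  rw [h1, ← h2]
  exact pow_le_pow_left₀ (Real.exp_pos 2).le Pool.Agent.BisRt.NUM_.exp_two_le _

/-- The two estimates, with `y = ν / D`. -/
theorem main (c k w t : ℕ) (y : ℝ) (hyk : y + c ≤ k)
    (hk : 2 ^ k ≤ w) (ht : 1 ≤ t) :
    Real.exp (825 * y) *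
      Real.exp (3 / 5 * (c + 9300 * ((Nat.size w : ℝ) + Nat.size t + 1))) ≤
      (((2 * w + 2 * t + 3) ^ 19300 : ℕ) : ℝ) ∧
    2 * (t : ℝ) * (2 ^ c *
      Real.exp (-(9 / 100 * (9300 * ((Nat.size w : ℝ) + Nat.size t + 1)))) *
      Real.exp (825 * y)) ≤ 1 := by
  have hw : 1 ≤ w := le_trans Nat.one_le_two_pow hk
  have hks : k < Nat.size w := Nat.lt_size.mpr hk
  have hst : 0 < Nat.size t := Nat.size_pos.mpr ht
  have hks' : (k : ℝ) + 1 ≤ Nat.size w := by exact_mod_cast hks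
  have hst' : (1 : ℝ) ≤ Nat.size t := by exact_mod_cast hst
  have hc0 : (0 : ℝ) ≤ c := Nat.cast_nonneg c
  constructor
  · rw [← Real.exp_add]
    have h1 : Real.exp (825 * y +
        3 / 5 * (c + 9300 * ((Nat.size w : ℝ) + Nat.size t + 1))) ≤
        Real.exp (6406 * ((Nat.size w + Nat.size t + 1 : ℕ) : ℝ)) := by
      apply Real.exp_le_exp.mpr
      push_cast
      linarith
    have h2 := exp_le (Nat.size w + Nat.size t + 1)
    have h3 : ((2 : ℝ) ^ (Nat.size w + Nat.size t + 1)) ≤ ((2 * w + 2 * t + 3 : ℕ) : ℝ) ^ 2 := by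
      exact_mod_cast Pool.Agent.BisRt.NUM_.two_pow_le w t hw ht
    have h4 : ((2 : ℝ) ^ (Nat.size w + Nat.size t + 1)) ^ 9609 ≤
        (((2 * w + 2 * t + 3 : ℕ) : ℝ) ^ 2) ^ 9609 :=
      pow_le_pow_left₀ (by positivity) h3 _
    have h5 : (((2 * w + 2 * t + 3 : ℕ) : ℝ) ^ 2) ^ 9609 ≤
        ((2 * w + 2 * t + 3 : ℕ) : ℝ) ^ 19300 := by
      rw [← pow_mul]
      apply pow_le_pow_right₀
      · have : 1 ≤ 2 * w + 2 * t + 3 := by omega
        exact_mod_cast this
      · norm_num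
    have h6 : (((2 * w + 2 * t + 3) ^ 19300 : ℕ) : ℝ) =
        ((2 * w + 2 * t + 3 : ℕ) : ℝ) ^ 19300 :=
      Nat.cast_pow _ _
    rw [h6]
    exact h1.trans (h2.trans (h4.trans h5))
  · have h1 : 2 * (t : ℝ) ≤ Real.exp ((Nat.size t + 1 : ℕ) : ℝ) := by
      have h2 : t < 2 ^ (Nat.size t) := Nat.lt_size_self t
      have h3 : 2 * t ≤ 2 ^ (Nat.size t + 1) := by
        rw [pow_succ]
        omega
      have h4 : 2 * (t : ℝ) ≤ 2 ^ (Nat.size t + 1) := by exact_mod_cast h3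
      exact h4.trans (Pool.Agent.BisRt.NUM_.two_pow_le_exp _)
    have h2c := Pool.Agent.BisRt.NUM_.two_pow_le_exp c
    have hB : (2 : ℝ) ^ c *
        Real.exp (-(9 / 100 * (9300 * ((Nat.size w : ℝ) + Nat.size t + 1)))) *
        Real.exp (825 * y) ≤
        Real.exp (-((Nat.size t + 1 : ℕ) : ℝ)) := by
      calc (2 : ℝ) ^ c *
            Real.exp (-(9 / 100 * (9300 * ((Nat.size w : ℝ) + Nat.size t + 1)))) *
            Real.exp (825 * y)
          ≤ Real.exp (c : ℝ) *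
            Real.exp (-(9 / 100 * (9300 * ((Nat.size w : ℝ) + Nat.size t + 1)))) *
            Real.exp (825 * y) := by
            apply mul_le_mul_of_nonneg_right _ (by positivity)
            exact mul_le_mul_of_nonneg_right h2c (by positivity)
        _ ≤ Real.exp (-((Nat.size t + 1 : ℕ) : ℝ)) := by
            rw [← Real.exp_add, ← Real.exp_add]
            apply Real.exp_le_exp.mpr
            push_cast
            linarith
    calc 2 * (t : ℝ) * ((2 : ℝ) ^ c *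
          Real.exp (-(9 / 100 * (9300 * ((Nat.size w : ℝ) + Nat.size t + 1)))) *
          Real.exp (825 * y))
        ≤ Real.exp ((Nat.size t + 1 : ℕ) : ℝ) * Real.exp (-((Nat.size t + 1 : ℕ) : ℝ)) :=
          mul_le_mul h1 hB (by positivity) (Real.exp_pos _).le
      _ = 1 := by rw [← Real.exp_add, add_neg_cancel, Real.exp_zero]

end NNUM_

theorem n_NUM : N_NUM := by
  intro ν D c k w t hD hn hk ht
  have hD0 : (0 : ℝ) < D := by exact_mod_cast hD
  have hKd : (((D * (9300 * (Nat.size w + Nat.size t + 1)) : ℕ) : ℝ) / D) =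
      9300 * ((Nat.size w : ℝ) + Nat.size t + 1) := by
    push_cast
    field_simp
  have hyk : (ν : ℝ) / D + c ≤ k := by
    have h1 : (ν : ℝ) + (D : ℝ) * c ≤ (D : ℝ) * k := by exact_mod_cast hn
    have h2 : (ν : ℝ) / D ≤ (k : ℝ) - c := by
      rw [div_le_iff₀ hD0]
      linarith
    linarith
  rw [hKd]
  exact Pool.Agent.BisRk.NNUM_.main c k w t _ hyk hk ht

end Pool.Agent.BisRk
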