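import Pool.Agent.BisRk.Targets3

set_option autoImplicit false

/-!
# BisRk, target N_RND: all rounds of the branching (matching number)
-/

namespace Pool.Agent.BisRk

open Finset Pool.Agent.PT Pool.Agent.BisTh Pool.Agent.BisRg Pool.Agent.BisRt Pool.Agent.BisRf

namespace NRND_

theorem sum_flat (w : SI → ℝ) (f : SI → List SI) (L : List SI) :
    ((L.flatMap f).map w).sum = (L.map fun s => ((f s).map w).sum).sum := by
  induction L with
  | nil => rfl
  | cons a L ih =>
    rw [List.flatMap_cons, List.map_append, List.sum_append, ih, List.map_cons, List.sum_cons]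

theorem sum_mul (c : ℝ) (w : SI → ℝ) (L : List SI) :
    (L.map fun s => c * w s).sum = c * (L.map w).sum := by
  induction L with
  | nil => simp
  | cons a L ih => rw [List.map_cons, List.sum_cons, List.map_cons, List.sum_cons, ih]; ring

theorem sum_add (u w : SI → ℝ) (L : List SI) :
    (L.map fun s => u s + w s).sum = (L.map u).sum + (L.map w).sum := by
  induction L with
  | nil => simp
  | cons a L ih =>
    rw [List.map_cons, List.sum_cons, List.map_cons, List.sum_cons, List.map_cons,
      List.sum_cons, ih]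
    ring

theorem len_mul_le (w : SI → ℝ) (c : ℝ) (L : List SI) (h : ∀ s ∈ L, c ≤ w s) :
    (L.length : ℝ) * c ≤ (L.map w).sum := by
  induction L with
  | nil => simp
  | cons a L ih =>
    rw [List.map_cons, List.sum_cons, List.length_cons]
    have h1 := h a List.mem_cons_self
    have h2 := ih fun s hs => h s (List.mem_cons_of_mem _ hs)
    push_cast
    linarith

theorem Mg_nonneg (m D K : ℕ) : 0 ≤ Mg m D K := by
  unfold Mg
  positivity

theorem low_step (h_BST : K_BST) {R : List (List Bool)} {F : List (ℕ × ℕ)} {n N D K : ℕ}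
    {Ml : List ℕ} {s : SI} (hF : ∀ i j, aF F i j = true → aj R i j = true) (hs : GoodS n s)
    (hDN : D ≤ N) (hl : Low R D s) :
    stepK D K (List.range N) Ml R F s = [s] := by
  have hc : candsK D (List.range N) R F s = [] := by
    by_contra h
    obtain ⟨h1, h2⟩ := (h_BST R F n N D s hF hs hDN).2 h
    rcases hb : (best (candsK D (List.range N) R F s)).1 with _ | _
    · have := (h1 hb).1
      rw [hl.1] at this
      exact absurd this (Finset.notMem_empty _)
    · have := (h2 hb).1
      rw [hl.2] at this
      exact absurd this (Finset.notMem_empty _)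
  unfold stepK
  rw [hc]
  rfl

theorem low_nil (R : List (List Bool)) (d : ℕ) (s : SI) (h : s.1.length + s.2.length = 0) :
    Low R d s := by
  have h1 : s.1 = [] := List.length_eq_zero_iff.mp (by omega)
  have h2 : s.2 = [] := List.length_eq_zero_iff.mp (by omega)
  constructor
  · rw [h1]
    rfl
  · rw [h2]
    rfl

theorem kids_len (R : List (List Bool)) (c : Bool × ℕ × ℕ) (s s' : SI) (h : s' ∈ kids R c s) :
    s'.1.length + s'.2.length ≤ s.1.length + s.2.length := by
  unfold kids at h
  rcases c with ⟨b, u, m⟩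
  cases b with
  | false =>
    simp only [cond_false, List.mem_cons, List.not_mem_nil, or_false] at h
    rcases h with rfl | rfl
    · have h1 := List.length_filter_le (fun i => !(decide (i = u))) s.1
      simp only
      omega
    · have h1 := List.length_filter_le (fun i => !(decide (i = u))) s.1
      have h2 := List.length_filter_le (fun j => !(aj R u j)) s.2
      simp only
      omega
  | true =>
    simp only [cond_true, List.mem_cons, List.not_mem_nil, or_false] at h
    rcases h with rfl | rfl
    · have h1 := List.length_filter_le (fun i => !(decide (i = u))) s.2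
      simp only
      omega
    · have h1 := List.length_filter_le (fun i => !(decide (i = u))) s.2
      have h2 := List.length_filter_le (fun i => !(aj R i u)) s.1
      simp only
      omega

theorem step_len (D K : ℕ) (V Ml : List ℕ) (R : List (List Bool)) (F : List (ℕ × ℕ))
    (s s' : SI) (h : s' ∈ stepK D K V Ml R F s) :
    s'.1.length + s'.2.length ≤ s.1.length + s.2.length := by
  unfold stepK at h
  cases hc : (candsK D V R F s).isEmpty with
  | true =>
    rw [hc, cond_true, List.mem_singleton] at h
    rw [h]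
  | false =>
    rw [hc, cond_false] at h
    exact kids_len R _ s s' (List.mem_filter.1 h).1

/-- the invariant after `j` rounds -/
structure Inv (R : List (List Bool)) (F : List (ℕ × ℕ)) (n N D c K : ℕ) (Ml : List ℕ)
    (r : SI) (j : ℕ) (L : List SI) : Prop where
  good : ∀ s ∈ L, GoodS n s ∧ keep D K (List.range N) Ml F s = true ∧
    s.1.length + s.2.length ≤ N ∧ 0 ≤ SG F D (Ml.length + c) s ∧
    (Low R D s ∨ s.1.length + s.2.length + j ≤ N)
  wt : (L.map (WS F n D (Ml.length + c) (3 / 5))).sum ≤ WS F n D (Ml.length + c) (3 / 5) r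
  cnt : (cs R r : ℝ) ≤ (L.map fun s => (cs R s : ℝ)).sum +
    Mg (Ml.length + c) D K * (WS F n D (Ml.length + c) (3 / 5) r -
      (L.map (WS F n D (Ml.length + c) (3 / 5))).sum)

theorem inv_step (h_STS : K_STS) (h_STW : N_STW) (h_BST : K_BST) {R : List (List Bool)}
    {F : List (ℕ × ℕ)} {n N D c K : ℕ} {Ml : List ℕ} {r : SI} {j : ℕ}
    (hR : FSub (aj R) (aF F) n D) (hg : 350 ≤ D) (hDN : D ≤ N)
    {L : List SI} (h : Inv R F n N D c K Ml r j L) :
    Inv R F n N D c K Ml r (j + 1)
      (L.flatMap (stepK D K (List.range N) Ml R F)) := by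
  have key1 : ((L.flatMap (stepK D K (List.range N) Ml R F)).map
      (WS F n D (Ml.length + c) (3 / 5))).sum ≤
      (L.map (WS F n D (Ml.length + c) (3 / 5))).sum := by
    rw [sum_flat]
    refine List.sum_le_sum fun s hs => ?_
    obtain ⟨g1, -, g3, g4, -⟩ := h.good s hs
    exact (h_STW R F n N D c K Ml hR hg hDN s g1 g4).2.1
  have key2 : (L.map fun s => (cs R s : ℝ)).sum +
      Mg (Ml.length + c) D K * ((L.flatMap (stepK D K (List.range N) Ml R F)).map
        (WS F n D (Ml.length + c) (3 / 5))).sum ≤
      ((L.flatMap (stepK D K (List.range N) Ml R F)).map fun s => (cs R s : ℝ)).sum +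
      Mg (Ml.length + c) D K * (L.map (WS F n D (Ml.length + c) (3 / 5))).sum := by
    rw [sum_flat, sum_flat, ← sum_mul, ← sum_add, ← sum_mul, ← sum_add]
    refine List.sum_le_sum fun s hs => ?_
    obtain ⟨g1, -, g3, g4, -⟩ := h.good s hs
    exact (h_STW R F n N D c K Ml hR hg hDN s g1 g4).2.2
  refine ⟨?_, ?_, ?_⟩
  · intro s' hs'
    obtain ⟨s, hs, hss⟩ := List.mem_flatMap.mp hs'
    obtain ⟨g1, g2, g3, g4, g5⟩ := h.good s hs
    obtain ⟨e1, e2, e3⟩ := (h_STS R F n N D K Ml s hR.1 g1 hDN).1 s' hss
    refine ⟨e1, e2 g2, ?_, ?_, ?_⟩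
    · exact (step_len D K (List.range N) Ml R F s s' hss).trans g3
    · exact (h_STW R F n N D c K Ml hR hg hDN s g1 g4).1 s' hss
    · rcases g5 with hl | hl
      · rw [low_step h_BST hR.1 g1 hDN hl, List.mem_singleton] at hss
        rw [hss]
        exact Or.inl hl
      · rcases e3 with e3 | e3
        · exact Or.inl e3
        · exact Or.inr (by omega)
  · exact key1.trans h.wt
  · have h1 := h.cnt
    rw [mul_sub] at h1 ⊢
    linarith

theorem inv_len (h_WRT : N_WRT) (v_LNK : V_LNK) {R : List (List Bool)}
    {F : List (ℕ × ℕ)} {n a b D c K ν : ℕ} {Ml : List ℕ} {j : ℕ}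
    (hg : 350 ≤ D) (hDN : D ≤ a + b) (ha : a ≤ n) (hb : b ≤ n)
    (hν : eN (aF F) n ≤ D * ν) (P : Un)
    (h0 : 0 ≤ SG F D (Ml.length + c) (List.range a, List.range b))
    (hP : Real.exp (825 * ((ν : ℝ) / D)) * Real.exp (3 / 5 * (c + (K : ℝ) / D)) ≤ P.length)
    {L : List SI}
    (h : Inv R F n (a + b) D c K Ml (List.range a, List.range b) j L) :
    L.length ≤ P.length := by
  have hD : 1 ≤ D := by omega
  have hW := h_WRT F n D (Ml.length + c) hD
  have h1 : (L.length : ℝ) * Real.exp (-(3 / 5 * (c + (K : ℝ) / D))) ≤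
      (L.map (WS F n D (Ml.length + c) (3 / 5))).sum := by
    refine len_mul_le _ _ _ fun s hs => ?_
    obtain ⟨g1, g2, -⟩ := h.good s hs
    refine le_trans ?_ ((hW.1 s).2.2 (3 / 5))
    have e1 := ((v_LNK R F n (a + b) D s g1 hDN).2.2.2 K c Ml hD).1 g2
    exact Real.exp_le_exp.mpr (by linarith)
  have h2 : (L.map (WS F n D (Ml.length + c) (3 / 5))).sum ≤
      Real.exp (825 * ((ν : ℝ) / D)) := h.wt.trans (hW.2 a b ν ha hb hν h0)
  have h3 : (L.length : ℝ) ≤ P.length := by
    have e1 : (L.length : ℝ) = ((L.length : ℝ) * Real.exp (-(3 / 5 * (c + (K : ℝ) / D)))) *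
        Real.exp (3 / 5 * (c + (K : ℝ) / D)) := by
      rw [mul_assoc, ← Real.exp_add, neg_add_cancel, Real.exp_zero, mul_one]
    rw [e1]
    exact (mul_le_mul_of_nonneg_right (h1.trans h2) (Real.exp_pos _).le).trans hP
  exact_mod_cast h3

theorem inv_root (R : List (List Bool)) (F : List (ℕ × ℕ)) (n a b D c K : ℕ)
    (Ml : List ℕ) (ha : a ≤ n) (hb : b ≤ n)
    (h0 : 0 ≤ SG F D (Ml.length + c) (List.range a, List.range b))
    (hk : keep D K (List.range (a + b)) Ml F (List.range a, List.range b) = true) :
    Inv R F n (a + b) D c K Ml (List.range a, List.range b) 0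
      [(List.range a, List.range b)] := by
  have hgood : GoodS n (List.range a, List.range b) :=
    ⟨List.nodup_range, List.nodup_range, fun i hi => (List.mem_range.mp hi).trans_le ha,
      fun i hi => (List.mem_range.mp hi).trans_le hb⟩
  have hlen : (List.range a).length + (List.range b).length = a + b := by
    rw [List.length_range, List.length_range]
  refine ⟨?_, ?_, ?_⟩
  · intro s hs
    rw [List.mem_singleton] at hs
    subst hs
    refine ⟨hgood, hk, ?_, h0, Or.inr ?_⟩
    · exact hlen.le
    · show (List.range a).length + (List.range b).length + 0 ≤ a + b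
      omega
  · simp
  · simp

theorem inv_fold (h_STS : K_STS) (h_STW : N_STW) (h_BST : K_BST) (h_WRT : N_WRT)
    (v_LNK : V_LNK) {R : List (List Bool)} {F : List (ℕ × ℕ)} {n a b D c K ν : ℕ}
    {Ml : List ℕ} (hR : FSub (aj R) (aF F) n D) (hg : 350 ≤ D)
    (hDN : D ≤ a + b) (ha : a ≤ n) (hb : b ≤ n) (hν : eN (aF F) n ≤ D * ν) (P : Un)
    (h0 : 0 ≤ SG F D (Ml.length + c) (List.range a, List.range b))
    (hP : Real.exp (825 * ((ν : ℝ) / D)) * Real.exp (3 / 5 * (c + (K : ℝ) / D)) ≤ P.length)
    (V : List ℕ) :
    ∀ (j : ℕ) (L : List SI), j + V.length ≤ a + b →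
      Inv R F n (a + b) D c K Ml (List.range a, List.range b) j L →
      Inv R F n (a + b) D c K Ml (List.range a, List.range b) (j + V.length)
        (V.foldl (fun L _ => cond (decide (L.length ≤ P.length))
          (L.flatMap (stepK D K (List.range (a + b)) Ml R F)) []) L) := by
  induction V with
  | nil =>
    intro j L _ h
    exact h
  | cons v V ih =>
    intro j L hj h
    rw [List.foldl_cons, List.length_cons]
    rw [List.length_cons] at hj
    have hlen := inv_len h_WRT v_LNK hg hDN ha hb hν P h0 hP h
    rw [decide_eq_true hlen, cond_true]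
    have h1 := ih (j + 1) _ (by omega) (inv_step h_STS h_STW h_BST hR hg hDN h)
    have e : j + 1 + V.length = j + (V.length + 1) := by omega
    rw [e] at h1
    exact h1

end NRND_

open Pool.Agent.BisRk.NRND_ in
theorem n_RND (h_STS : K_STS) (h_STW : N_STW) (v_LNK : V_LNK) (h_BST : K_BST)
    (h_WRT : N_WRT) : N_RND := by
  intro R F n a b D c K ν P Ml hR hg hDN ha hb hν h0 hk hP
  have hD : 1 ≤ D := by omega
  have hW := h_WRT F n D (Ml.length + c) hD
  have hI : Inv R F n (a + b) D c K Ml (List.range a, List.range b) (a + b)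
      (roundsK D K P (List.range (a + b)) Ml R F [(List.range a, List.range b)]) := by
    have h1 := inv_fold h_STS h_STW h_BST h_WRT v_LNK hR hg hDN ha hb hν P h0 hP
      (List.range (a + b)) 0 [(List.range a, List.range b)]
      (by rw [List.length_range]; omega) (inv_root R F n a b D c K Ml ha hb h0 hk)
    rw [List.length_range, zero_add] at h1
    exact h1
  have hl := inv_len h_WRT v_LNK hg hDN ha hb hν P h0 hP hI
  refine ⟨?_, hl, ?_⟩
  · intro s hs
    obtain ⟨g1, -, -, g4, g5⟩ := hI.good s hs
    refine ⟨g1, ?_, g4⟩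
    rcases g5 with g5 | g5
    · exact g5
    · exact low_nil R D s (by omega)
  · refine hI.cnt.trans ?_
    have hM := Mg_nonneg (Ml.length + c) D K
    have h1 : 0 ≤ ((roundsK D K P (List.range (a + b)) Ml R F
        [(List.range a, List.range b)]).map (WS F n D (Ml.length + c) (3 / 5))).sum := by
      refine List.sum_nonneg fun x hx => ?_
      obtain ⟨s, -, rfl⟩ := List.mem_map.mp hx
      exact (hW.1 s).1.le
    have h2 : WS F n D (Ml.length + c) (3 / 5) (List.range a, List.range b) ≤
        Real.exp (825 * ((ν : ℝ) / D)) := hW.2 a b ν ha hb hν h0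
    have h3 := mul_le_mul_of_nonneg_left (show
        WS F n D (Ml.length + c) (3 / 5) (List.range a, List.range b) -
        ((roundsK D K P (List.range (a + b)) Ml R F
          [(List.range a, List.range b)]).map (WS F n D (Ml.length + c) (3 / 5))).sum ≤
        Real.exp (825 * ((ν : ℝ) / D)) by linarith) hM
    linarith

end Pool.Agent.BisRk
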