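import Pool.Agent.BisRk.Targets3

/-!
# S19: polynomial time for each q, matching number

MP_29585b_lc.
-/

set_option autoImplicit false

namespace Pool.Agent.BisRk

open Finset Pool.Agent.PT Pool.Agent.BisTh Pool.Agent.BisRg Pool.Agent.BisRt Pool.Agent.BisRf

namespace NS19_

/-- The width. -/
def wid (k : ℕ) (B : Un) (X : List (List Bool)) : Un := pw k (B ++ un X ++ [true])

/-- The value on a graph. -/
def valG (q : ℕ) (x : Bip × ℕ) : ℕ :=
  algS (wid q (List.replicate x.1.b true) (rowsOf x.1)) (List.replicate x.2 true)
    (List.replicate x.1.b true) (rowsOf x.1)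

theorem tm (h_PTX : N_PTX) (q : ℕ) :
    Nonempty (Turing.TM2ComputableInPolyTime encInput encNat (valG q)) := by
  have hC : Fact Core := ⟨core⟩
  have h3 : PolyF (fun x : In => wid q x.2.1 x.2.2) := by
    unfold wid
    exact pw_pt q (by fun_prop)
  have h1 : PolyF (fun x : In => ((wid q x.2.1 x.2.2, x.1, x.2.1, x.2.2) : In₂)) := by
    fun_prop
  have h2 : PolyF (fun w : List Letter => encNat (algS
      (wid q (parse w).2.1 (parse w).2.2) (parse w).1 (parse w).2.1 (parse w).2.2)) :=
    (((h_PTX hC).comp h1).comp (parse_pt (hC := hC))).bits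
  refine tm_of_polyF h2 encInput encNat _ fun x => ?_
  rw [parse_encInput]
  rfl

theorem wid_length (k : ℕ) (B : Un) (X : List (List Bool)) :
    (wid k B X).length = (B.length + X.length + 1) ^ k := by
  unfold wid
  rw [pw_length, List.length_append, List.length_append, un_length]
  rfl

theorem length_rowsOf (G : Bip) : (rowsOf G).length = G.a := by
  simp [rowsOf]

theorem length_rows (G : Bip) : ∀ u ∈ rowsOf G, u.length = G.b := by
  intro u hu
  simp only [rowsOf, List.mem_map] at hu
  obtain ⟨i, -, rfl⟩ := hu
  simp [rowOf]

/-- The width is large enough. -/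
theorem le_wid (G : Bip) (q : ℕ) : 2 ^ (q * Nat.log 2 (G.a + G.b)) ≤
    (wid q (List.replicate G.b true) (rowsOf G)).length := by
  rw [wid_length, List.length_replicate, length_rowsOf]
  have h3 : 2 ^ Nat.log 2 (G.a + G.b) ≤ G.b + G.a + 1 := by
    rcases Nat.eq_zero_or_pos (G.a + G.b) with ha | ha
    · rw [ha]
      simp
    · have := Nat.pow_log_le_self 2 (x := G.a + G.b) (by omega)
      omega
  rw [mul_comm, pow_mul]
  exact Nat.pow_le_pow_left h3 _

end NS19_

open NS19_ in
/-- Polynomial time for graphs with a spread fractional matching, parameter the matching number. -/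
theorem n_S19 (h_PTX : N_PTX) (h_ALT : N_ALT) (h_DUL : L_DUL) (h_MTL : N_MTL) : N_S19 := by
  intro q
  refine ⟨valG q, tm h_PTX q, fun G t => ⟨?_, fun D M c ν hD hν hM hS hk => ?_⟩⟩
  · have h := h_ALT.1 (wid q (List.replicate G.b true) (rowsOf G)) (List.replicate t true)
      (List.replicate G.b true) (rowsOf G)
      (fun u hu => (length_rows G u hu).trans List.length_replicate.symm)
    rw [List.length_replicate, ← count_eq] at h
    exact h
  · have hla := length_rowsOf G
    have hlb : (List.replicate G.b true).length = G.b := List.length_replicate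
    obtain ⟨hmax, hS'⟩ := h_DUL G D (M + c) hS
    have h := h_ALT.2 D M c (M + c - max G.a G.b) ν (q * Nat.log 2 (G.a + G.b))
      (wid q (List.replicate G.b true) (rowsOf G)) (List.replicate t true)
      (List.replicate G.b true) (rowsOf G)
      (fun u hu => (length_rows G u hu).trans hlb.symm) hD (p_DUL G D _ hS')
      (by
        rw [hla, hlb]
        omega)
      (fun D' => h_MTL G ν D' hν)
      (by
        rw [hlb, ← count_eq]
        exact hM)
      hk
      (le_wid G q)
    rw [List.length_replicate, List.length_replicate, ← count_eq] at h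
    exact h

end Pool.Agent.BisRk
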