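import Pool.Agent.BisRk.Targets3
import Pool.Agent.BisRt.P_FFF

/-!
# STP: the step inequality (matching number instead of the number of vertices)
-/

set_option autoImplicit false

namespace Pool.Agent.BisRk

open Finset Pool.Agent.PT Pool.Agent.BisTh Pool.Agent.BisRg Pool.Agent.BisRt Pool.Agent.BisRf

namespace NSTP_

/-- the weight of a state whose potential is smaller by `a` -/
theorem wt_le {fd : ℕ → ℕ → Bool} {n D m : ℕ} {θ : ℝ} {X Y X' Y' : Finset ℕ} {a : ℝ}
    (h : PH fd n D m θ X' Y' + a ≤ PH fd n D m θ X Y) :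
    WH fd n D m θ X' Y' ≤ Real.exp (-a) * WH fd n D m θ X Y := by
  unfold WH
  rw [← Real.exp_add]
  exact Real.exp_le_exp.2 (by linarith)

/-- the degree in `fd` is at most `D` -/
theorem nb_card_le {adj fd : ℕ → ℕ → Bool} {n D : ℕ} (hR : FSub adj fd n D)
    {Y : Finset ℕ} (hY : Y ⊆ range n) {u : ℕ} (hu : u < n) : (nb fd Y u).card ≤ D := by
  refine le_trans (card_le_card ?_) (hR.2.1 u hu)
  exact filter_subset_filter _ hY

end NSTP_

open NSTP_ in
theorem n_STP (h_REG : K_REG) (h_INN : K_INN) (h_DPO : N_DPO) (h_DPI : N_DPI) (v_OVL : V_OVL)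
    (v_GAI : V_GAI) (v_FFF : V_FFF) : N_STP := by
  intro adj fd n D m hR hD θ hθ X Y hX hY u hbest
  obtain ⟨hu, hor⟩ := hbest
  have hD1 : 1 ≤ D := by omega
  have hD0 : (0 : ℝ) < D := by exact_mod_cast hD1
  have hD350 : (350 : ℝ) ≤ D := by exact_mod_cast hD
  have huX : u ∈ X := (mem_filter.1 hu).1
  have hun : u < n := mem_range.1 (hX huX)
  have hRf := (h_REG adj fd n D hR hD1).1
  have hin := h_DPI adj fd n D m hR hD θ hθ X Y hX hY u hu
  have hout := h_DPO adj fd n D m hR hD1 θ hθ X Y hX hY u huX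
  have hcc := (h_INN adj fd n D hR X Y hX hY u huX).2.2.2
  obtain ⟨-, f2, -, -, -, -⟩ := v_FFF 1 le_rfl
  have f5 := Pool.Agent.BisRt.p_FFF.2.2.2.2.1
  have f6 := Pool.Agent.BisRt.p_FFF.2.2.2.2.2
  have hW : 0 < WH fd n D m θ X Y := Real.exp_pos _
  have hcard : ((nb fd Y u).card : ℝ) ≤ D := by exact_mod_cast nb_card_le hR hY hun
  have hr0 : 0 ≤ 1 - ((nb fd Y u).card : ℝ) / D := by
    have : ((nb fd Y u).card : ℝ) / D ≤ 1 := (div_le_one hD0).2 hcard
    linarith
  have hS : 0 ≤ (∑ i ∈ (hi fd D X Y).erase u, (Fk 1 ((cF fd fd D X Y i : ℝ) / D) -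
      Fk 1 ((cF fd fd D X Y i : ℝ) / D + ((nb fd Y i ∩ nb fd Y u).card : ℝ) / D))) / D := by
    refine div_nonneg (sum_nonneg fun i _ => ?_) hD0.le
    have h8 := f2 ((cF fd fd D X Y i : ℝ) / D)
      ((cF fd fd D X Y i : ℝ) / D + ((nb fd Y i ∩ nb fd Y u).card : ℝ) / D)
      (le_add_of_nonneg_right (by positivity))
    linarith
  have hcc' : (cF fd fd D X Y u : ℝ) / D ≤ (cF adj fd D X Y u : ℝ) / D := by
    refine div_le_div_of_nonneg_right ?_ hD0.le
    exact_mod_cast hcc
  have hin' : PH fd n D m θ (X.erase u) (Y \ nb adj Y u) +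
      (7 + (cF fd fd D X Y u : ℝ) / D / 10) ≤ PH fd n D m θ X Y := by
    linarith
  have win := wt_le hin'
  have e7 : Real.exp (-(7 + (cF fd fd D X Y u : ℝ) / D / 10)) =
      Real.exp (-7) * Real.exp (-((cF fd fd D X Y u : ℝ) / D / 10)) := by
    rw [← Real.exp_add]
    congr 1
    ring
  rw [e7] at win
  have hE7 : 0 < Real.exp (-7) := Real.exp_pos _
  have hc0 : (0 : ℝ) ≤ (cF fd fd D X Y u : ℝ) / D / 10 := by positivity
  have he1 : Real.exp (-((cF fd fd D X Y u : ℝ) / D / 10)) ≤ 1 :=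
    Real.exp_le_one_iff.2 (by linarith)
  have he0 := Real.exp_pos (-((cF fd fd D X Y u : ℝ) / D / 10))
  rcases le_or_gt (2 * (nb fd Y u).card) D with h2 | h2
  · -- few edges of the matching
    have h2' : 2 * ((nb fd Y u).card : ℝ) ≤ D := by exact_mod_cast h2
    have hr1 : 1 / 2 ≤ 1 - ((nb fd Y u).card : ℝ) / D := by
      have : ((nb fd Y u).card : ℝ) / D ≤ 1 / 2 := by
        rw [div_le_iff₀ hD0]
        linarith
      linarith
    have h35 : 35 / (D : ℝ) ≤ 1 / 10 := by
      rw [div_le_iff₀ hD0]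
      linarith
    have hif : (0 : ℝ) ≤ if D < 5 * (nb fd Y u).card then 80 / (D : ℝ) else 0 := by
      split_ifs
      · positivity
      · exact le_rfl
    have hout' : PH fd n D m θ (X.erase u) Y + 3 / 40 ≤ PH fd n D m θ X Y := by
      linarith
    have wout := wt_le hout'
    have h1 : Real.exp (-(3 / 40 : ℝ)) ≤ 1 - 3 / 40 / 2 := f5 (3 / 40) (by norm_num)
      (by norm_num)
    have h3 : WH fd n D m θ (X.erase u) Y ≤ (1 - 3 / 40 / 2) * WH fd n D m θ X Y :=
      wout.trans (mul_le_mul_of_nonneg_right h1 hW.le)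
    have h6 : Real.exp (-7) *
        Real.exp (-((cF fd fd D X Y u : ℝ) / D / 10)) ≤ 1 / 800 * 1 :=
      mul_le_mul f6 he1 he0.le (by norm_num)
    have h4 : WH fd n D m θ (X.erase u) (Y \ nb adj Y u) ≤
        1 / 800 * 1 * WH fd n D m θ X Y :=
      win.trans (mul_le_mul_of_nonneg_right h6 hW.le)
    linarith
  · -- many edges of the matching
    have huf : u ∈ hi fd D X Y := by
      unfold hi
      rw [mem_filter]
      exact ⟨huX, by omega⟩
    obtain ⟨hmax, hmax'⟩ := hor.resolve_left (by omega)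
    have h5 : D < 5 * (nb fd Y u).card := by omega
    rw [if_pos h5] at hout
    have h45 : 80 / (D : ℝ) = 35 / D + 45 / D := by ring
    have h45' : 0 ≤ 45 / (D : ℝ) := by positivity
    obtain ⟨g, hg1, hg2⟩ : ∃ g : ℕ, 125 * g + 10 ≤ D ∧ D ≤ 125 * g + 134 :=
      ⟨(D - 10) / 125, by omega, by omega⟩
    rcases le_or_gt (cF fd fd D X Y u) (10 * g * D) with hle | hgt
    · -- small inner cost
      have hov := v_OVL fd fd n D 1 g hRf hg1 X Y hX hY u huf hle hmax' h2
      have hgai := v_GAI fd fd n D 1 hRf hD1 le_rfl X Y hX hY u huf hmax hov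
      rw [Nat.cast_one, mul_one] at hgai
      have hout' : PH fd n D m θ (X.erase u) Y +
          (∑ i ∈ (hi fd D X Y).erase u, (Fk 1 ((cF fd fd D X Y i : ℝ) / D) -
            Fk 1 ((cF fd fd D X Y i : ℝ) / D +
              ((nb fd Y i ∩ nb fd Y u).card : ℝ) / D))) / D ≤
          PH fd n D m θ X Y := by
        linarith
      have wout := wt_le hout'
      generalize Real.exp (-((cF fd fd D X Y u : ℝ) / D / 10)) = e at win hgai he1 he0
      generalize (∑ i ∈ (hi fd D X Y).erase u, (Fk 1 ((cF fd fd D X Y i : ℝ) / D) -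
          Fk 1 ((cF fd fd D X Y i : ℝ) / D + ((nb fd Y i ∩ nb fd Y u).card : ℝ) / D))) / D =
          S at wout hgai
      have hq0 : 0 ≤ 1 / (200 : ℝ) * e := by positivity
      have hq1 : 1 / (200 : ℝ) * e ≤ 1 := by linarith
      have h1 : Real.exp (-S) ≤ 1 - 1 / (200 : ℝ) * e / 2 :=
        le_trans (Real.exp_le_exp.2 (by linarith)) (f5 (1 / (200 : ℝ) * e) hq0 hq1)
      have h2 : Real.exp (-7) * e ≤ 1 / 800 * e := mul_le_mul_of_nonneg_right f6 he0.le
      have h3 : WH fd n D m θ (X.erase u) Y ≤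
          (1 - 1 / (200 : ℝ) * e / 2) * WH fd n D m θ X Y :=
        wout.trans (mul_le_mul_of_nonneg_right h1 hW.le)
      have h4 : WH fd n D m θ (X.erase u) (Y \ nb adj Y u) ≤
          1 / 800 * e * WH fd n D m θ X Y :=
        win.trans (mul_le_mul_of_nonneg_right h2 hW.le)
      have h6 : (1 - 1 / (200 : ℝ) * e / 2) * WH fd n D m θ X Y +
          1 / 800 * e * WH fd n D m θ X Y ≤ 1 * WH fd n D m θ X Y := by
        have h7 : 0 ≤ e * WH fd n D m θ X Y := mul_nonneg he0.le hW.le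
        linarith
      linarith
    · -- large inner cost
      have hc : (g : ℝ) ≤ (cF fd fd D X Y u : ℝ) / D / 10 := by
        have h1 : ((10 * g * D : ℕ) : ℝ) ≤ cF fd fd D X Y u := by exact_mod_cast hgt.le
        push_cast at h1
        rw [le_div_iff₀ (by norm_num : (0 : ℝ) < 10), le_div_iff₀ hD0]
        linarith
      have he : Real.exp (-((cF fd fd D X Y u : ℝ) / D / 10)) ≤ Real.exp (-(g : ℝ)) :=
        Real.exp_le_exp.2 (by linarith)
      have hg2' : (D : ℝ) ≤ 125 * g + 134 := by exact_mod_cast hg2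
      have hg0 : (0 : ℝ) ≤ g := Nat.cast_nonneg g
      have heg : Real.exp (-(g : ℝ)) ≤ 134 / D := by
        rw [Real.exp_neg, inv_le_comm₀ (Real.exp_pos _) (by positivity), inv_div]
        have h1 := Real.add_one_le_exp (g : ℝ)
        refine le_trans ?_ h1
        rw [div_le_iff₀ (by norm_num)]
        linarith
      have h7 : Real.exp (-7) * Real.exp (-((cF fd fd D X Y u : ℝ) / D / 10)) ≤
          1 / 800 * (134 / D) :=
        mul_le_mul f6 (he.trans heg) he0.le (by norm_num)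
      have h4 : WH fd n D m θ (X.erase u) (Y \ nb adj Y u) ≤
          1 / 800 * (134 / D) * WH fd n D m θ X Y :=
        win.trans (mul_le_mul_of_nonneg_right h7 hW.le)
      have hout' : PH fd n D m θ (X.erase u) Y + 45 / D ≤ PH fd n D m θ X Y := by
        linarith
      have wout := wt_le hout'
      have h45'' : 45 / (D : ℝ) ≤ 1 := by
        rw [div_le_iff₀ hD0]
        linarith
      have h1 : Real.exp (-(45 / (D : ℝ))) ≤ 1 - 45 / D / 2 := f5 (45 / D) h45' h45''
      have h3 : WH fd n D m θ (X.erase u) Y ≤ (1 - 45 / D / 2) * WH fd n D m θ X Y :=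
        wout.trans (mul_le_mul_of_nonneg_right h1 hW.le)
      have h8 : 0 ≤ 1 / (D : ℝ) * WH fd n D m θ X Y := by positivity
      have h6 : (1 - 45 / (D : ℝ) / 2) * WH fd n D m θ X Y +
          1 / 800 * (134 / D) * WH fd n D m θ X Y =
          WH fd n D m θ X Y - (45 / 2 - 134 / 800) * (1 / (D : ℝ) * WH fd n D m θ X Y) := by
        ring
      linarith

end Pool.Agent.BisRk
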