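import Pool.Agent.BisRk.Targets3

/-!
# The weights of the children, with the matching number
-/

set_option autoImplicit false

namespace Pool.Agent.BisRk

open Finset Pool.Agent.PT Pool.Agent.BisTh Pool.Agent.BisRg Pool.Agent.BisRt Pool.Agent.BisRf

theorem n_WKD (h_STP : N_STP) (h_SYM : N_SYM) (h_REG : K_REG) (k_WKD : K_WKD) : N_WKD := by
  intro R F n D m hF hg θ hθ s c hs hc
  refine ⟨?_, (k_WKD R F n D m 0 hF (by omega) θ hθ s c hs hc).2⟩
  obtain ⟨b, u, k⟩ := c
  obtain ⟨hc1, hc2⟩ := hc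
  have hD : 1 ≤ D := by omega
  obtain ⟨-, hR, hF'⟩ := h_REG (aj R) (aF F) n D hF hD
  have hX : s.1.toFinset ⊆ range n := fun i hi => by
    rw [List.mem_toFinset] at hi
    exact mem_range.2 (hs.2.2.1 i hi)
  have hY : s.2.toFinset ⊆ range n := fun i hi => by
    rw [List.mem_toFinset] at hi
    exact mem_range.2 (hs.2.2.2 i hi)
  obtain ⟨hK1, hK2⟩ := p_KID R n s hs
  cases b with
  | false =>
    have hB := hc1 rfl
    simp only at hB
    have huX : u ∈ s.1.toFinset := (mem_filter.1 hB.1).1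
    have hu' : u ∈ s.1 := by rwa [List.mem_toFinset] at huX
    obtain ⟨s₁, s₂, h1, -, -, h2, h3, h4, h5, -, -⟩ := hK1 u k hu'
    have key := h_STP (aj R) (aF F) n D m hF hg θ hθ s.1.toFinset s.2.toFinset hX hY u hB
    rw [h1]
    simp only [List.map_cons, List.map_nil, List.sum_cons, List.sum_nil, add_zero]
    unfold WS
    rw [h2, h3, h4, h5]
    exact key
  | true =>
    have hB := hc2 rfl
    simp only at hB
    have huY : u ∈ s.2.toFinset := (mem_filter.1 hB.1).1
    have hu' : u ∈ s.2 := by rwa [List.mem_toFinset] at huY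
    obtain ⟨s₁, s₂, h1, -, -, h2, h3, h4, h5, -, -⟩ := hK2 u k hu'
    have key := h_STP (tr (aj R)) (tr (aF F)) n D m hF' hg θ hθ
      s.2.toFinset s.1.toFinset hY hX u hB
    have hW := fun X Y => h_SYM (aF F) n D m θ X Y
    rw [h1]
    simp only [List.map_cons, List.map_nil, List.sum_cons, List.sum_nil, add_zero]
    unfold WS
    rw [h2, h3, h4, h5, hW, hW, hW]
    exact key

end Pool.Agent.BisRk
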