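import Pool.Agent.BisRk.Targets3

/-!
# MP_29585b_lc, BRN: elementary facts on the weights
-/

set_option autoImplicit false

namespace Pool.Agent.BisRk

open Finset Pool.Agent.PT Pool.Agent.BisTh Pool.Agent.BisRg Pool.Agent.BisRt Pool.Agent.BisRf

namespace NWRT_

lemma hv_card (fd : ℕ → ℕ → Bool) {n D ν : ℕ} (hD : 1 ≤ D) (h : eN fd n ≤ D * ν) :
    (hv fd D n).card ≤ 5 * ν := by
  have h1 : D * (hv fd D n).card ≤ 5 * eN fd n := by
    calc D * (hv fd D n).card = ∑ _i ∈ hv fd D n, D := by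
          rw [sum_const, smul_eq_mul, mul_comm]
      _ ≤ ∑ i ∈ hv fd D n, 5 * (nb fd (range n) i).card :=
          sum_le_sum fun i hi => (mem_filter.1 hi).2.le
      _ ≤ ∑ i ∈ range n, 5 * (nb fd (range n) i).card :=
          sum_le_sum_of_subset (filter_subset _ _)
      _ = 5 * eN fd n := by rw [eN, mul_sum]
  have h2 : D * (hv fd D n).card ≤ D * (5 * ν) := by
    calc D * (hv fd D n).card ≤ 5 * eN fd n := h1
      _ ≤ 5 * (D * ν) := Nat.mul_le_mul_left 5 h
      _ = D * (5 * ν) := by ring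
  exact Nat.le_of_mul_le_mul_left h2 (by omega)

lemma eN_tr (fd : ℕ → ℕ → Bool) (n : ℕ) : eN (tr fd) n = eN fd n := by
  unfold eN nb tr
  simp only [card_filter]
  rw [sum_comm]

lemma Sk_nonneg (v_FFF : V_FFF) (fd : ℕ → ℕ → Bool) (D : ℕ) (X Y : Finset ℕ) :
    0 ≤ Sk fd fd D 1 X Y :=
  sum_nonneg fun _ _ => ((v_FFF 1 le_rfl).1 _).le

lemma hi_sub (fd : ℕ → ℕ → Bool) (D : ℕ) {n : ℕ} {X Y : Finset ℕ} (hX : X ⊆ range n)
    (hY : Y ⊆ range n) : hi fd D X Y ⊆ hv fd D n := by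
  intro i h
  unfold hi at h
  unfold hv
  rw [mem_filter] at h ⊢
  refine ⟨hX h.1, lt_of_lt_of_le h.2 (Nat.mul_le_mul_left 5 (card_le_card ?_))⟩
  exact filter_subset_filter _ hY

lemma Sk_le (v_FFF : V_FFF) (fd : ℕ → ℕ → Bool) {n D ν : ℕ} (hD : 1 ≤ D) (h : eN fd n ≤ D * ν)
    {X Y : Finset ℕ} (hX : X ⊆ range n) (hY : Y ⊆ range n) :
    Sk fd fd D 1 X Y ≤ 25 / 2 * ν := by
  obtain ⟨-, g2, -, -, -, g6⟩ := v_FFF 1 le_rfl
  have h1 : (hi fd D X Y).card ≤ 5 * ν :=
    (card_le_card (hi_sub fd D hX hY)).trans (hv_card fd hD h)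
  have h2 : ((hi fd D X Y).card : ℝ) ≤ 5 * ν := by exact_mod_cast h1
  calc Sk fd fd D 1 X Y ≤ ∑ _i ∈ hi fd D X Y, (5 / 2 : ℝ) :=
        sum_le_sum fun i _ => (g2 0 _ (by positivity)).trans g6
    _ = 5 / 2 * (hi fd D X Y).card := by
        rw [sum_const, nsmul_eq_mul, mul_comm]
    _ ≤ 25 / 2 * ν := by linarith

end NWRT_

open NWRT_ in
theorem n_WRT (v_FFF : V_FFF) : N_WRT := by
  intro F n D m hD
  have hD0 : (0 : ℝ) < D := by exact_mod_cast hD
  refine ⟨fun s => ⟨Real.exp_pos _, ?_, fun θ => ?_⟩, fun a b ν ha hb he hs => ?_⟩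
  · unfold WS WH
    rw [← Real.exp_add]
    congr 1
    unfold PH SG
    ring
  · unfold WS WH
    apply Real.exp_le_exp.mpr
    unfold PH SG
    have h1 : (0 : ℝ) ≤ 80 * ((((s.1.toFinset ∩ hv (aF F) D n).card +
        (s.2.toFinset ∩ hv (tr (aF F)) D n).card : ℕ) : ℝ) / D) := by positivity
    have h2 : 0 ≤ (Sk (aF F) (aF F) D 1 s.1.toFinset s.2.toFinset +
        Sk (tr (aF F)) (tr (aF F)) D 1 s.2.toFinset s.1.toFinset) / D :=
      div_nonneg (add_nonneg (Sk_nonneg v_FFF _ _ _ _) (Sk_nonneg v_FFF _ _ _ _)) hD0.le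
    linarith
  · unfold WS WH
    apply Real.exp_le_exp.mpr
    unfold SG at hs
    unfold PH
    simp only at hs ⊢
    have hX : (List.range a).toFinset ⊆ range n := by
      intro x hx
      rw [List.mem_toFinset, List.mem_range] at hx
      exact mem_range.2 (hx.trans_le ha)
    have hY : (List.range b).toFinset ⊆ range n := by
      intro x hx
      rw [List.mem_toFinset, List.mem_range] at hx
      exact mem_range.2 (hx.trans_le hb)
    set X := (List.range a).toFinset with hXdef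
    set Y := (List.range b).toFinset with hYdef
    have he' : eN (tr (aF F)) n ≤ D * ν := by rw [eN_tr]; exact he
    have h1 := Sk_le v_FFF (aF F) hD he hX hY
    have h2 := Sk_le v_FFF (tr (aF F)) hD he' hY hX
    have h3 : (X ∩ hv (aF F) D n).card + (Y ∩ hv (tr (aF F)) D n).card ≤ 10 * ν := by
      have e1 := (card_le_card (inter_subset_right (s₁ := X) (s₂ := hv (aF F) D n))).trans
        (hv_card (aF F) hD he)
      have e2 := (card_le_card (inter_subset_right (s₁ := Y) (s₂ := hv (tr (aF F)) D n))).trans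
        (hv_card (tr (aF F)) hD he')
      omega
    have h3' : (((X ∩ hv (aF F) D n).card + (Y ∩ hv (tr (aF F)) D n).card : ℕ) : ℝ) ≤
        10 * ν := by exact_mod_cast h3
    have h4 : (Sk (aF F) (aF F) D 1 X Y + Sk (tr (aF F)) (tr (aF F)) D 1 Y X) / D ≤
        25 * ((ν : ℝ) / D) := by
      rw [← mul_div_assoc]
      gcongr
      linarith
    have h5 : (((X ∩ hv (aF F) D n).card + (Y ∩ hv (tr (aF F)) D n).card : ℕ) : ℝ) / D ≤
        10 * ((ν : ℝ) / D) := by
      rw [← mul_div_assoc]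
      gcongr
    linarith

end Pool.Agent.BisRk
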