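import Pool.Agent.BisRk.N_SYM
import Pool.Agent.BisRk.N_DPO
import Pool.Agent.BisRk.N_DPI
import Pool.Agent.BisRk.N_STP
import Pool.Agent.BisRk.N_WKD
import Pool.Agent.BisRk.N_WRT
import Pool.Agent.BisRk.N_CBD
import Pool.Agent.BisRk.N_STW
import Pool.Agent.BisRk.N_RND
import Pool.Agent.BisRk.N_NUM
import Pool.Agent.BisRk.N_EDN
import Pool.Agent.BisRk.N_ERR
import Pool.Agent.BisRk.N_BFA
import Pool.Agent.BisRk.N_BFB
import Pool.Agent.BisRk.N_BFP
import Pool.Agent.BisRk.N_MTL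
import Pool.Agent.BisRk.N_ALT
import Pool.Agent.BisRk.N_PTA
import Pool.Agent.BisRk.N_PTX
import Pool.Agent.BisRk.N_S18
import Pool.Agent.BisRk.N_S19

/-!
# Assembly, third part
-/

set_option autoImplicit false

namespace Pool.Agent.BisRk

open Pool.Agent.BisTh Pool.Agent.BisRg Pool.Agent.BisRt Pool.Agent.BisRf

theorem mDPO : N_DPO := n_DPO k_REG tDPO
theorem mDPI : N_DPI := n_DPI k_REG k_INN tINN v_FFF
theorem mSTP : N_STP := n_STP k_REG k_INN mDPO mDPI tOVL tGAI v_FFF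
theorem mWKD : N_WKD := n_WKD mSTP n_SYM k_REG tWKD
theorem mWRT : N_WRT := n_WRT v_FFF
theorem mCBD : N_CBD := n_CBD tBST mWKD v_LFB mWRT
theorem mSTW : N_STW := n_STW v_LNK tBST mWKD mCBD mWRT
theorem mRND : N_RND := n_RND tSTS mSTW v_LNK tBST mWRT
theorem mEDN : N_EDN := n_EDN tMXM
theorem mERR : N_ERR := n_ERR mRND tRLB mCBD mWRT v_LFE n_NUM tMXM tFRG v_LNK mEDN
theorem mBFA : N_BFA := n_BFA tAUG
theorem mBFB : N_BFB := n_BFB mBFA
theorem mBFP : N_BFP := n_BFP v_PTM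
theorem mMTL : N_MTL := n_MTL tMXM
theorem mALT : N_ALT := n_ALT mERR mBFB tMXM
theorem mPTA : N_PTA := n_PTA v_PTM tPTR
theorem mPTX : N_PTX := n_PTX mPTA mBFP

theorem statement18 : Statement18 := n_S18 mPTX mALT l_DUL mMTL

theorem statement19 : Statement19 := n_S19 mPTX mALT l_DUL mMTL

theorem statement16 (G : Bip) (ν : ℕ) (h : MatchLe G ν) : 2 ^ (G.a + G.b - ν) ≤ G.count :=
  l_S16 G ν h

end Pool.Agent.BisRk
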