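import Pool.Agent.BisRk.Targets
import Pool.Agent.BisRt.P_BST
import Pool.Agent.BisRt.P_LNK

/-!
# The best vertex

MP_29585b_lc, project BRK, block BST.
-/

set_option autoImplicit false

namespace Pool.Agent.BisRk

open Finset Pool.Agent.PT Pool.Agent.BisTh Pool.Agent.BisRg Pool.Agent.BisRt Pool.Agent.BisRf

namespace BST_

theorem filt1 (D a b : ℕ) : (big D a && decide (b + b ≤ D)) = true ↔ D < 5 * a ∧ 2 * b ≤ D := by
  rw [Bool.and_eq_true, Pool.Agent.BisRt.BST_.big_iff, decide_eq_true_iff]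
  constructor
  · rintro ⟨h, h'⟩
    exact ⟨h, by omega⟩
  · rintro ⟨h, h'⟩
    exact ⟨h, by omega⟩

theorem mem_cand1 (D : ℕ) (R : List (List Bool)) (F : List (ℕ × ℕ)) (s : SI)
    (c : Bool × ℕ × ℕ) :
    c ∈ cand1 D R F s ↔
      (∃ i ∈ s.1, (D < 5 * (nbr R s.2 i).length ∧ 2 * (fr F s.2 i).length ≤ D) ∧
        c = (false, i, 0)) ∨
      ∃ j ∈ s.2, (D < 5 * (nbl R s.1 j).length ∧ 2 * (fl F s.1 j).length ≤ D) ∧
        c = (true, j, 0) := by
  unfold cand1
  rw [List.mem_append, List.mem_map, List.mem_map]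
  constructor
  · rintro (⟨i, hi, h⟩ | ⟨j, hj, h⟩)
    · rw [List.mem_filter, filt1] at hi
      exact Or.inl ⟨i, hi.1, hi.2, h.symm⟩
    · rw [List.mem_filter, filt1] at hj
      exact Or.inr ⟨j, hj.1, hj.2, h.symm⟩
  · rintro (⟨i, hi, h, rfl⟩ | ⟨j, hj, h, rfl⟩)
    · exact Or.inl ⟨i, by rw [List.mem_filter, filt1]; exact ⟨hi, h⟩, rfl⟩
    · exact Or.inr ⟨j, by rw [List.mem_filter, filt1]; exact ⟨hj, h⟩, rfl⟩

theorem mem_cand2 (D : ℕ) (V : List ℕ) (F : List (ℕ × ℕ)) (s : SI) (c : Bool × ℕ × ℕ) :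
    c ∈ cand2 D V F s ↔
      (∃ i ∈ s.1, D < 5 * (fr F s.2 i).length ∧ c = (false, i, cstL D V F s i)) ∨
      ∃ j ∈ s.2, D < 5 * (fl F s.1 j).length ∧ c = (true, j, cstR D V F s j) := by
  unfold cand2
  rw [List.mem_append, List.mem_map, List.mem_map]
  constructor
  · rintro (⟨i, hi, h⟩ | ⟨j, hj, h⟩)
    · rw [List.mem_filter, Pool.Agent.BisRt.BST_.big_iff] at hi
      exact Or.inl ⟨i, hi.1, hi.2, h.symm⟩
    · rw [List.mem_filter, Pool.Agent.BisRt.BST_.big_iff] at hj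
      exact Or.inr ⟨j, hj.1, hj.2, h.symm⟩
  · rintro (⟨i, hi, h, rfl⟩ | ⟨j, hj, h, rfl⟩)
    · exact Or.inl ⟨i, by
        rw [List.mem_filter, Pool.Agent.BisRt.BST_.big_iff]; exact ⟨hi, h⟩, rfl⟩
    · exact Or.inr ⟨j, by
        rw [List.mem_filter, Pool.Agent.BisRt.BST_.big_iff]; exact ⟨hj, h⟩, rfl⟩

theorem candsK_pos (D : ℕ) (V : List ℕ) (R : List (List Bool)) (F : List (ℕ × ℕ)) (s : SI)
    (h : cand1 D R F s = []) : candsK D V R F s = cand2 D V F s := by
  unfold candsK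
  rw [h]
  rfl

theorem candsK_neg (D : ℕ) (V : List ℕ) (R : List (List Bool)) (F : List (ℕ × ℕ)) (s : SI)
    (h : cand1 D R F s ≠ []) : candsK D V R F s = cand1 D R F s := by
  unfold candsK
  cases hc : cand1 D R F s with
  | nil => exact absurd hc h
  | cons a l => rfl

/-- more edges in the graph than in `F` -/
theorem nb_le (adj fd : ℕ → ℕ → Bool) (h : ∀ i j, fd i j = true → adj i j = true)
    (Y : Finset ℕ) (i : ℕ) : (nb fd Y i).card ≤ (nb adj Y i).card := by
  refine card_le_card fun j hj => ?_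
  unfold nb at hj ⊢
  rw [mem_filter] at hj ⊢
  exact ⟨hj.1, h i j hj.2⟩

end BST_

open BST_ in
theorem k_BST (h_LNK : K_LNK) : K_BST := by
  intro R F n N D s hsub hs hDN
  obtain ⟨l1, l2, -, -, -⟩ := p_LNK R n s hs
  obtain ⟨l3, l4, l5, l6⟩ := h_LNK F n N D s hs hDN
  have hA : ∀ i, i ∈ hi (aj R) D s.1.toFinset s.2.toFinset ↔
      i ∈ s.1 ∧ D < 5 * (nbr R s.2 i).length := by
    intro i
    unfold hi
    rw [Finset.mem_filter, List.mem_toFinset, l1 i]
  have hB : ∀ j, j ∈ hi (tr (aj R)) D s.2.toFinset s.1.toFinset ↔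
      j ∈ s.2 ∧ D < 5 * (nbl R s.1 j).length := by
    intro j
    unfold hi
    rw [Finset.mem_filter, List.mem_toFinset, l2 j]
  have hC : ∀ i, i ∈ hi (aF F) D s.1.toFinset s.2.toFinset ↔
      i ∈ s.1 ∧ D < 5 * (fr F s.2 i).length := by
    intro i
    unfold hi
    rw [Finset.mem_filter, List.mem_toFinset, l5 i]
  have hE : ∀ j, j ∈ hi (tr (aF F)) D s.2.toFinset s.1.toFinset ↔
      j ∈ s.2 ∧ D < 5 * (fl F s.1 j).length := by
    intro j
    unfold hi
    rw [Finset.mem_filter, List.mem_toFinset, l6 j]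
  have hL : ∀ i, (fr F s.2 i).length ≤ (nbr R s.2 i).length := by
    intro i
    rw [l5 i, l1 i]
    exact nb_le _ _ hsub _ _
  have hR : ∀ j, (fl F s.1 j).length ≤ (nbl R s.1 j).length := by
    intro j
    rw [l6 j, l2 j]
    exact nb_le (tr (aj R)) (tr (aF F)) (fun i' j' h => hsub j' i' h) _ _
  constructor
  · intro h
    have h1 : cand1 D R F s = [] := by
      by_contra hc
      rw [candsK_neg _ _ _ _ _ hc] at h
      exact hc h
    rw [candsK_pos _ _ _ _ _ h1] at h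
    constructor
    · refine Finset.eq_empty_of_forall_notMem fun i hi' => ?_
      rw [hA] at hi'
      by_cases h2 : 2 * (fr F s.2 i).length ≤ D
      · have : (false, i, 0) ∈ cand1 D R F s :=
          (mem_cand1 _ _ _ _ _).2 (Or.inl ⟨i, hi'.1, ⟨hi'.2, h2⟩, rfl⟩)
        rw [h1] at this
        simp at this
      · have : (false, i, cstL D (List.range N) F s i) ∈ cand2 D (List.range N) F s :=
          (mem_cand2 _ _ _ _ _).2 (Or.inl ⟨i, hi'.1, by omega, rfl⟩)
        rw [h] at this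
        simp at this
    · refine Finset.eq_empty_of_forall_notMem fun j hj' => ?_
      rw [hB] at hj'
      by_cases h2 : 2 * (fl F s.1 j).length ≤ D
      · have : (true, j, 0) ∈ cand1 D R F s :=
          (mem_cand1 _ _ _ _ _).2 (Or.inr ⟨j, hj'.1, ⟨hj'.2, h2⟩, rfl⟩)
        rw [h1] at this
        simp at this
      · have : (true, j, cstR D (List.range N) F s j) ∈ cand2 D (List.range N) F s :=
          (mem_cand2 _ _ _ _ _).2 (Or.inr ⟨j, hj'.1, by omega, rfl⟩)
        rw [h] at this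
        simp at this
  · intro h
    by_cases h1 : cand1 D R F s = []
    · rw [candsK_pos _ _ _ _ _ h1] at h ⊢
      obtain ⟨hm, hmax⟩ := Pool.Agent.BisRt.BST_.best_spec _ h
      have hm' := (mem_cand2 _ _ _ _ _).1 hm
      have hX : ∀ i ∈ hi (aF F) D s.1.toFinset s.2.toFinset,
          cF (aF F) (aF F) D s.1.toFinset s.2.toFinset i ≤
            (best (cand2 D (List.range N) F s)).2.2 := by
        intro i hi'
        rw [hC] at hi'
        have := hmax (false, i, cstL D (List.range N) F s i)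
          ((mem_cand2 _ _ _ _ _).2 (Or.inl ⟨i, hi'.1, hi'.2, rfl⟩))
        rw [← l3 i]
        exact this
      have hY : ∀ j ∈ hi (tr (aF F)) D s.2.toFinset s.1.toFinset,
          cF (tr (aF F)) (tr (aF F)) D s.2.toFinset s.1.toFinset j ≤
            (best (cand2 D (List.range N) F s)).2.2 := by
        intro j hj'
        rw [hE] at hj'
        have := hmax (true, j, cstR D (List.range N) F s j)
          ((mem_cand2 _ _ _ _ _).2 (Or.inr ⟨j, hj'.1, hj'.2, rfl⟩))
        rw [← l4 j]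
        exact this
      refine ⟨?_, ?_⟩
      · intro h2
        rcases hm' with ⟨i, hi1, hi2, he⟩ | ⟨j, hj1, hj2, he⟩
        · rw [he] at hX hY ⊢
          dsimp only at hX hY ⊢
          rw [l3 i] at hX hY
          exact ⟨(hA i).2 ⟨hi1, lt_of_lt_of_le hi2 (Nat.mul_le_mul le_rfl (hL i))⟩,
            Or.inr ⟨hX, hY⟩⟩
        · rw [he] at h2; simp at h2
      · intro h2
        rcases hm' with ⟨i, hi1, hi2, he⟩ | ⟨j, hj1, hj2, he⟩
        · rw [he] at h2; simp at h2
        · rw [he] at hX hY ⊢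
          dsimp only at hX hY ⊢
          rw [l4 j] at hX hY
          exact ⟨(hB j).2 ⟨hj1, lt_of_lt_of_le hj2 (Nat.mul_le_mul le_rfl (hR j))⟩,
            Or.inr ⟨hY, hX⟩⟩
    · rw [candsK_neg _ _ _ _ _ h1] at h ⊢
      obtain ⟨hm, -⟩ := Pool.Agent.BisRt.BST_.best_spec _ h
      have hm' := (mem_cand1 _ _ _ _ _).1 hm
      refine ⟨?_, ?_⟩
      · intro h2
        rcases hm' with ⟨i, hi1, hi2, he⟩ | ⟨j, hj1, hj2, he⟩
        · rw [he]
          exact ⟨(hA i).2 ⟨hi1, hi2.1⟩, Or.inl (by rw [← l5 i]; exact hi2.2)⟩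
        · rw [he] at h2; simp at h2
      · intro h2
        rcases hm' with ⟨i, hi1, hi2, he⟩ | ⟨j, hj1, hj2, he⟩
        · rw [he] at h2; simp at h2
        · rw [he]
          exact ⟨(hB j).2 ⟨hj1, hj2.1⟩, Or.inl (by rw [← l6 j]; exact hj2.2)⟩

end Pool.Agent.BisRk
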