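import Pool.Agent.BisRk.Targets
import Pool.Agent.BisRf.P_CBD
import Pool.Agent.BisRt.P_KID
import Pool.Agent.BisRt.P_CSK

/-!
# Target CBD: the weight bounds the number of independent pairs (costs in the matching)
-/

set_option autoImplicit false

namespace Pool.Agent.BisRk

open Finset Pool.Agent.PT Pool.Agent.BisTh Pool.Agent.BisRg Pool.Agent.BisRt Pool.Agent.BisRf

theorem k_CBD (h_BST : K_BST) (h_WKD : K_WKD) (v_LFB : V_LFB) (h_WRT : K_WRT) : K_CBD := by
  intro R F n N D m g hR hg hDN
  have h_KID : T_KID := p_KID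
  have h_CSK : T_CSK := p_CSK
  have hD1 : 1 ≤ D := by omega
  have hpos : ∀ s' : SI, 0 < WN F D m (69 / 100) s' := by
    intro s'
    obtain ⟨w1, w2, -⟩ := (h_WRT F D m hD1).1 s'
    rw [w2]
    exact mul_pos (Real.exp_pos _) w1
  have key : ∀ N' : ℕ, ∀ s : SI, s.1.length + s.2.length = N' → GoodS n s →
      0 ≤ SG F D m s → (cs R s : ℝ) ≤
      2 ^ m * gr g ^ (s.1.length + s.2.length) * WN F D m (69 / 100) s := by
    intro N'
    induction N' using Nat.strong_induction_on with
    | _ N' ih =>
      intro s hN hs hsg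
      by_cases hc : candsK D (List.range N) R F s = []
      · have hlow := (h_BST R F n N D s hR.1 hs hDN).1 hc
        have h1 := v_LFB R F n D m hR.1 (by omega) s hs hlow hsg
        have h2 := ((h_WRT F D m hD1).1 s).2.2 (69 / 100)
        have h3 : 1 ≤ gr g ^ (s.1.length + s.2.length) :=
          one_le_pow₀ (Pool.Agent.BisRf.CBD_.one_le_gr g)
        have h4 : (0 : ℝ) ≤ 2 ^ m := by positivity
        have h5 := hpos s
        calc (cs R s : ℝ) ≤ 2 ^ m * Real.exp (-(69 / 100 * SG F D m s)) := h1
          _ ≤ 2 ^ m * WN F D m (69 / 100) s := mul_le_mul_of_nonneg_left h2 h4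
          _ = 2 ^ m * 1 * WN F D m (69 / 100) s := by ring
          _ ≤ 2 ^ m * gr g ^ (s.1.length + s.2.length) * WN F D m (69 / 100) s :=
            mul_le_mul_of_nonneg_right (mul_le_mul_of_nonneg_left h3 h4) h5.le
      · have hch := (h_BST R F n N D s hR.1 hs hDN).2 hc
        obtain ⟨hW, hS⟩ := h_WKD R F n D m g hR hg (69 / 100) (by norm_num) s _ hs hch
        generalize best (candsK D (List.range N) R F s) = c at hch hW hS
        obtain ⟨b, u, t⟩ := c
        obtain ⟨c1, c2⟩ := hch
        cases b with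
        | false =>
          have hu : u ∈ s.1 := by
            have h6 := (c1 rfl).1
            exact List.mem_toFinset.1 (Finset.mem_filter.1 h6).1
          obtain ⟨s₁, s₂, hk, g1, g2, -, -, -, -, l1, l2⟩ := (h_KID R n s hs).1 u t hu
          have hsum := (h_CSK R s hs.1 hs.2.1).1 u t hu
          rw [hk] at hS
          have k1 := hsg.trans (hS s₁ (by simp))
          have k2 := hsg.trans (hS s₂ (by simp))
          exact Pool.Agent.BisRf.CBD_.step hk hsum hW l1 l2 (hpos s₁) (hpos s₂)
            (ih _ (by omega) s₁ rfl g1 k1) (ih _ (by omega) s₂ rfl g2 k2)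
        | true =>
          have hv : u ∈ s.2 := by
            have h6 := (c2 rfl).1
            exact List.mem_toFinset.1 (Finset.mem_filter.1 h6).1
          obtain ⟨s₁, s₂, hk, g1, g2, -, -, -, -, l1, l2⟩ := (h_KID R n s hs).2 u t hv
          have hsum := (h_CSK R s hs.1 hs.2.1).2 u t hv
          rw [hk] at hS
          have k1 := hsg.trans (hS s₁ (by simp))
          have k2 := hsg.trans (hS s₂ (by simp))
          exact Pool.Agent.BisRf.CBD_.step hk hsum hW l1 l2 (hpos s₁) (hpos s₂)
            (ih _ (by omega) s₁ rfl g1 k1) (ih _ (by omega) s₂ rfl g2 k2)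
  intro s hs hsg
  exact key _ s rfl hs hsg

end Pool.Agent.BisRk
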