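import Pool.Agent.BisRk.Targets

/-!
# MP_29585b_lc, BisRk: target DPI, the potential when a vertex and its neighbours are removed
-/

set_option autoImplicit false

namespace Pool.Agent.BisRk

open Finset Pool.Agent.PT Pool.Agent.BisTh Pool.Agent.BisRg Pool.Agent.BisRt Pool.Agent.BisRf

namespace DPI_

theorem hi_sub {adj : ℕ → ℕ → Bool} {d : ℕ} {X X' Y Y' : Finset ℕ} (hX : X' ⊆ X)
    (hY : Y' ⊆ Y) : hi adj d X' Y' ⊆ hi adj d X Y := by
  intro i h
  unfold hi at *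
  rw [mem_filter] at *
  refine ⟨hX h.1, lt_of_lt_of_le h.2 (Nat.mul_le_mul_left 5 (card_le_card ?_))⟩
  unfold nb
  exact filter_subset_filter _ hY

/-- the left side -/
theorem left (h_INN : K_INN) (h_FFF : V_FFF) {adj fd : ℕ → ℕ → Bool} {n D : ℕ}
    (hReg : FSub adj fd n D) (hD : 1 ≤ D) {X Y : Finset ℕ} (hX : X ⊆ range n)
    (hY : Y ⊆ range n) {u : ℕ} (hu : u ∈ X) :
    Sk fd fd D 1 (X.erase u) (Y \ nb adj Y u) ≤
      Sk fd fd D 1 X Y + (cF adj fd D X Y u : ℝ) / 4 := by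
  obtain ⟨h2, -, h4, -⟩ := h_INN adj fd n D hReg X Y hX hY u hu
  obtain ⟨f1, -, f3, -⟩ := h_FFF 1 le_rfl
  have hdr : (0 : ℝ) < D := by exact_mod_cast hD
  have step : ∀ i, Fk 1 ((cF fd fd D (X.erase u) (Y \ nb adj Y u) i : ℝ) / D) ≤
      Fk 1 ((cF fd fd D X Y i : ℝ) / D) +
        ((∑ j ∈ nb fd Y i ∩ nb adj Y u, (D - (nb (tr fd) X j).card) : ℕ) : ℝ) / (4 * D) := by
    intro i
    obtain ⟨r, hr⟩ : ∃ r : ℕ, r = ∑ j ∈ nb fd Y i ∩ nb adj Y u,
      (D - (nb (tr fd) X j).card) := ⟨_, rfl⟩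
    have e := h2 i
    rw [← hr] at e ⊢
    have hle : cF fd fd D (X.erase u) (Y \ nb adj Y u) i ≤ cF fd fd D X Y i := by omega
    have h := f3 ((cF fd fd D (X.erase u) (Y \ nb adj Y u) i : ℝ) / D)
      ((cF fd fd D X Y i : ℝ) / D) (by positivity)
      (div_le_div_of_nonneg_right (by exact_mod_cast hle) hdr.le)
    rw [Nat.cast_one, mul_one] at h
    have e' : (cF fd fd D X Y i : ℝ) =
        (cF fd fd D (X.erase u) (Y \ nb adj Y u) i : ℝ) + (r : ℝ) := by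
      exact_mod_cast e.symm
    have h5 : ((cF fd fd D X Y i : ℝ) / D -
        (cF fd fd D (X.erase u) (Y \ nb adj Y u) i : ℝ) / D) / 4 =
        (r : ℝ) / (4 * D) := by
      rw [e']
      field_simp
      ring
    linarith
  have hsub : hi fd D (X.erase u) (Y \ nb adj Y u) ⊆ hi fd D X Y :=
    hi_sub (erase_subset _ _) sdiff_subset
  have h4' : (∑ i ∈ X, ((∑ j ∈ nb fd Y i ∩ nb adj Y u,
      (D - (nb (tr fd) X j).card) : ℕ) : ℝ)) ≤ (D : ℝ) * (cF adj fd D X Y u : ℝ) := by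
    exact_mod_cast h4
  calc Sk fd fd D 1 (X.erase u) (Y \ nb adj Y u)
      ≤ ∑ i ∈ hi fd D (X.erase u) (Y \ nb adj Y u), (Fk 1 ((cF fd fd D X Y i : ℝ) / D) +
        ((∑ j ∈ nb fd Y i ∩ nb adj Y u, (D - (nb (tr fd) X j).card) : ℕ) : ℝ) / (4 * D)) := by
        unfold Sk
        exact sum_le_sum fun i _ => step i
    _ ≤ ∑ i ∈ hi fd D X Y, (Fk 1 ((cF fd fd D X Y i : ℝ) / D) +
        ((∑ j ∈ nb fd Y i ∩ nb adj Y u, (D - (nb (tr fd) X j).card) : ℕ) : ℝ) / (4 * D)) := by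
        apply sum_le_sum_of_subset_of_nonneg hsub
        intro i _ _
        have := f1 ((cF fd fd D X Y i : ℝ) / D)
        positivity
    _ = Sk fd fd D 1 X Y + (∑ i ∈ hi fd D X Y,
        ((∑ j ∈ nb fd Y i ∩ nb adj Y u, (D - (nb (tr fd) X j).card) : ℕ) : ℝ)) / (4 * D) := by
        rw [sum_add_distrib, sum_div]
        rfl
    _ ≤ Sk fd fd D 1 X Y + (∑ i ∈ X,
        ((∑ j ∈ nb fd Y i ∩ nb adj Y u, (D - (nb (tr fd) X j).card) : ℕ) : ℝ)) / (4 * D) := by
        have : (∑ i ∈ hi fd D X Y,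
            ((∑ j ∈ nb fd Y i ∩ nb adj Y u, (D - (nb (tr fd) X j).card) : ℕ) : ℝ)) ≤
            ∑ i ∈ X, ((∑ j ∈ nb fd Y i ∩ nb adj Y u,
              (D - (nb (tr fd) X j).card) : ℕ) : ℝ) :=
          sum_le_sum_of_subset_of_nonneg (filter_subset _ _) (fun i _ _ => Nat.cast_nonneg _)
        have h6 := div_le_div_of_nonneg_right this (by positivity : (0 : ℝ) ≤ 4 * D)
        linarith
    _ ≤ Sk fd fd D 1 X Y + (cF adj fd D X Y u : ℝ) / 4 := by
        have h6 := div_le_div_of_nonneg_right h4' (by positivity : (0 : ℝ) ≤ 4 * D)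
        have h7 : (D : ℝ) * (cF adj fd D X Y u : ℝ) / (4 * D) =
            (cF adj fd D X Y u : ℝ) / 4 := by
          field_simp
        linarith

/-- the right side -/
theorem right (h_INN : K_INN) (h_FFF : V_FFF) {adj fd : ℕ → ℕ → Bool} {n D : ℕ}
    (hReg : FSub adj fd n D) (hD : 1 ≤ D) {X Y : Finset ℕ} (hX : X ⊆ range n)
    (hY : Y ⊆ range n) {u : ℕ} (hu : u ∈ X) :
    Sk (tr fd) (tr fd) D 1 (Y \ nb adj Y u) (X.erase u) ≤ Sk (tr fd) (tr fd) D 1 Y X := by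
  obtain ⟨-, h3, -⟩ := h_INN adj fd n D hReg X Y hX hY u hu
  obtain ⟨f1, f2, -, -⟩ := h_FFF 1 le_rfl
  have hdr : (0 : ℝ) < D := by exact_mod_cast hD
  have hsub : hi (tr fd) D (Y \ nb adj Y u) (X.erase u) ⊆ hi (tr fd) D Y X :=
    hi_sub sdiff_subset (erase_subset _ _)
  calc Sk (tr fd) (tr fd) D 1 (Y \ nb adj Y u) (X.erase u)
      ≤ ∑ j ∈ hi (tr fd) D (Y \ nb adj Y u) (X.erase u),
        Fk 1 ((cF (tr fd) (tr fd) D Y X j : ℝ) / D) := by
        unfold Sk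
        refine sum_le_sum fun j hj => ?_
        have hj' : j ∈ Y \ nb adj Y u := (mem_filter.mp hj).1
        exact f2 _ _ (div_le_div_of_nonneg_right (by exact_mod_cast h3 j hj') hdr.le)
    _ ≤ Sk (tr fd) (tr fd) D 1 Y X :=
        sum_le_sum_of_subset_of_nonneg hsub (fun j _ _ => (f1 _).le)

end DPI_

/-- DPI: the potential when `u` and its neighbours are removed. -/
theorem k_DPI (h_REG : K_REG) (h_INN : K_INN) (v_INN : V_INN) (v_FFF : V_FFF) : K_DPI := by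
  intro adj fd n D m hReg hD θ hθ X Y hX hY u hu
  have huX : u ∈ X := (mem_filter.mp hu).1
  have hN : D < 5 * (nb adj Y u).card := (mem_filter.mp hu).2
  have hE := (v_INN adj fd n D n m (h_REG adj fd n D hReg hD).2.1 hD X Y hX hY u huX).1
  have hL := DPI_.left h_INN v_FFF hReg hD hX hY huX
  have hR := DPI_.right h_INN v_FFF hReg hD hX hY huX
  have hdr : (0 : ℝ) < D := by exact_mod_cast hD
  have hX1 : ((X.erase u).card : ℝ) = (X.card : ℝ) - 1 := by
    have := card_erase_add_one huX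
    rw [← this]
    push_cast
    ring
  have hY1 : ((Y \ nb adj Y u).card : ℝ) = (Y.card : ℝ) - (nb adj Y u).card := by
    have h := card_sdiff_add_card_eq_card (filter_subset (fun j => adj u j = true) Y)
    have h' : (Y \ nb adj Y u).card + (nb adj Y u).card = Y.card := h
    rw [← h']
    push_cast
    ring
  have hC1 : 35 * ((((X.erase u).card : ℝ) + ((Y \ nb adj Y u).card : ℝ)) / D) ≤
      35 * (((X.card : ℝ) + Y.card) / D) - 7 := by
    rw [hX1, hY1]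
    have hN' : (D : ℝ) ≤ 5 * ((nb adj Y u).card : ℝ) := by exact_mod_cast hN.le
    have h1 : 1 / 5 ≤ (1 + ((nb adj Y u).card : ℝ)) / D := by
      rw [le_div_iff₀ hdr]
      linarith
    have h2 : ((X.card : ℝ) - 1 + ((Y.card : ℝ) - (nb adj Y u).card)) / D =
        ((X.card : ℝ) + Y.card) / D - (1 + ((nb adj Y u).card : ℝ)) / D := by
      field_simp
      ring
    rw [h2]
    linarith
  have hS1 : (Sk fd fd D 1 (X.erase u) (Y \ nb adj Y u) +
      Sk (tr fd) (tr fd) D 1 (Y \ nb adj Y u) (X.erase u)) / D ≤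
      (Sk fd fd D 1 X Y + Sk (tr fd) (tr fd) D 1 Y X) / D +
        (cF adj fd D X Y u : ℝ) / D / 4 := by
    have h := div_le_div_of_nonneg_right (add_le_add hL hR) hdr.le
    have h2 : (Sk fd fd D 1 X Y + (cF adj fd D X Y u : ℝ) / 4 +
        Sk (tr fd) (tr fd) D 1 Y X) / D =
        (Sk fd fd D 1 X Y + Sk (tr fd) (tr fd) D 1 Y X) / D +
          (cF adj fd D X Y u : ℝ) / D / 4 := by
      field_simp
      ring
    linarith
  have hc : 0 ≤ (cF adj fd D X Y u : ℝ) / D := by positivity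
  have hθc : 3 / 5 * ((cF adj fd D X Y u : ℝ) / D) ≤ θ * ((cF adj fd D X Y u : ℝ) / D) :=
    mul_le_mul_of_nonneg_right hθ hc
  have h35 : 30 + 5 * ((Nat.size 1 : ℕ) : ℝ) = 35 := by
    rw [Nat.size_one, Nat.cast_one]
    norm_num
  unfold PW Pk
  rw [hE, h35]
  have h3 : θ * (sg fd D m X Y + (1 + (cF adj fd D X Y u : ℝ) / D)) =
      θ * sg fd D m X Y + θ + θ * ((cF adj fd D X Y u : ℝ) / D) := by ring
  rw [h3]
  linarith

end Pool.Agent.BisRk
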