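import Pool.Agent.BisRk.Targets
import Pool.Agent.BisRf.P_CUT

/-!
# FRG: degrees of the matching

MP_29585b_lc, project BRK.
-/

set_option autoImplicit false

namespace Pool.Agent.BisRk

open Finset Pool.Agent.PT Pool.Agent.BisTh Pool.Agent.BisRg Pool.Agent.BisRt Pool.Agent.BisRf

namespace FRG_

lemma nbL (F : List (ℕ × ℕ)) (hF : F.Nodup) (S : Finset ℕ) (i : ℕ) :
    (nb (aF F) S i).card ≤ dL F i := by
  rw [BisRf.CUT_.dL_card F hF]
  refine Finset.card_le_card_of_injOn (fun j => (i, j)) ?_ ?_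
  · intro j hj
    have h1 : aF F i j = true := (Finset.mem_filter.1 hj).2
    have h2 := (BisRf.CUT_.aF_iff F i j).1 h1
    simp only [Finset.coe_filter, List.mem_toFinset, Set.mem_ofPred_eq]
    exact ⟨h2, trivial⟩
  · intro x _ y _ h
    exact (Prod.mk.inj h).2

lemma nbR (F : List (ℕ × ℕ)) (hF : F.Nodup) (S : Finset ℕ) (j : ℕ) :
    (nb (tr (aF F)) S j).card ≤ dR F j := by
  rw [BisRf.CUT_.dR_card F hF]
  refine Finset.card_le_card_of_injOn (fun i => (i, j)) ?_ ?_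
  · intro i hi
    have h1 : aF F i j = true := (Finset.mem_filter.1 hi).2
    have h2 := (BisRf.CUT_.aF_iff F i j).1 h1
    simp only [Finset.coe_filter, List.mem_toFinset, Set.mem_ofPred_eq]
    exact ⟨h2, trivial⟩
  · intro x _ y _ h
    exact (Prod.mk.inj h).1

end FRG_

theorem k_FRG (v_MXM : V_MXM) : K_FRG := by
  intro D B R hR
  obtain ⟨⟨hnd, hE, hL, hRt⟩, -⟩ := v_MXM D B R hR
  have h1 : ∀ i j, aF (maxM D B R) i j = true → aj R i j = true := fun i j h =>
    ((BisRf.CUT_.mem_edgesL B R i j).1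
      (hE _ ((BisRf.CUT_.aF_iff (maxM D B R) i j).1 h))).2.2
  exact ⟨h1, h1, fun i _ => (FRG_.nbL _ hnd _ i).trans (hL i),
    fun j _ => (FRG_.nbR _ hnd _ j).trans (hRt j)⟩

end Pool.Agent.BisRk
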