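import Pool.Agent.BisRk.Targets

set_option autoImplicit false

/-!
# INN: removing a vertex and its neighbours, costs in `F` (MP_29585b_lc)
-/

namespace Pool.Agent.BisRk

open Finset Pool.Agent.PT Pool.Agent.BisTh Pool.Agent.BisRg Pool.Agent.BisRt Pool.Agent.BisRf

namespace INN_

/-- the neighbours of `j` do not change if `u` is removed and not adjacent to `j` -/
theorem nb_erase {fd : ℕ → ℕ → Bool} {X : Finset ℕ} {u j : ℕ} (h : ¬ fd u j = true) :
    nb (tr fd) (X.erase u) j = nb (tr fd) X j := by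
  unfold nb
  rw [filter_erase, erase_eq_of_notMem]
  exact fun h1 => h (mem_filter.1 h1).2

end INN_

open INN_ in
/-- INN. -/
theorem k_INN : K_INN := by
  intro adj fd n D hsub X Y hX hY u hu
  obtain ⟨r0, -, r2⟩ := hsub
  have hN : nb adj Y u ⊆ Y := filter_subset _ _
  have hnotf : ∀ j ∈ Y \ nb adj Y u, ¬ fd u j = true := fun j h h1 =>
    (mem_sdiff.1 h).2 (mem_filter.2 ⟨(mem_sdiff.1 h).1, r0 u j h1⟩)
  have hle : ∀ j ∈ Y, (nb (tr fd) X j).card ≤ D := by
    intro j hj
    refine le_trans (card_le_card ?_) (r2 j (mem_range.1 (hY hj)))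
    unfold nb
    exact filter_subset_filter _ hX
  refine ⟨fun i => ?_, fun j hj => ?_, ?_, ?_⟩
  · unfold cF
    have h1 : nb fd Y i = nb fd (Y \ nb adj Y u) i ∪ (nb fd Y i ∩ nb adj Y u) := by
      ext j
      simp only [nb, mem_union, mem_inter, mem_filter, mem_sdiff, not_and]
      tauto
    have h2 : Disjoint (nb fd (Y \ nb adj Y u) i) (nb fd Y i ∩ nb adj Y u) := by
      rw [disjoint_left]
      intro j h3 h4
      exact (mem_sdiff.1 (mem_filter.1 h3).1).2 (mem_inter.1 h4).2
    have h3 : ∑ j ∈ nb fd Y i, (D - (nb (tr fd) X j).card) =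
        ∑ j ∈ nb fd (Y \ nb adj Y u) i, (D - (nb (tr fd) X j).card) +
          ∑ j ∈ nb fd Y i ∩ nb adj Y u, (D - (nb (tr fd) X j).card) := by
      conv_lhs => rw [h1]
      exact sum_union h2
    rw [h3]
    congr 1
    refine sum_congr rfl fun j hj => ?_
    rw [nb_erase (hnotf j (mem_filter.1 hj).1)]
  · unfold cF
    rw [nb_erase (hnotf j hj)]
    refine sum_le_sum fun i _ => Nat.sub_le_sub_left (card_le_card ?_) _
    unfold nb
    exact filter_subset_filter _ sdiff_subset
  · have h1 : ∀ i, ∑ j ∈ nb fd Y i ∩ nb adj Y u, (D - (nb (tr fd) X j).card) =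
        ∑ j ∈ nb adj Y u, if fd i j = true then (D - (nb (tr fd) X j).card) else 0 := by
      intro i
      have h2 : nb fd Y i ∩ nb adj Y u = (nb adj Y u).filter fun j => fd i j = true := by
        ext j
        simp only [nb, mem_inter, mem_filter]
        tauto
      rw [h2, sum_filter]
    rw [sum_congr rfl fun i _ => h1 i, sum_comm]
    unfold cF
    rw [mul_sum]
    refine sum_le_sum fun j hj => ?_
    rw [← sum_filter, sum_const, smul_eq_mul]
    exact Nat.mul_le_mul_right _ (hle j (hN hj))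
  · unfold cF
    refine sum_le_sum_of_subset fun j hj => ?_
    simp only [nb, mem_filter] at hj ⊢
    exact ⟨hj.1, r0 u j hj.2⟩

end Pool.Agent.BisRk
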