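import Pool.Agent.BisRk.Targets
import Pool.Agent.BisRf.P_LNK

/-!
# Lists and sets

MP_29585b_lc, project BRK, block LNK.
-/

set_option autoImplicit false

namespace Pool.Agent.BisRk

open Finset Pool.Agent.PT Pool.Agent.BisTh Pool.Agent.BisRg Pool.Agent.BisRt Pool.Agent.BisRf

namespace LNK_

lemma fr_toF (F : List (ℕ × ℕ)) (J : List ℕ) (i : ℕ) :
    (fr F J i).toFinset = nb (aF F) J.toFinset i :=
  List.toFinset_filter J fun j => aF F i j

lemma fl_toF (F : List (ℕ × ℕ)) (I : List ℕ) (j : ℕ) :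
    (fl F I j).toFinset = nb (tr (aF F)) I.toFinset j :=
  List.toFinset_filter I fun i => aF F i j

lemma fr_len (F : List (ℕ × ℕ)) {J : List ℕ} (hJ : J.Nodup) (i : ℕ) :
    (fr F J i).length = (nb (aF F) J.toFinset i).card :=
  BisRt.LNK_.filter_len hJ fun j => aF F i j

lemma fl_len (F : List (ℕ × ℕ)) {I : List ℕ} (hI : I.Nodup) (j : ℕ) :
    (fl F I j).length = (nb (tr (aF F)) I.toFinset j).card :=
  BisRt.LNK_.filter_len hI fun i => aF F i j

end LNK_

open LNK_ in
theorem k_LNK : K_LNK := by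
  intro F n N D s hs hDN
  obtain ⟨h1, h2, -, -⟩ := hs
  refine ⟨fun i => ?_, fun j => ?_, fun i => fr_len F h2 i, fun j => fl_len F h1 j⟩
  · unfold cstL cF
    have hd : (fr F s.2 i).Nodup := h2.filter _
    rw [BisRt.LNK_.flat hd _ (fun j => D - (nb (tr (aF F)) s.1.toFinset j).card) ?_, fr_toF]
    intro j
    rw [BisRf.LNK_.gap_len hDN, fl_len F h1 j]
  · unfold cstR cF
    have hd : (fl F s.1 j).Nodup := h1.filter _
    rw [BisRt.LNK_.flat hd _ (fun i => D - (nb (tr (tr (aF F))) s.2.toFinset i).card) ?_,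
      fl_toF]
    intro i
    rw [BisRf.LNK_.gap_len hDN, fr_len F h2 i]
    rfl

end Pool.Agent.BisRk
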