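import Pool.Agent.BisRk.Targets
import Pool.Agent.BisRt.P_PTC
import Pool.Agent.BisRt.P_PTS

/-!
# One step runs in polynomial time
-/

set_option autoImplicit false

namespace Pool.Agent.BisRk

open Finset Pool.Agent.PT Pool.Agent.BisTh Pool.Agent.BisRg Pool.Agent.BisRt Pool.Agent.BisRf

/-- Input of one step with all parameters. -/
abbrev PTS_.InT : Type :=
  (ℕ × ℕ) × List ℕ × List ℕ × List (List Bool) × List (ℕ × ℕ) × SI

theorem k_PTS (h_PTC : K_PTC) (v_PTC : V_PTC) : K_PTS := by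
  refine ⟨fun hC => ?_, fun D K V Ml R F s => ?_⟩
  · have h1 := h_PTC hC
    obtain ⟨-, h2⟩ := v_PTC hC
    obtain ⟨-, -, h3⟩ := p_PTC hC
    have c1 : PolyF (fun x : PTS_.InT =>
        candsK x.1.1 x.2.1 x.2.2.2.1 x.2.2.2.2.1 x.2.2.2.2.2) :=
      h1.comp (g := fun x : PTS_.InT =>
        ((x.1.1, x.2.1, x.2.2.2.1, x.2.2.2.2.1, x.2.2.2.2.2) : InG)) (by fun_prop)
    have c2 : PolyF (fun x : PTS_.InT =>
        best (candsK x.1.1 x.2.1 x.2.2.2.1 x.2.2.2.2.1 x.2.2.2.2.2)) :=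
      h3.comp c1
    have c3 : PolyF (fun x : PTS_.InT =>
        kids x.2.2.2.1 (best (candsK x.1.1 x.2.1 x.2.2.2.1 x.2.2.2.2.1 x.2.2.2.2.2))
          x.2.2.2.2.2) :=
      BisRt.PTS_.kids_pt (by fun_prop) c2 (by fun_prop)
    have c4 : PolyF (fun p : PTS_.InT × SI =>
        keep p.1.1.1 p.1.1.2 p.1.2.1 p.1.2.2.1 p.1.2.2.2.2.1 p.2) :=
      h2.comp (g := fun p : PTS_.InT × SI =>
        (((p.1.1.1, p.1.1.2), p.1.2.1, p.1.2.2.1, p.1.2.2.2.2.1, p.2) :
          (ℕ × ℕ) × List ℕ × List ℕ × List (ℕ × ℕ) × SI)) (by fun_prop)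
    have c6 : PolyF (fun x : PTS_.InT =>
        (kids x.2.2.2.1 (best (candsK x.1.1 x.2.1 x.2.2.2.1 x.2.2.2.2.1 x.2.2.2.2.2))
          x.2.2.2.2.2).filter fun s' => keep x.1.1 x.1.2 x.2.1 x.2.2.1 x.2.2.2.2.1 s') :=
      PolyF.filter (f := fun (x : PTS_.InT) s' =>
        keep x.1.1 x.1.2 x.2.1 x.2.2.1 x.2.2.2.2.1 s') c4 c3
    unfold stepK
    fun_prop
  · unfold stepK
    cases (candsK D V R F s).isEmpty with
    | true =>
      rw [cond_true]
      refine ⟨by simp, fun s' hs' => ?_⟩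
      rw [List.mem_singleton] at hs'
      rw [hs']
    | false =>
      rw [cond_false]
      refine ⟨(List.length_filter_le _ _).trans (BisRt.PTS_.kids_len R _ s).le,
        fun s' hs' => ?_⟩
      exact BisRt.PTS_.kids_sz R _ s s' (List.mem_filter.1 hs').1

end Pool.Agent.BisRk
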