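import Pool.Agent.BisRk.Targets

/-!
# Elementary facts on `FReg` and `FSub` (REG)
-/

set_option autoImplicit false

namespace Pool.Agent.BisRk

open Finset Pool.Agent.PT Pool.Agent.BisTh Pool.Agent.BisRg Pool.Agent.BisRt Pool.Agent.BisRf

namespace REG_

theorem nb_card_le (adj : ℕ → ℕ → Bool) (n i : ℕ) : (nb adj (range n) i).card ≤ n := by
  unfold nb
  calc ((range n).filter fun j => adj i j = true).card ≤ (range n).card := card_filter_le _ _
    _ = n := card_range n

end REG_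

open REG_ in
/-- Elementary facts. -/
theorem k_REG : K_REG := by
  intro adj fd n D h hD
  refine ⟨⟨fun i j hij => hij, fun i hi => ⟨h.2.1 i hi, ?_⟩, fun j hj => ⟨h.2.2 j hj, ?_⟩⟩,
    ⟨h.1, fun i hi => ⟨h.2.1 i hi, ?_⟩, fun j hj => ⟨h.2.2 j hj, ?_⟩⟩,
    ⟨fun i j hij => h.1 j i hij, h.2.2, h.2.1⟩⟩
  · rw [one_mul]
    exact h.2.1 i hi
  · rw [one_mul]
    exact h.2.2 j hj
  · exact le_trans (nb_card_le adj n i) (Nat.le_mul_of_pos_right n hD)
  · exact le_trans (nb_card_le (tr adj) n j) (Nat.le_mul_of_pos_right n hD)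

end Pool.Agent.BisRk
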