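import Pool.Agent.BisRk.Targets

/-!
# Target RLB: the rounds only lose
-/

set_option autoImplicit false

namespace Pool.Agent.BisRk

open Finset Pool.Agent.PT Pool.Agent.BisTh Pool.Agent.BisRg Pool.Agent.BisRt Pool.Agent.BisRf

namespace RLB_

lemma flat_le (h_STS : K_STS) (R : List (List Bool)) (F : List (ℕ × ℕ)) (n N D K : ℕ)
    (Ml : List ℕ) (hF : ∀ i j, aF F i j = true → aj R i j = true) (hD : D ≤ N) :
    ∀ L : List SI, (∀ s ∈ L, GoodS n s) →
      (∀ s ∈ L.flatMap (stepK D K (List.range N) Ml R F), GoodS n s) ∧
      ((L.flatMap (stepK D K (List.range N) Ml R F)).map (cs R)).sum ≤ (L.map (cs R)).sum := by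
  intro L
  induction L with
  | nil => intro _; simp
  | cons s L ih =>
    intro h
    obtain ⟨i1, i2⟩ := ih fun s' hs' => h s' (List.mem_cons_of_mem _ hs')
    obtain ⟨g1, g2, -⟩ := h_STS R F n N D K Ml s hF (h s List.mem_cons_self) hD
    rw [List.flatMap_cons, List.map_append, List.sum_append, List.map_cons, List.sum_cons]
    refine ⟨fun s' hs' => ?_, add_le_add g2 i2⟩
    rcases List.mem_append.1 hs' with h1 | h1
    · exact (g1 s' h1).1
    · exact i1 s' h1

lemma fold_le (h_STS : K_STS) (R : List (List Bool)) (F : List (ℕ × ℕ)) (n N D K : ℕ) (P : Un)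
    (Ml : List ℕ) (hF : ∀ i j, aF F i j = true → aj R i j = true) (hD : D ≤ N) :
    ∀ (l : List ℕ) (L : List SI), (∀ s ∈ L, GoodS n s) →
      ((l.foldl (fun L _ => cond (decide (L.length ≤ P.length))
        (L.flatMap (stepK D K (List.range N) Ml R F)) []) L).map (cs R)).sum ≤
        (L.map (cs R)).sum := by
  intro l
  induction l with
  | nil => intro L _; exact le_refl _
  | cons a l ih =>
    intro L hL
    rw [List.foldl_cons]
    obtain ⟨h1, h2⟩ := flat_le h_STS R F n N D K Ml hF hD L hL
    cases decide (L.length ≤ P.length) with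
    | true => exact (ih _ h1).trans h2
    | false =>
      refine (ih [] fun s hs => absurd hs List.not_mem_nil).trans ?_
      exact Nat.zero_le _

end RLB_

/-- The rounds only lose. -/
theorem k_RLB (h_STS : K_STS) : K_RLB := by
  intro R F a b D K P Ml hF hD
  have hroot : ∀ s ∈ [(List.range a, List.range b)], GoodS (a + b) s := by
    intro s hs
    rw [List.mem_singleton.1 hs]
    refine ⟨List.nodup_range, List.nodup_range, fun i hi => ?_, fun j hj => ?_⟩
    · have := List.mem_range.1 hi
      omega
    · have := List.mem_range.1 hj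
      omega
  have h := RLB_.fold_le h_STS R F (a + b) (a + b) D K P Ml hF hD (List.range (a + b))
    [(List.range a, List.range b)] hroot
  rw [List.map_singleton, List.sum_singleton] at h
  exact h

end Pool.Agent.BisRk
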