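import Pool.Agent.BisRk.Targets
import Pool.Agent.BisRg.P_NRS

/-!
# S13: nearly biregular graphs have spread fractional matchings

MP_29585b_lc.
-/

set_option autoImplicit false

namespace Pool.Agent.BisRk

open Finset Pool.Agent.PT Pool.Agent.BisTh Pool.Agent.BisRg Pool.Agent.BisRt Pool.Agent.BisRf

namespace S13_

/-- The number of edges is at least `max d e * min a b`. -/
theorem total (G : Bip) (n d e : ℕ) (hn : (0 : ℚ) < n) (hL : ∀ i, d ≤ G.degL i)
    (hR : ∀ j, e ≤ G.degR j) :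
    ((min G.a G.b : ℕ) : ℚ) * ((max d e : ℕ) : ℚ) ≤ n * ∑ i, ∑ j, NRS_.wt G n i j := by
  rcases le_total e d with h | h
  · rw [max_eq_left h]
    have h2 : (n : ℚ) * ∑ i, ∑ j, NRS_.wt G n i j = ∑ i, (G.degL i : ℚ) := by
      rw [Finset.mul_sum]
      refine Finset.sum_congr rfl fun i _ => ?_
      rw [NRS_.sumL, mul_div_cancel₀ _ hn.ne']
    have h3 : (G.a : ℚ) * d ≤ ∑ i, (G.degL i : ℚ) := by
      have : ∑ _i : Fin G.a, (d : ℚ) ≤ ∑ i, (G.degL i : ℚ) :=
        Finset.sum_le_sum fun i _ => by exact_mod_cast hL i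
      simpa using this
    have h4 : ((min G.a G.b : ℕ) : ℚ) ≤ G.a := by exact_mod_cast min_le_left _ _
    rw [h2]
    exact (mul_le_mul_of_nonneg_right h4 (Nat.cast_nonneg d)).trans h3
  · rw [max_eq_right h]
    have h2 : (n : ℚ) * ∑ i, ∑ j, NRS_.wt G n i j = ∑ j, (G.degR j : ℚ) := by
      rw [Finset.sum_comm, Finset.mul_sum]
      refine Finset.sum_congr rfl fun j _ => ?_
      rw [NRS_.sumR, mul_div_cancel₀ _ hn.ne']
    have h3 : (G.b : ℚ) * e ≤ ∑ j, (G.degR j : ℚ) := by
      have : ∑ _j : Fin G.b, (e : ℚ) ≤ ∑ j, (G.degR j : ℚ) :=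
        Finset.sum_le_sum fun j _ => by exact_mod_cast hR j
      simpa using this
    have h4 : ((min G.a G.b : ℕ) : ℚ) ≤ G.b := by exact_mod_cast min_le_right _ _
    rw [h2]
    exact (mul_le_mul_of_nonneg_right h4 (Nat.cast_nonneg e)).trans h3

end S13_

theorem k_S13 : K_S13 := by
  intro G d e s c hd hL hR hc
  have hn : (0 : ℚ) < ((max d e + s : ℕ) : ℚ) := by
    have : 0 < max d e + s := by
      have := le_max_left d e
      omega
    exact_mod_cast this
  refine ⟨NRS_.wt G (max d e + s), ?_, ?_, ?_, ?_, ?_, ?_⟩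
  · intro i j
    unfold NRS_.wt
    split_ifs <;> positivity
  · intro i j h
    unfold NRS_.wt
    rw [if_neg (by simp [h])]
  · intro i j
    unfold NRS_.wt
    split_ifs
    · rw [mul_one_div, div_self hn.ne']
    · rw [mul_zero]
      exact zero_le_one
  · intro i
    rw [NRS_.sumL, div_le_one hn]
    have h1 : G.degL i ≤ max d e + s := (hL i).2.trans (Nat.add_le_add_right (le_max_left d e) s)
    exact_mod_cast h1
  · intro j
    rw [NRS_.sumR, div_le_one hn]
    have h1 : G.degR j ≤ max d e + s := (hR j).2.trans (Nat.add_le_add_right (le_max_right d e) s)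
    exact_mod_cast h1
  · have h1 := S13_.total G (max d e + s) d e hn (fun i => (hL i).1) fun j => (hR j).1
    have h2 : ((min G.a G.b : ℕ) : ℚ) * s ≤ ((max d e + s : ℕ) : ℚ) * c := by exact_mod_cast hc
    have h3 : ((max d e + s : ℕ) : ℚ) = ((max d e : ℕ) : ℚ) + s := by rw [Nat.cast_add]
    refine le_of_mul_le_mul_left ?_ hn
    calc ((max d e + s : ℕ) : ℚ) * ((min G.a G.b : ℕ) : ℚ)
        = ((min G.a G.b : ℕ) : ℚ) * ((max d e : ℕ) : ℚ) + ((min G.a G.b : ℕ) : ℚ) * s := by
          rw [h3]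
          ring
      _ ≤ ((max d e + s : ℕ) : ℚ) * ∑ i, ∑ j, NRS_.wt G (max d e + s) i j +
          ((max d e + s : ℕ) : ℚ) * c := add_le_add h1 h2
      _ = _ := by rw [mul_add]

end Pool.Agent.BisRk
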