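import Pool.Agent.BisRk.Targets
import Pool.Agent.BisRt.P_FFF

/-!
# STP: the step inequality (spread fractional matching, no bound for the degrees)
-/

set_option autoImplicit false

namespace Pool.Agent.BisRk

open Finset Pool.Agent.PT Pool.Agent.BisTh Pool.Agent.BisRg Pool.Agent.BisRt Pool.Agent.BisRf

namespace STP_

/-- the weight of a state whose potential is smaller by `a` -/
theorem wt_le {fd : ℕ → ℕ → Bool} {D m : ℕ} {θ : ℝ} {X Y X' Y' : Finset ℕ} {a : ℝ}
    (h : PW fd D m θ X' Y' + a ≤ PW fd D m θ X Y) :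
    WW fd D m θ X' Y' ≤ Real.exp (-a) * WW fd D m θ X Y := by
  unfold WW Wk
  unfold PW at h
  rw [← Real.exp_add]
  exact Real.exp_le_exp.2 (by linarith)

/-- the degree in `fd` is at most `D` -/
theorem nb_card_le {adj fd : ℕ → ℕ → Bool} {n D : ℕ} (hR : FSub adj fd n D)
    {Y : Finset ℕ} (hY : Y ⊆ range n) {u : ℕ} (hu : u < n) : (nb fd Y u).card ≤ D := by
  refine le_trans (card_le_card ?_) (hR.2.1 u hu)
  exact filter_subset_filter _ hY

end STP_

open STP_ in
theorem k_STP (h_REG : K_REG) (h_INN : K_INN) (h_DPI : K_DPI) (v_DPO : V_DPO) (v_OVL : V_OVL)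
    (v_GAI : V_GAI) (v_FFF : V_FFF) : K_STP := by
  intro adj fd n D m g hR hD θ hθ X Y hX hY u hbest
  obtain ⟨hu, hor⟩ := hbest
  have hD1 : 1 ≤ D := by omega
  have hD0 : (0 : ℝ) < D := by exact_mod_cast hD1
  have huX : u ∈ X := (mem_filter.1 hu).1
  have hun : u < n := mem_range.1 (hX huX)
  have hRf := (h_REG adj fd n D hR hD1).1
  have hin := h_DPI adj fd n D m hR hD1 θ hθ X Y hX hY u hu
  have hout := v_DPO fd fd n D 1 m hRf hD1 le_rfl θ hθ X Y hX hY u huX
  have hcc := (h_INN adj fd n D hR X Y hX hY u huX).2.2.2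
  obtain ⟨-, f2, -, -, -, -⟩ := v_FFF 1 le_rfl
  have f5 := Pool.Agent.BisRt.p_FFF.2.2.2.2.1
  have f6 := Pool.Agent.BisRt.p_FFF.2.2.2.2.2
  have hW : 0 < WW fd D m θ X Y := Real.exp_pos _
  have hgr : 1 ≤ gr g := by
    unfold gr
    have := Real.exp_pos (-(g : ℝ))
    linarith
  have hcard : ((nb fd Y u).card : ℝ) ≤ D := by exact_mod_cast nb_card_le hR hY hun
  have hr0 : 0 ≤ 1 - ((nb fd Y u).card : ℝ) / D := by
    have : ((nb fd Y u).card : ℝ) / D ≤ 1 := (div_le_one hD0).2 hcard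
    linarith
  have hS : 0 ≤ (∑ i ∈ (hi fd D X Y).erase u, (Fk 1 ((cF fd fd D X Y i : ℝ) / D) -
      Fk 1 ((cF fd fd D X Y i : ℝ) / D + ((nb fd Y i ∩ nb fd Y u).card : ℝ) / D))) / D := by
    refine div_nonneg (sum_nonneg fun i _ => ?_) hD0.le
    have h8 := f2 ((cF fd fd D X Y i : ℝ) / D)
      ((cF fd fd D X Y i : ℝ) / D + ((nb fd Y i ∩ nb fd Y u).card : ℝ) / D)
      (le_add_of_nonneg_right (by positivity))
    linarith
  have hcc' : (cF fd fd D X Y u : ℝ) / D ≤ (cF adj fd D X Y u : ℝ) / D := by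
    refine div_le_div_of_nonneg_right ?_ hD0.le
    exact_mod_cast hcc
  have hin' : PW fd D m θ (X.erase u) (Y \ nb adj Y u) +
      (7 + (cF fd fd D X Y u : ℝ) / D / 10) ≤ PW fd D m θ X Y := by
    linarith
  have win := wt_le hin'
  have e7 : Real.exp (-(7 + (cF fd fd D X Y u : ℝ) / D / 10)) =
      Real.exp (-7) * Real.exp (-((cF fd fd D X Y u : ℝ) / D / 10)) := by
    rw [← Real.exp_add]
    congr 1
    ring
  rw [e7] at win
  have hE7 : 0 < Real.exp (-7) := Real.exp_pos _
  have hc0 : (0 : ℝ) ≤ (cF fd fd D X Y u : ℝ) / D / 10 := by positivity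
  have he1 : Real.exp (-((cF fd fd D X Y u : ℝ) / D / 10)) ≤ 1 :=
    Real.exp_le_one_iff.2 (by linarith)
  have he0 := Real.exp_pos (-((cF fd fd D X Y u : ℝ) / D / 10))
  have h5 : 1 * WW fd D m θ X Y ≤ gr g * WW fd D m θ X Y :=
    mul_le_mul_of_nonneg_right hgr hW.le
  rcases le_or_gt (2 * (nb fd Y u).card) D with h2 | h2
  · -- few edges of the matching
    have h2' : 2 * ((nb fd Y u).card : ℝ) ≤ D := by exact_mod_cast h2
    have hr1 : 1 / 2 ≤ 1 - ((nb fd Y u).card : ℝ) / D := by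
      have : ((nb fd Y u).card : ℝ) / D ≤ 1 / 2 := by
        rw [div_le_iff₀ hD0]
        linarith
      linarith
    have hout' : PW fd D m θ (X.erase u) Y + 7 / 40 ≤ PW fd D m θ X Y := by
      unfold PW
      linarith
    have wout := wt_le hout'
    have h1 : Real.exp (-(7 / 40 : ℝ)) ≤ 1 - 7 / 40 / 2 := f5 (7 / 40) (by norm_num)
      (by norm_num)
    have h3 : WW fd D m θ (X.erase u) Y ≤ (1 - 7 / 40 / 2) * WW fd D m θ X Y :=
      wout.trans (mul_le_mul_of_nonneg_right h1 hW.le)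
    have h6 : Real.exp (-7) *
        Real.exp (-((cF fd fd D X Y u : ℝ) / D / 10)) ≤ 1 / 800 * 1 :=
      mul_le_mul f6 he1 he0.le (by norm_num)
    have h4 : WW fd D m θ (X.erase u) (Y \ nb adj Y u) ≤
        1 / 800 * 1 * WW fd D m θ X Y :=
      win.trans (mul_le_mul_of_nonneg_right h6 hW.le)
    linarith
  · -- many edges of the matching
    have huf : u ∈ hi fd D X Y := by
      unfold hi
      rw [mem_filter]
      exact ⟨huX, by omega⟩
    obtain ⟨hmax, hmax'⟩ := hor.resolve_left (by omega)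
    rcases le_or_gt (cF fd fd D X Y u) (10 * g * D) with hle | hgt
    · -- small inner cost
      have hov := v_OVL fd fd n D 1 g hRf hD X Y hX hY u huf hle hmax' h2
      have hgai := v_GAI fd fd n D 1 hRf hD1 le_rfl X Y hX hY u huf hmax hov
      rw [Nat.cast_one, mul_one] at hgai
      have hout' : PW fd D m θ (X.erase u) Y +
          (∑ i ∈ (hi fd D X Y).erase u, (Fk 1 ((cF fd fd D X Y i : ℝ) / D) -
            Fk 1 ((cF fd fd D X Y i : ℝ) / D +
              ((nb fd Y i ∩ nb fd Y u).card : ℝ) / D))) / D ≤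
          PW fd D m θ X Y := by
        unfold PW
        linarith
      have wout := wt_le hout'
      generalize Real.exp (-((cF fd fd D X Y u : ℝ) / D / 10)) = e at win hgai he1 he0
      generalize (∑ i ∈ (hi fd D X Y).erase u, (Fk 1 ((cF fd fd D X Y i : ℝ) / D) -
          Fk 1 ((cF fd fd D X Y i : ℝ) / D + ((nb fd Y i ∩ nb fd Y u).card : ℝ) / D))) / D =
          S at wout hgai
      have hq0 : 0 ≤ 1 / (200 : ℝ) * e := by positivity
      have hq1 : 1 / (200 : ℝ) * e ≤ 1 := by linarith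
      have h1 : Real.exp (-S) ≤ 1 - 1 / (200 : ℝ) * e / 2 :=
        le_trans (Real.exp_le_exp.2 (by linarith)) (f5 (1 / (200 : ℝ) * e) hq0 hq1)
      have h2 : Real.exp (-7) * e ≤ 1 / 800 * e := mul_le_mul_of_nonneg_right f6 he0.le
      have h3 : WW fd D m θ (X.erase u) Y ≤
          (1 - 1 / (200 : ℝ) * e / 2) * WW fd D m θ X Y :=
        wout.trans (mul_le_mul_of_nonneg_right h1 hW.le)
      have h4 : WW fd D m θ (X.erase u) (Y \ nb adj Y u) ≤
          1 / 800 * e * WW fd D m θ X Y :=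
        win.trans (mul_le_mul_of_nonneg_right h2 hW.le)
      have h6 : (1 - 1 / (200 : ℝ) * e / 2) * WW fd D m θ X Y +
          1 / 800 * e * WW fd D m θ X Y ≤ 1 * WW fd D m θ X Y := by
        have h7 : 0 ≤ e * WW fd D m θ X Y := mul_nonneg he0.le hW.le
        linarith
      linarith
    · -- large inner cost
      have hc : (g : ℝ) ≤ (cF fd fd D X Y u : ℝ) / D / 10 := by
        have h1 : ((10 * g * D : ℕ) : ℝ) ≤ cF fd fd D X Y u := by exact_mod_cast hgt.le
        push_cast at h1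
        rw [le_div_iff₀ (by norm_num : (0 : ℝ) < 10), le_div_iff₀ hD0]
        linarith
      have he : Real.exp (-((cF fd fd D X Y u : ℝ) / D / 10)) ≤ Real.exp (-(g : ℝ)) :=
        Real.exp_le_exp.2 (by linarith)
      have hg0 := Real.exp_pos (-(g : ℝ))
      have h7 : Real.exp (-7) ≤ 1 := by linarith
      have h2 : Real.exp (-7) *
          Real.exp (-((cF fd fd D X Y u : ℝ) / D / 10)) ≤ 1 * Real.exp (-(g : ℝ)) :=
        mul_le_mul h7 he (Real.exp_pos _).le zero_le_one
      have h4 : WW fd D m θ (X.erase u) (Y \ nb adj Y u) ≤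
          1 * Real.exp (-(g : ℝ)) * WW fd D m θ X Y :=
        win.trans (mul_le_mul_of_nonneg_right h2 hW.le)
      have hout' : PW fd D m θ (X.erase u) Y + 0 ≤ PW fd D m θ X Y := by
        unfold PW
        linarith
      have wout := wt_le hout'
      have h3 : WW fd D m θ (X.erase u) Y ≤ 1 * WW fd D m θ X Y :=
        wout.trans (mul_le_mul_of_nonneg_right (Real.exp_le_one_iff.2 (by linarith)) hW.le)
      have h6 : gr g * WW fd D m θ X Y = 1 * WW fd D m θ X Y +
          1 * Real.exp (-(g : ℝ)) * WW fd D m θ X Y := by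
        unfold gr
        ring
      linarith

end Pool.Agent.BisRk
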