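import Pool.Agent.BisRk.Targets
import Pool.Agent.BisRt.P_KID
import Pool.Agent.BisRt.P_CSK

/-!
# One step and the weights (target STW of the project BisRk)
-/

set_option autoImplicit false

namespace Pool.Agent.BisRk

open Finset Pool.Agent.PT Pool.Agent.BisTh Pool.Agent.BisRg Pool.Agent.BisRt Pool.Agent.BisRf

namespace STW_

theorem one_le_gr (g : ℕ) : 1 ≤ gr g := by
  unfold gr
  have := Real.exp_pos (-(g : ℝ))
  linarith

theorem Mf_nonneg (m D g K N : ℕ) : 0 ≤ Mf m D g K N := by
  unfold Mf
  have h1 := one_le_gr g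
  positivity

theorem dropped (h_CBD : K_CBD) (h_WRT : K_WRT) (v_LNK : V_LNK) {R : List (List Bool)}
    {F : List (ℕ × ℕ)} {n N D c g K N' : ℕ} {Ml : List ℕ} (hR : FSub (aj R) (aF F) n D)
    (hd : 125 * g + 10 ≤ D) (hN : D ≤ N) {s : SI} (hs : GoodS n s)
    (hlen : s.1.length + s.2.length ≤ N') (h0 : 0 ≤ SG F D (Ml.length + c) s)
    (hK : ¬ keep D K (List.range N) Ml F s = true) :
    (cs R s : ℝ) ≤ Mf (Ml.length + c) D g K N' * WN F D (Ml.length + c) (3 / 5) s := by
  have hd1 : 1 ≤ D := by omega
  obtain ⟨hpos, hcmp, -⟩ := (h_WRT F D (Ml.length + c) hd1).1 s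
  have hE := (v_LNK R F n N D s hs hN).2.2.2 K c Ml hd1
  rw [hE, not_le] at hK
  have h1 := h_CBD R F n N D (Ml.length + c) g hR hd hN s hs h0
  have hg := one_le_gr g
  have hpow : gr g ^ (s.1.length + s.2.length) ≤ gr g ^ N' :=
    pow_le_pow_right₀ hg hlen
  have hexp : Real.exp (-(9 / 100 * SG F D (Ml.length + c) s)) ≤
      Real.exp (-(9 / 100 * ((K : ℝ) / D))) := by
    apply Real.exp_le_exp.2
    have hc0 : (0 : ℝ) ≤ c := Nat.cast_nonneg c
    linarith
  have hg0 : 0 ≤ gr g := by linarith
  calc (cs R s : ℝ) ≤ 2 ^ (Ml.length + c) * gr g ^ (s.1.length + s.2.length) *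
        WN F D (Ml.length + c) (69 / 100) s := h1
    _ = 2 ^ (Ml.length + c) * gr g ^ (s.1.length + s.2.length) *
        (Real.exp (-(9 / 100 * SG F D (Ml.length + c) s)) *
          WN F D (Ml.length + c) (3 / 5) s) := by rw [hcmp]
    _ ≤ 2 ^ (Ml.length + c) * gr g ^ N' *
        (Real.exp (-(9 / 100 * ((K : ℝ) / D))) * WN F D (Ml.length + c) (3 / 5) s) := by
        gcongr
    _ = Mf (Ml.length + c) D g K N' * WN F D (Ml.length + c) (3 / 5) s := by
        unfold Mf
        ring

theorem filt (h_CBD : K_CBD) (h_WRT : K_WRT) (v_LNK : V_LNK) {R : List (List Bool)}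
    {F : List (ℕ × ℕ)} {n N D c g K N' : ℕ} {Ml : List ℕ} (hR : FSub (aj R) (aF F) n D)
    (hd : 125 * g + 10 ≤ D) (hN : D ≤ N) (l : List SI)
    (hl : ∀ s ∈ l, GoodS n s ∧ s.1.length + s.2.length ≤ N' ∧
      0 ≤ SG F D (Ml.length + c) s) :
    ((l.filter fun s' => keep D K (List.range N) Ml F s').map
      (WN F D (Ml.length + c) (3 / 5))).sum ≤
      (l.map (WN F D (Ml.length + c) (3 / 5))).sum ∧
    (((l.map (cs R)).sum : ℕ) : ℝ) + Mf (Ml.length + c) D g K N' *
      ((l.filter fun s' => keep D K (List.range N) Ml F s').map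
        (WN F D (Ml.length + c) (3 / 5))).sum ≤
      ((l.filter fun s' => keep D K (List.range N) Ml F s').map
        fun s' => (cs R s' : ℝ)).sum + Mf (Ml.length + c) D g K N' *
          (l.map (WN F D (Ml.length + c) (3 / 5))).sum := by
  induction l with
  | nil => simp
  | cons s l ih =>
    obtain ⟨i1, i2⟩ := ih (fun s' h' => hl s' (List.mem_cons_of_mem _ h'))
    obtain ⟨hs, hlen, h0⟩ := hl s List.mem_cons_self
    have hd1 : 1 ≤ D := by omega
    have hpos := ((h_WRT F D (Ml.length + c) hd1).1 s).1
    by_cases hK : keep D K (List.range N) Ml F s = true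
    · have hf : (s :: l).filter (fun s' => keep D K (List.range N) Ml F s') =
          s :: l.filter (fun s' => keep D K (List.range N) Ml F s') := by
        rw [List.filter_cons_of_pos]
        exact hK
      rw [hf]
      simp only [List.map_cons, List.sum_cons, Nat.cast_add]
      constructor
      · linarith
      · nlinarith
    · have hf : (s :: l).filter (fun s' => keep D K (List.range N) Ml F s') =
          l.filter (fun s' => keep D K (List.range N) Ml F s') := by
        rw [List.filter_cons_of_neg]
        exact hK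
      have hdr := dropped (K := K) (N' := N') h_CBD h_WRT v_LNK hR hd hN hs hlen h0 hK
      rw [hf]
      simp only [List.map_cons, List.sum_cons, Nat.cast_add]
      constructor
      · linarith
      · nlinarith

end STW_

open STW_ in
theorem k_STW (v_LNK : V_LNK) (h_BST : K_BST) (h_WKD : K_WKD) (h_CBD : K_CBD)
    (h_WRT : K_WRT) : K_STW := by
  have h_KID : T_KID := p_KID
  have h_CSK : T_CSK := p_CSK
  intro R F n N D c g K N' Ml hR hd hN s hs hlen h0
  have hd1 : 1 ≤ D := by omega
  have hpos := ((h_WRT F D (Ml.length + c) hd1).1 s).1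
  have hg := one_le_gr g
  have hM := Mf_nonneg (Ml.length + c) D g K N'
  by_cases hC : candsK D (List.range N) R F s = []
  · have hst : stepK D K (List.range N) Ml R F s = [s] := by
      unfold stepK
      rw [hC]
      rfl
    rw [hst]
    simp only [List.map_cons, List.map_nil, List.sum_cons, List.sum_nil, add_zero]
    have h1 : WN F D (Ml.length + c) (3 / 5) s ≤
        gr g * WN F D (Ml.length + c) (3 / 5) s := by nlinarith
    refine ⟨?_, h1, ?_⟩
    · intro s' hs'
      rw [List.mem_singleton] at hs'
      rw [hs']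
      exact h0
    · have h2 := mul_le_mul_of_nonneg_left h1 hM
      linarith
  · have hst : stepK D K (List.range N) Ml R F s =
        (kids R (best (candsK D (List.range N) R F s)) s).filter
          (fun s' => keep D K (List.range N) Ml F s') := by
      unfold stepK
      have : (candsK D (List.range N) R F s).isEmpty = false := by
        rw [Bool.eq_false_iff]
        intro h
        exact hC (List.isEmpty_iff.1 h)
      rw [this]
      rfl
    have hch := (h_BST R F n N D s hR.1 hs hN).2 hC
    have hW := h_WKD R F n D (Ml.length + c) g hR hd (3 / 5) le_rfl s _ hs hch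
    have key : (∀ s' ∈ kids R (best (candsK D (List.range N) R F s)) s, GoodS n s' ∧
          s'.1.length + s'.2.length ≤ s.1.length + s.2.length) ∧
        ((kids R (best (candsK D (List.range N) R F s)) s).map (cs R)).sum = cs R s := by
      generalize best (candsK D (List.range N) R F s) = e at hch hW ⊢
      obtain ⟨b, u, m⟩ := e
      cases b with
      | false =>
        have hu : u ∈ s.1 := by
          have := (hch.1 rfl).1
          unfold hi at this
          exact List.mem_toFinset.1 (Finset.mem_filter.1 this).1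
        obtain ⟨s₁, s₂, hk, g1, g2, -, -, -, -, l1, l2⟩ := (h_KID R n s hs).1 u m hu
        refine ⟨?_, (h_CSK R s hs.1 hs.2.1).1 u m hu⟩
        rw [hk]
        intro s' hs'
        simp only [List.mem_cons, List.not_mem_nil, or_false] at hs'
        rcases hs' with rfl | rfl
        · exact ⟨g1, l1.le⟩
        · exact ⟨g2, l2.le⟩
      | true =>
        have hu : u ∈ s.2 := by
          have := (hch.2 rfl).1
          unfold hi at this
          exact List.mem_toFinset.1 (Finset.mem_filter.1 this).1
        obtain ⟨s₁, s₂, hk, g1, g2, -, -, -, -, l1, l2⟩ := (h_KID R n s hs).2 u m hu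
        refine ⟨?_, (h_CSK R s hs.1 hs.2.1).2 u m hu⟩
        rw [hk]
        intro s' hs'
        simp only [List.mem_cons, List.not_mem_nil, or_false] at hs'
        rcases hs' with rfl | rfl
        · exact ⟨g1, l1.le⟩
        · exact ⟨g2, l2.le⟩
    obtain ⟨kg, kc⟩ := key
    have kall : ∀ s' ∈ kids R (best (candsK D (List.range N) R F s)) s, GoodS n s' ∧
        s'.1.length + s'.2.length ≤ N' ∧ 0 ≤ SG F D (Ml.length + c) s' := by
      intro s' hs'
      exact ⟨(kg s' hs').1, (kg s' hs').2.trans hlen, h0.trans (hW.2 s' hs')⟩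
    obtain ⟨f1, f2⟩ := filt (K := K) (N' := N') h_CBD h_WRT v_LNK hR hd hN _ kall
    rw [hst]
    rw [kc] at f2
    refine ⟨?_, f1.trans hW.1, ?_⟩
    · intro s' hs'
      exact (kall s' (List.mem_filter.1 hs').1).2.2
    · have h2 := mul_le_mul_of_nonneg_left hW.1 hM
      linarith

end Pool.Agent.BisRk
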