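import Pool.Agent.BisRk.Targets
import Pool.Agent.BisRf.P_WKD
import Pool.Agent.BisRf.P_REG

/-!
# The weights of the children, no bound for the degrees
-/

set_option autoImplicit false

namespace Pool.Agent.BisRk

open Finset Pool.Agent.PT Pool.Agent.BisTh Pool.Agent.BisRg Pool.Agent.BisRt Pool.Agent.BisRf

theorem k_WKD (h_STP : K_STP) (h_REG : K_REG) (h_SYM : V_SYM) (h_OUT : V_OUT)
    (h_INN : V_INN) : K_WKD := by
  intro R F n D m g hF hg θ hθ s c hs hc
  obtain ⟨b, u, k⟩ := c
  obtain ⟨hc1, hc2⟩ := hc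
  have hD : 1 ≤ D := by omega
  obtain ⟨-, hR, hF'⟩ := h_REG (aj R) (aF F) n D hF hD
  obtain ⟨-, hR', -⟩ := h_REG (tr (aj R)) (tr (aF F)) n D hF' hD
  have hX : s.1.toFinset ⊆ range n := fun i hi => by
    rw [List.mem_toFinset] at hi
    exact mem_range.2 (hs.2.2.1 i hi)
  have hY : s.2.toFinset ⊆ range n := fun i hi => by
    rw [List.mem_toFinset] at hi
    exact mem_range.2 (hs.2.2.2 i hi)
  obtain ⟨hK1, hK2⟩ := p_KID R n s hs
  cases b with
  | false =>
    have hB := hc1 rfl
    simp only at hB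
    have huX : u ∈ s.1.toFinset := (mem_filter.1 hB.1).1
    have hu' : u ∈ s.1 := by rwa [List.mem_toFinset] at huX
    obtain ⟨s₁, s₂, h1, -, -, h2, h3, h4, h5, -, -⟩ := hK1 u k hu'
    have key := h_STP (aj R) (aF F) n D m g hF hg θ hθ s.1.toFinset s.2.toFinset hX hY u hB
    have hsl := Pool.Agent.BisRf.WKD_.slack v_REG h_OUT h_INN m hR hD hX hY huX
    rw [h1]
    refine ⟨?_, ?_⟩
    · simp only [List.map_cons, List.map_nil, List.sum_cons, List.sum_nil, add_zero]
      unfold WN
      rw [h2, h3, h4, h5]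
      exact key
    · intro s' hs'
      rw [List.mem_cons, List.mem_singleton] at hs'
      unfold SG
      rcases hs' with rfl | rfl
      · rw [h2, h3]
        exact hsl.1
      · rw [h4, h5]
        exact hsl.2
  | true =>
    have hB := hc2 rfl
    simp only at hB
    have huY : u ∈ s.2.toFinset := (mem_filter.1 hB.1).1
    have hu' : u ∈ s.2 := by rwa [List.mem_toFinset] at huY
    obtain ⟨s₁, s₂, h1, -, -, h2, h3, h4, h5, -, -⟩ := hK2 u k hu'
    have key := h_STP (tr (aj R)) (tr (aF F)) n D m g hF' hg θ hθ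
      s.2.toFinset s.1.toFinset hY hX u hB
    have hW := fun X Y => (h_SYM (aF F) (aF F) D 1 m θ X Y).2
    have hG := fun X Y => (h_SYM (aF F) (aF F) D 1 m θ X Y).1
    have hsl := Pool.Agent.BisRf.WKD_.slack v_REG h_OUT h_INN m hR' hD hY hX huY
    rw [h1]
    refine ⟨?_, ?_⟩
    · simp only [List.map_cons, List.map_nil, List.sum_cons, List.sum_nil, add_zero]
      unfold WN WW
      rw [h2, h3, h4, h5, hW, hW, hW]
      exact key
    · intro s' hs'
      rw [List.mem_cons, List.mem_singleton] at hs'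
      unfold SG
      rcases hs' with rfl | rfl
      · rw [h2, h3, hG, hG]
        exact hsl.1
      · rw [h4, h5, hG, hG]
        exact hsl.2

end Pool.Agent.BisRk
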