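import Pool.Agent.BisRk.Targets
import Pool.Agent.BisRf.P_WRT

/-!
# MP_29585b_lc, BRK: elementary facts on the weights
-/

set_option autoImplicit false

namespace Pool.Agent.BisRk

open Finset Pool.Agent.PT Pool.Agent.BisTh Pool.Agent.BisRg Pool.Agent.BisRt Pool.Agent.BisRf

theorem k_WRT (v_FFF : V_FFF) : K_WRT := by
  intro F D m hD
  have hD0 : (0 : ℝ) < D := by exact_mod_cast hD
  refine ⟨fun s => ⟨Real.exp_pos _, ?_, fun θ => ?_⟩, fun a b hs => ?_⟩
  · unfold WN WW Wk
    rw [← Real.exp_add]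
    congr 1
    unfold Pk SG
    ring
  · unfold WN WW Wk
    apply Real.exp_le_exp.mpr
    unfold Pk SG
    have h1 : 0 ≤ (30 + 5 * (Nat.size 1 : ℝ)) *
        (((s.1.toFinset.card : ℝ) + s.2.toFinset.card) / D) := by positivity
    have h2 : 0 ≤ (Sk (aF F) (aF F) D 1 s.1.toFinset s.2.toFinset +
        Sk (tr (aF F)) (tr (aF F)) D 1 s.2.toFinset s.1.toFinset) / D :=
      div_nonneg (add_nonneg (BisRf.WRT_.Sk_nonneg v_FFF le_rfl _ _ _ _ _)
        (BisRf.WRT_.Sk_nonneg v_FFF le_rfl _ _ _ _ _)) hD0.le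
    linarith
  · unfold WN WW Wk
    apply Real.exp_le_exp.mpr
    unfold SG at hs
    unfold Pk
    have hX := BisRf.WRT_.card_root a
    have hY := BisRf.WRT_.card_root b
    simp only at hs ⊢
    set X := (List.range a).toFinset with hXdef
    set Y := (List.range b).toFinset with hYdef
    have h1 : Sk (aF F) (aF F) D 1 X Y ≤ 5 / 2 * a := by
      have := BisRf.WRT_.Sk_le v_FFF le_rfl (aF F) (aF F) D X Y
      rwa [hX] at this
    have h2 : Sk (tr (aF F)) (tr (aF F)) D 1 Y X ≤ 5 / 2 * b := by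
      have := BisRf.WRT_.Sk_le v_FFF le_rfl (tr (aF F)) (tr (aF F)) D Y X
      rwa [hY] at this
    have h4 : (Sk (aF F) (aF F) D 1 X Y + Sk (tr (aF F)) (tr (aF F)) D 1 Y X) / D ≤
        5 / 2 * (((a : ℝ) + b) / D) := by
      rw [← mul_div_assoc]
      gcongr
      linarith
    have hsz : (Nat.size 1 : ℝ) = 1 := by
      have : Nat.size 1 = 1 := by decide
      rw [this]
      norm_num
    have h6 : (0 : ℝ) ≤ ((a : ℝ) + b) / D := by positivity
    have h7 : 38 * (((1 * (a + b) : ℕ) : ℝ) / (D : ℝ)) = 38 * (((a : ℝ) + b) / D) := by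
      push_cast
      ring
    rw [h7, hX, hY, hsz]
    linarith

end Pool.Agent.BisRk
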