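import Pool.Agent.BisRk.Targets2

/-!
# The two forms of the matching condition

MP_29585b_lc, project BRK, block DUL.
-/

set_option autoImplicit false

namespace Pool.Agent.BisRk

open Finset Pool.Agent.PT Pool.Agent.BisTh Pool.Agent.BisRg Pool.Agent.BisRt Pool.Agent.BisRf

theorem l_DUL : L_DUL := by
  rintro G D m ⟨f, h0, h1, h2, h3, h4, h5⟩
  have ha : ∑ i, ∑ j, f i j ≤ (G.a : ℚ) := by
    have h := Finset.sum_le_sum fun (i : Fin G.a) (_ : i ∈ Finset.univ) => h3 i
    simpa using h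
  have hb : ∑ i, ∑ j, f i j ≤ (G.b : ℚ) := by
    rw [Finset.sum_comm]
    have h := Finset.sum_le_sum fun (j : Fin G.b) (_ : j ∈ Finset.univ) => h4 j
    simpa using h
  have hb' : G.b ≤ m := by
    have h : (G.b : ℚ) ≤ m := by
      push_cast at h5
      linarith
    exact_mod_cast h
  have ha' : G.a ≤ m := by
    have h : (G.a : ℚ) ≤ m := by
      push_cast at h5
      linarith
    exact_mod_cast h
  have hm : max G.a G.b ≤ m := max_le ha' hb'
  refine ⟨hm, f, h0, h1, h2, h3, h4, ?_⟩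
  have h6 : min G.a G.b + max G.a G.b = G.a + G.b := min_add_max _ _
  have h7 : ((min G.a G.b : ℕ) : ℚ) + ((max G.a G.b : ℕ) : ℚ) = ((G.a + G.b : ℕ) : ℚ) := by
    exact_mod_cast h6
  rw [Nat.cast_sub hm]
  linarith

end Pool.Agent.BisRk
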