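import Pool.Agent.BisRk.Targets2

/-!
# S14: the machine for all graphs with a spread fractional matching, general parameter

MP_29585b_lc.
-/

set_option autoImplicit false

namespace Pool.Agent.BisRk

open Finset Pool.Agent.PT Pool.Agent.BisTh Pool.Agent.BisRg Pool.Agent.BisRt Pool.Agent.BisRf

namespace LS14_

/-- The value of the algorithm on an instance. -/
def algQG (x : Bip × ℕ × ℕ) : ℕ :=
  algQ (List.replicate x.2.2 true) (List.replicate x.2.1 true) (List.replicate x.1.b true)
    (rowsOf x.1)

theorem tm_algQ (h_PTX : L_PTX) :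
    Nonempty (Turing.TM2ComputableInPolyTime encInput₂ encNat algQG) := by
  have hC : Fact Core := ⟨core⟩
  have h1 : PolyF (fun w : List Letter =>
      encNat (algQ (ST1_.parse₂ w).1 (ST1_.parse₂ w).2.1 (ST1_.parse₂ w).2.2.1
        (ST1_.parse₂ w).2.2.2)) := by
    have h2 := (h_PTX hC).comp (ST1_.parse₂_pt (hC := hC))
    exact h2.bits
  refine tm_of_polyF h1 encInput₂ encNat _ fun x => ?_
  rw [ST1_.parse₂_encInput₂]
  rfl

theorem length_rowsOf (G : Bip) : (rowsOf G).length = G.a := by
  simp [rowsOf]

theorem length_rows (G : Bip) : ∀ u ∈ rowsOf G, u.length = G.b := by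
  intro u hu
  simp only [rowsOf, List.mem_map] at hu
  obtain ⟨i, -, rfl⟩ := hu
  simp [rowOf]

end LS14_

theorem l_S14 (h_PTX : L_PTX) (h_ALT : L_ALT) (h_DUL : L_DUL) : L_S14 := by
  refine ⟨LS14_.algQG, LS14_.tm_algQ h_PTX, fun G t w => ?_⟩
  have hla := LS14_.length_rowsOf G
  have hlb : (List.replicate G.b true).length = G.b := List.length_replicate
  have hrow : ∀ u ∈ rowsOf G, u.length = (List.replicate G.b true).length :=
    fun u hu => (LS14_.length_rows G u hu).trans hlb.symm
  refine ⟨?_, fun D M c k hD hM hS hk hw => ?_⟩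
  · have h := h_ALT.1 (List.replicate w true) (List.replicate t true) (List.replicate G.b true)
      (rowsOf G) hrow
    rw [List.length_replicate, ← count_eq] at h
    exact h
  · obtain ⟨hm, hsp⟩ := h_DUL G D (M + c) hS
    have h := h_ALT.2 D M c (M + c - max G.a G.b) k (List.replicate w true)
      (List.replicate t true) (List.replicate G.b true) (rowsOf G) hrow hD
      (p_DUL G D (M + c - max G.a G.b) hsp)
      (by
        rw [hla, hlb]
        omega)
      (by
        rw [hlb, ← count_eq]
        exact hM)
      (by
        rw [hla, hlb]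
        exact hk)
      (by
        rw [List.length_replicate]
        exact hw)
    rw [List.length_replicate, List.length_replicate, ← count_eq] at h
    exact h

end Pool.Agent.BisRk
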