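import Pool.Agent.BisRf.Main
import Pool.Agent.BisRk.P_REG
import Pool.Agent.BisRk.P_INN
import Pool.Agent.BisRk.P_DPI
import Pool.Agent.BisRk.P_STP
import Pool.Agent.BisRk.P_LNK
import Pool.Agent.BisRk.P_BST
import Pool.Agent.BisRk.P_WKD
import Pool.Agent.BisRk.P_WRT
import Pool.Agent.BisRk.P_CBD
import Pool.Agent.BisRk.P_STS
import Pool.Agent.BisRk.P_STW
import Pool.Agent.BisRk.P_RND
import Pool.Agent.BisRk.P_RLB
import Pool.Agent.BisRk.P_FRG
import Pool.Agent.BisRk.P_PTC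
import Pool.Agent.BisRk.P_PTS
import Pool.Agent.BisRk.P_PTR
import Pool.Agent.BisRk.P_S13
import Pool.Agent.BisRk.Q_ERR
import Pool.Agent.BisRk.Q_PTA
import Pool.Agent.BisRk.Q_DUL
import Pool.Agent.BisRk.Q_S14
import Pool.Agent.BisRk.Q_S15

/-!
# Assembly
-/

set_option autoImplicit false

namespace Pool.Agent.BisRk

open Pool.Agent.BisTh Pool.Agent.BisRg Pool.Agent.BisRt Pool.Agent.BisRf

theorem tDPI : K_DPI := k_DPI k_REG k_INN tINN v_FFF
theorem tSTP : K_STP := k_STP k_REG k_INN tDPI tDPO tOVL tGAI v_FFF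
theorem tBST : K_BST := k_BST k_LNK
theorem tWKD : K_WKD := k_WKD tSTP k_REG v_SYM tOUT tINN
theorem tWRT : K_WRT := k_WRT v_FFF
theorem tCBD : K_CBD := k_CBD tBST tWKD v_LFB tWRT
theorem tSTS : K_STS := k_STS tBST
theorem tSTW : K_STW := k_STW v_LNK tBST tWKD tCBD tWRT
theorem tRND : K_RND := k_RND tSTS tSTW v_LNK tBST tWRT
theorem tRLB : K_RLB := k_RLB tSTS
theorem tFRG : K_FRG := k_FRG tMXM
theorem tERR : L_ERR := l_ERR tRND tRLB tCBD tWRT v_LFE v_NUM tMXM tFRG v_LNK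
theorem tPTS : K_PTS := k_PTS k_PTC v_PTC
theorem tPTR : K_PTR := k_PTR tPTS
theorem tPTA : L_PTA := l_PTA v_PTM tPTR

end Pool.Agent.BisRk
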