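import Pool.Agent.BisRk.Targets3

/-!
# MTL: matching number and `D`-matchings

Variant of `Q_S16.lean`: the independent pair `(I, J)` of maximal size with
`(a - |I|) + (b - |J|) ≤ ν` is taken from the proof there; the edges of a `D`-matching are counted
at the vertices outside `I` and outside `J`.
-/

set_option autoImplicit false

namespace Pool.Agent.BisRk

open Finset Pool.Agent.PT Pool.Agent.BisTh Pool.Agent.BisRg Pool.Agent.BisRt Pool.Agent.BisRf

namespace NMTL_

theorem indep_pair (G : Bip) (ν : ℕ) (hν : MatchLe G ν) :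
    ∃ (I : Finset (Fin G.a)) (J : Finset (Fin G.b)),
      (∀ i ∈ I, ∀ j ∈ J, ¬ G.adj i j = true) ∧ (G.a - I.card) + (G.b - J.card) ≤ ν := by
  classical
  obtain ⟨p, hp, hmax⟩ := Finset.exists_max_image
    ((Finset.univ : Finset (Finset (Fin G.a) × Finset (Fin G.b))).filter
      fun p => ∀ i ∈ p.1, ∀ j ∈ p.2, ¬ G.adj i j = true)
    (fun p => p.1.card + p.2.card) ⟨(∅, ∅), by simp⟩
  obtain ⟨I, J⟩ := p
  have hI : ∀ i ∈ I, ∀ j ∈ J, ¬ G.adj i j = true := (Finset.mem_filter.1 hp).2
  have hm : ∀ (I' : Finset (Fin G.a)) (J' : Finset (Fin G.b)),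
      (∀ i ∈ I', ∀ j ∈ J', ¬ G.adj i j = true) → I'.card + J'.card ≤ I.card + J.card :=
    fun I' J' h => hmax (I', J') (Finset.mem_filter.2 ⟨Finset.mem_univ _, h⟩)
  obtain ⟨f, hf, hf'⟩ := LS16_.half (fun i j => G.adj i j = true) I J hI hm
  obtain ⟨g, hg, hg'⟩ := LS16_.half (fun j i => G.adj i j = true) J I
    (fun j hj i hi => hI i hi j hj) (fun J' I' h => by
      have := hm I' J' fun i hi j hj => h j hj i hi
      omega)
  set P1 : Finset (Fin G.a × Fin G.b) :=
    Finset.univ.image fun i : {i // i ∉ I} => (i.1, f i) with hP1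
  set P2 : Finset (Fin G.a × Fin G.b) :=
    Finset.univ.image fun j : {j // j ∉ J} => (g j, j.1) with hP2
  have m1 : ∀ p ∈ P1, p.1 ∉ I ∧ p.2 ∈ J ∧ G.adj p.1 p.2 = true := by
    intro p hp
    obtain ⟨i, -, rfl⟩ := Finset.mem_image.1 hp
    exact ⟨i.2, (hf' i).1, (hf' i).2⟩
  have m2 : ∀ p ∈ P2, p.1 ∈ I ∧ p.2 ∉ J ∧ G.adj p.1 p.2 = true := by
    intro p hp
    obtain ⟨j, -, rfl⟩ := Finset.mem_image.1 hp
    exact ⟨(hg' j).1, j.2, (hg' j).2⟩
  have c1 : P1.card = G.a - I.card := by
    rw [hP1, Finset.card_image_of_injective _ fun i i' h =>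
      Subtype.ext (congrArg Prod.fst h), Finset.card_univ, LS16_.card_compl']
  have c2 : P2.card = G.b - J.card := by
    rw [hP2, Finset.card_image_of_injective _ fun i i' h =>
      Subtype.ext (congrArg Prod.snd h), Finset.card_univ, LS16_.card_compl']
  have hd : Disjoint P1 P2 := by
    rw [Finset.disjoint_left]
    intro p h1 h2
    exact (m1 p h1).1 (m2 p h2).1
  have hle := hν (P1 ∪ P2) (by
      intro p hp
      rcases Finset.mem_union.1 hp with h | h
      · exact (m1 p h).2.2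
      · exact (m2 p h).2.2) (by
      intro p hp q hq he
      rcases Finset.mem_union.1 hp with h | h <;> rcases Finset.mem_union.1 hq with h' | h'
      · obtain ⟨i, -, rfl⟩ := Finset.mem_image.1 h
        obtain ⟨i', -, rfl⟩ := Finset.mem_image.1 h'
        have : i = i' := Subtype.ext he
        rw [this]
      · exact absurd (m2 q h').1 (by rw [← he]; exact (m1 p h).1)
      · exact absurd (m2 p h).1 (by rw [he]; exact (m1 q h').1)
      · obtain ⟨j, -, rfl⟩ := Finset.mem_image.1 h
        obtain ⟨j', -, rfl⟩ := Finset.mem_image.1 h'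
        have : j = j' := hg he
        rw [this]) (by
      intro p hp q hq he
      rcases Finset.mem_union.1 hp with h | h <;> rcases Finset.mem_union.1 hq with h' | h'
      · obtain ⟨i, -, rfl⟩ := Finset.mem_image.1 h
        obtain ⟨i', -, rfl⟩ := Finset.mem_image.1 h'
        have : i = i' := hf he
        rw [this]
      · exact absurd (m1 p h).2.1 (by rw [he]; exact (m2 q h').2.1)
      · exact absurd (m1 q h').2.1 (by rw [← he]; exact (m2 p h).2.1)
      · obtain ⟨j, -, rfl⟩ := Finset.mem_image.1 h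
        obtain ⟨j', -, rfl⟩ := Finset.mem_image.1 h'
        have : j = j' := Subtype.ext he
        rw [this])
  rw [Finset.card_union_of_disjoint hd, c1, c2] at hle
  exact ⟨I, J, hI, hle⟩

theorem dL_cons (e : ℕ × ℕ) (F : List (ℕ × ℕ)) (i : ℕ) :
    dL (e :: F) i = (if e.1 = i then 1 else 0) + dL F i := by
  unfold dL
  rw [List.filter_cons]
  by_cases h : e.1 = i
  · simp [h, Nat.add_comm]
  · simp [h]

theorem dR_cons (e : ℕ × ℕ) (F : List (ℕ × ℕ)) (j : ℕ) :
    dR (e :: F) j = (if e.2 = j then 1 else 0) + dR F j := by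
  unfold dR
  rw [List.filter_cons]
  by_cases h : e.2 = j
  · simp [h, Nat.add_comm]
  · simp [h]

/-- the edges are counted at the vertices of a vertex cover -/
theorem length_le (A C : Finset ℕ) : ∀ F : List (ℕ × ℕ), (∀ e ∈ F, e.1 ∈ A ∨ e.2 ∈ C) →
    F.length ≤ ∑ i ∈ A, dL F i + ∑ j ∈ C, dR F j
  | [], _ => by simp
  | e :: F, h => by
    have ih := length_le A C F fun x hx => h x (List.mem_cons_of_mem _ hx)
    have h1 : ∑ i ∈ A, dL (e :: F) i = (if e.1 ∈ A then 1 else 0) + ∑ i ∈ A, dL F i := by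
      rw [Finset.sum_congr rfl fun i _ => dL_cons e F i, Finset.sum_add_distrib,
        Finset.sum_ite_eq]
    have h2 : ∑ j ∈ C, dR (e :: F) j = (if e.2 ∈ C then 1 else 0) + ∑ j ∈ C, dR F j := by
      rw [Finset.sum_congr rfl fun j _ => dR_cons e F j, Finset.sum_add_distrib,
        Finset.sum_ite_eq]
    rw [h1, h2, List.length_cons]
    rcases h e (List.mem_cons_self ..) with h' | h'
    · rw [if_pos h']; omega
    · rw [if_pos h']; omega

theorem length_rowsOf (G : Bip) : (rowsOf G).length = G.a := by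
  unfold rowsOf
  rw [List.length_map, List.length_finRange]

theorem length_rows (G : Bip) : ∀ u ∈ rowsOf G, u.length = G.b := by
  intro u hu
  unfold rowsOf at hu
  obtain ⟨i, -, rfl⟩ := List.mem_map.1 hu
  unfold rowOf
  rw [List.length_map, List.length_finRange]

theorem mem_edgesL {B : Un} {R : List (List Bool)} {e : ℕ × ℕ} (he : e ∈ edgesL B R) :
    e.1 < R.length ∧ e.2 < B.length ∧ aj R e.1 e.2 = true := by
  unfold edgesL at he
  obtain ⟨i, hi, he⟩ := List.mem_flatMap.1 he
  obtain ⟨j, hj, rfl⟩ := List.mem_map.1 he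
  obtain ⟨hj1, hj2⟩ := List.mem_filter.1 hj
  exact ⟨List.mem_range.1 hi, List.mem_range.1 hj1, hj2⟩

theorem card_co {n : ℕ} (I : Finset (Fin n)) :
    ((Finset.univ \ I).map Fin.valEmbedding).card = n - I.card := by
  rw [Finset.card_map, Finset.card_sdiff_of_subset (Finset.subset_univ _), Finset.card_univ,
    Fintype.card_fin]

end NMTL_

theorem n_MTL (v_MXM : V_MXM) : N_MTL := by
  intro G ν D hν
  obtain ⟨I, J, hI, hle⟩ := NMTL_.indep_pair G ν hν
  have hB : (List.replicate G.b true).length = G.b := List.length_replicate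
  obtain ⟨⟨-, hE, hL, hR⟩, -⟩ := v_MXM D (List.replicate G.b true) (rowsOf G) (by
    rw [hB]; exact NMTL_.length_rows G)
  set F := maxM D (List.replicate G.b true) (rowsOf G) with hF
  have h1 := NMTL_.length_le ((Finset.univ \ I).map Fin.valEmbedding)
    ((Finset.univ \ J).map Fin.valEmbedding) F (by
      intro e he
      obtain ⟨h1, h2, h3⟩ := NMTL_.mem_edgesL (hE e he)
      rw [NMTL_.length_rowsOf] at h1
      rw [hB] at h2
      by_contra hc
      rw [not_or] at hc
      have hi : (⟨e.1, h1⟩ : Fin G.a) ∈ I := by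
        by_contra hn
        exact hc.1 (Finset.mem_map.2 ⟨⟨e.1, h1⟩, Finset.mem_sdiff.2
          ⟨Finset.mem_univ _, hn⟩, rfl⟩)
      have hj : (⟨e.2, h2⟩ : Fin G.b) ∈ J := by
        by_contra hn
        exact hc.2 (Finset.mem_map.2 ⟨⟨e.2, h2⟩, Finset.mem_sdiff.2
          ⟨Finset.mem_univ _, hn⟩, rfl⟩)
      refine hI _ hi _ hj ?_
      rw [← Pool.Agent.BisRt.GRA_.aj_rowsOf G ⟨e.1, h1⟩ ⟨e.2, h2⟩]
      exact h3)
  have h2 : ∑ i ∈ (Finset.univ \ I).map Fin.valEmbedding, dL F i ≤ (G.a - I.card) * D := by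
    rw [← NMTL_.card_co I, ← smul_eq_mul]
    exact Finset.sum_le_card_nsmul _ _ _ fun i _ => hL i
  have h3 : ∑ j ∈ (Finset.univ \ J).map Fin.valEmbedding, dR F j ≤ (G.b - J.card) * D := by
    rw [← NMTL_.card_co J, ← smul_eq_mul]
    exact Finset.sum_le_card_nsmul _ _ _ fun j _ => hR j
  calc F.length ≤ (G.a - I.card) * D + (G.b - J.card) * D := by omega
    _ = D * ((G.a - I.card) + (G.b - J.card)) := by ring
    _ ≤ D * ν := Nat.mul_le_mul_left _ hle

end Pool.Agent.BisRk
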