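import Pool.Agent.BisRk.Targets3
import Pool.Agent.BisRf.P_SYM

/-!
# Project BisRk, block SYM: symmetry of the potential
-/

set_option autoImplicit false

namespace Pool.Agent.BisRk

open Finset Pool.Agent.PT Pool.Agent.BisTh Pool.Agent.BisRg Pool.Agent.BisRt Pool.Agent.BisRf

theorem n_SYM : N_SYM := by
  intro fd n D m θ X Y
  have h1 : sg fd D m X Y = sg (tr fd) D m Y X := (v_SYM fd fd D 1 m θ X Y).1
  have h2 : tr (tr fd) = fd := rfl
  unfold WH PH
  rw [h2, h1, Nat.add_comm (X ∩ hv fd D n).card, add_comm (Sk fd fd D 1 X Y)]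

end Pool.Agent.BisRk
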