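import Pool.Agent.BisRk.Targets
import Pool.Agent.BisRf.P_ALT

/-!
# ALT: the maximum over all `D` and the whole algorithm (variant of `BisRf/P_ALT.lean`)
-/

set_option autoImplicit false

namespace Pool.Agent.BisRk

open Finset Pool.Agent.PT Pool.Agent.BisTh Pool.Agent.BisRg Pool.Agent.BisRt Pool.Agent.BisRf

namespace ALT_

theorem le_algK (D : ℕ) (W T B : Un) (R : List (List Bool)) (hD : D ≤ R.length + B.length) :
    algKD D W T B R ≤ algK W T B R := by
  unfold algK maxL
  refine Pool.Agent.BisRg.ALW_.le_foldl_max _ _ _ (List.mem_map.2 ⟨D, ?_, rfl⟩)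
  rw [List.mem_range, Pool.Agent.BisRf.ALT_.length_eq]
  omega

end ALT_

/-- The whole algorithm. -/
theorem k_ALT (h_ERR : K_ERR) : K_ALT := by
  obtain ⟨e1, e2⟩ := h_ERR
  refine ⟨fun W T B R hR => ?_, fun D c k W T B R hR hD hC hk hW => ?_⟩
  · unfold algZ
    rw [Pool.Agent.BisRf.ALT_.maxL_two]
    refine max_le ?_ (tALW.1 _ _ _ _)
    unfold algK maxL
    refine Pool.Agent.BisRg.ALW_.foldl_max_le _ _ _ (Nat.zero_le _) fun n hn => ?_
    obtain ⟨D, hD, rfl⟩ := List.mem_map.1 hn
    rw [List.mem_range, Pool.Agent.BisRf.ALT_.length_eq] at hD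
    rw [← Pool.Agent.BisRf.ALT_.cs_eq]
    exact e1 D W T B R hR (by omega)
  · have hle1 : algK W T B R ≤ algZ W T B R := by
      unfold algZ
      rw [Pool.Agent.BisRf.ALT_.maxL_two]
      exact le_max_left _ _
    have hle2 : algW (pw 135 W) T B R ≤ algZ W T B R := by
      unfold algZ
      rw [Pool.Agent.BisRf.ALT_.maxL_two]
      exact le_max_right _ _
    have hpow : ∀ m : ℕ, m ≤ 135 * k → 2 ^ m ≤ (pw 135 W).length := by
      intro m hm
      rw [pw_length]
      calc 2 ^ m ≤ 2 ^ (135 * k) := Nat.pow_le_pow_right (by norm_num) hm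
        _ = (2 ^ k) ^ 135 := by rw [← pow_mul, mul_comm]
        _ ≤ W.length ^ 135 := Nat.pow_le_pow_left hW _
    have hbr : R.length + B.length ≤ 135 * k →
        T.length * (cnt R (List.range B.length) - algZ W T B R) ≤
          cnt R (List.range B.length) := fun h =>
      Pool.Agent.BisRf.ALT_.err_mono hle2
        (Pool.Agent.BisRf.ALT_.brute (pw 135 W) T B R (hpow _ (by omega)) (hpow _ (by omega)))
    have hmain : ∀ D' : ℕ, 135 ≤ D' → D' ≤ R.length + B.length → Cond D' c B R →
        R.length + B.length + D' * c ≤ D' * k →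
        T.length * (cnt R (List.range B.length) - algZ W T B R) ≤
          cnt R (List.range B.length) := by
      intro D' h1 h2 h3 h4
      have h8 := e2 D' c k W T B R hR h1 h2 h3 (by rw [one_mul]; exact h4) hW
      rw [Pool.Agent.BisRf.ALT_.cs_eq] at h8
      exact (Pool.Agent.BisRf.ALT_.err_mono ((ALT_.le_algK D' W T B R h2).trans hle1) h8).trans
        (Pool.Agent.BisRg.ALD_.two_pow_le R B)
    by_cases hD135 : D < 135
    · refine hbr ?_
      have h1 : D * k ≤ 135 * k := Nat.mul_le_mul_right _ (by omega)
      omega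
    rcases Nat.eq_zero_or_pos (R.length + B.length) with hN | hN
    · exact hbr (by omega)
    have hck : c + 1 ≤ k := by
      have h1 : D * c < D * k := by omega
      have := Nat.lt_of_mul_lt_mul_left h1
      omega
    by_cases hN135 : R.length + B.length < 135
    · exact hbr (by omega)
    rcases le_total D (R.length + B.length) with h | h
    · exact hmain D (by omega) h hC hk
    · refine hmain (R.length + B.length) (by omega) le_rfl
        (Pool.Agent.BisRg.ALW_.cond_mono hC h) ?_
      calc R.length + B.length + (R.length + B.length) * c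
          = (R.length + B.length) * (c + 1) := by ring
        _ ≤ (R.length + B.length) * k := Nat.mul_le_mul_left _ hck

end Pool.Agent.BisRk
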