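import Pool.Agent.BisRk.Targets
import Pool.Agent.BisRf.P_PTA

/-!
# The value for a fixed `D` in polynomial time
-/

set_option autoImplicit false

namespace Pool.Agent.BisRk

open Finset Pool.Agent.PT Pool.Agent.BisTh Pool.Agent.BisRg Pool.Agent.BisRt Pool.Agent.BisRf

namespace PTA_

section

variable [hC : Fact Core]

/-- Input: `D`, `W`, `T`, `B`, rows. -/
abbrev InA : Type := ℕ × Un × Un × Un × List (List Bool)

theorem rounds_pt (v_PTM : V_PTM) (h_PTR : K_PTR) : PolyF (fun x : InA =>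
    roundsK x.1 (limDG x.1 x.2.1 x.2.2.1 (vG x.2.2.2.1 x.2.2.2.2)) (capG x.2.1 x.2.2.1)
      (vG x.2.2.2.1 x.2.2.2.2) (mG x.2.2.2.1 x.2.2.2.2) x.2.2.2.2
      (maxM x.1 x.2.2.2.1 x.2.2.2.2)
      [(List.range x.2.2.2.2.length, List.range x.2.2.2.1.length)]) := by
  have h0 := h_PTR hC
  have hD : PolyF (fun x : InA => x.1) := by fun_prop
  have hR : PolyF (fun x : InA => x.2.2.2.2) := by fun_prop
  have hs : PolyF (fun x : InA =>
      ((List.range x.2.2.2.2.length, List.range x.2.2.2.1.length) : SI)) :=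
    (PolyF.range_length (by fun_prop)).pair (PolyF.range_length (by fun_prop))
  have hg : PolyF (fun x : InA =>
      ((x.1, limDG x.1 x.2.1 x.2.2.1 (vG x.2.2.2.1 x.2.2.2.2)), capG x.2.1 x.2.2.1,
        vG x.2.2.2.1 x.2.2.2.2, mG x.2.2.2.1 x.2.2.2.2, x.2.2.2.2,
        maxM x.1 x.2.2.2.1 x.2.2.2.2,
        ((List.range x.2.2.2.2.length, List.range x.2.2.2.1.length) : SI))) :=
    (hD.pair BisRf.PTA_.lim_pt).pair (BisRf.PTA_.cap_pt.pair (BisRf.PTA_.vG_pt.pair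
      (BisRf.PTA_.mG_pt.pair (hR.pair ((BisRf.PTA_.maxM_pt v_PTM).pair hs)))))
  exact h0.comp hg

end

end PTA_

theorem k_PTA (v_PTM : V_PTM) (h_PTR : K_PTR) : K_PTA := by
  intro hC
  have h1 := PTA_.rounds_pt (hC := hC) v_PTM h_PTR
  have h2 := PolyF.map (f := fun (x : PTA_.InA) s => toSt x.2.2.2.2 s)
    BisRf.PTA_.toSt_pt h1
  have hTT : PolyF (fun x : PTA_.InA => x.2.2.1 ++ x.2.2.1) := by fun_prop
  have h3 : PolyF (fun p : PTA_.InA × St =>
      leafExp (bud (capG p.1.2.1 p.1.2.2.1) (p.1.2.2.1 ++ p.1.2.2.1)) p.2) :=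
    WPT_.leaf_pt (γ := PTA_.InA) (W := fun x => capG x.2.1 x.2.2.1)
      (T := fun x => x.2.2.1 ++ x.2.2.1) BisRf.PTA_.cap_pt hTT
  have h4 := PolyF.flatMap
    (f := fun (x : PTA_.InA) s =>
      leafExp (bud (capG x.2.1 x.2.2.1) (x.2.2.1 ++ x.2.2.1)) s) h3 h2
  unfold algKD
  exact tot_pt h4

end Pool.Agent.BisRk
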