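import Pool.Agent.BisRk.Targets

/-!
# PTC: the candidates in polynomial time
-/

set_option autoImplicit false

namespace Pool.Agent.BisRk

open Finset Pool.Agent.PT Pool.Agent.BisTh Pool.Agent.BisRg Pool.Agent.BisRt Pool.Agent.BisRf

namespace PTC_

section

variable {γ : Type} [Dat γ] [hC : Fact Core]

theorem ajk {R : γ → List (List Bool)} {i j : γ → ℕ} (hR : PolyF R) (hi : PolyF i)
    (hj : PolyF j) : PolyF (fun x => aj (R x) (i x) (j x)) := by
  unfold aj
  fun_prop

theorem afk {F : γ → List (ℕ × ℕ)} {i j : γ → ℕ} (hF : PolyF F) (hi : PolyF i)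
    (hj : PolyF j) : PolyF (fun x => aF (F x) (i x) (j x)) := by
  unfold aF
  exact PolyF.any (f := fun (x : γ) (e : ℕ × ℕ) => decide (e.1 = i x) && decide (e.2 = j x))
    (by fun_prop) hF

theorem nbrk {R : γ → List (List Bool)} {J : γ → List ℕ} {i : γ → ℕ} (hR : PolyF R)
    (hJ : PolyF J) (hi : PolyF i) : PolyF (fun x => nbr (R x) (J x) (i x)) := by
  unfold nbr
  exact PolyF.filter (f := fun (x : γ) j => aj (R x) (i x) j)
    (ajk (by fun_prop) (by fun_prop) (by fun_prop)) hJ

theorem nblk {R : γ → List (List Bool)} {I : γ → List ℕ} {j : γ → ℕ} (hR : PolyF R)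
    (hI : PolyF I) (hj : PolyF j) : PolyF (fun x => nbl (R x) (I x) (j x)) := by
  unfold nbl
  exact PolyF.filter (f := fun (x : γ) i => aj (R x) i (j x))
    (ajk (by fun_prop) (by fun_prop) (by fun_prop)) hI

theorem frk {F : γ → List (ℕ × ℕ)} {J : γ → List ℕ} {i : γ → ℕ} (hF : PolyF F)
    (hJ : PolyF J) (hi : PolyF i) : PolyF (fun x => fr (F x) (J x) (i x)) := by
  unfold fr
  exact PolyF.filter (f := fun (x : γ) j => aF (F x) (i x) j)
    (afk (by fun_prop) (by fun_prop) (by fun_prop)) hJ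

theorem flk {F : γ → List (ℕ × ℕ)} {I : γ → List ℕ} {j : γ → ℕ} (hF : PolyF F)
    (hI : PolyF I) (hj : PolyF j) : PolyF (fun x => fl (F x) (I x) (j x)) := by
  unfold fl
  exact PolyF.filter (f := fun (x : γ) i => aF (F x) i (j x))
    (afk (by fun_prop) (by fun_prop) (by fun_prop)) hI

theorem gapk {D : γ → ℕ} {V : γ → List ℕ} {m : γ → ℕ} (hD : PolyF D) (hV : PolyF V)
    (hm : PolyF m) : PolyF (fun x => gap (D x) (V x) (m x)) := by
  have h1 : PolyF (fun x => (V x).filter fun t => decide (t < D x)) :=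
    PolyF.filter (f := fun (x : γ) t => decide (t < D x)) (by fun_prop) hV
  unfold gap dl
  exact PolyF.filter (f := fun (x : γ) t => decide (m x ≤ t)) (by fun_prop) h1

theorem bigk {D n : γ → ℕ} (hD : PolyF D) (hn : PolyF n) : PolyF (fun x => big (D x) (n x)) := by
  unfold big
  fun_prop

theorem cstLk {D : γ → ℕ} {V : γ → List ℕ} {F : γ → List (ℕ × ℕ)} {s : γ → SI} {i : γ → ℕ}
    (hD : PolyF D) (hV : PolyF V) (hF : PolyF F) (hs : PolyF s) (hi : PolyF i) :
    PolyF (fun x => cstL (D x) (V x) (F x) (s x) (i x)) := by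
  unfold cstL
  have h1 : PolyF (fun x => fr (F x) (s x).2 (i x)) := frk hF (by fun_prop) hi
  have h3 : PolyF (fun p : γ × ℕ => (fl (F p.1) (s p.1).1 p.2).length) :=
    (flk (by fun_prop) (by fun_prop) (by fun_prop)).length
  have h2 : PolyF (fun p : γ × ℕ => gap (D p.1) (V p.1) (fl (F p.1) (s p.1).1 p.2).length) :=
    gapk (by fun_prop) (by fun_prop) h3
  exact (PolyF.flatMap (f := fun (x : γ) j => gap (D x) (V x) (fl (F x) (s x).1 j).length)
    h2 h1).length

theorem cstRk {D : γ → ℕ} {V : γ → List ℕ} {F : γ → List (ℕ × ℕ)} {s : γ → SI} {j : γ → ℕ}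
    (hD : PolyF D) (hV : PolyF V) (hF : PolyF F) (hs : PolyF s) (hj : PolyF j) :
    PolyF (fun x => cstR (D x) (V x) (F x) (s x) (j x)) := by
  unfold cstR
  have h1 : PolyF (fun x => fl (F x) (s x).1 (j x)) := flk hF (by fun_prop) hj
  have h3 : PolyF (fun p : γ × ℕ => (fr (F p.1) (s p.1).2 p.2).length) :=
    (frk (by fun_prop) (by fun_prop) (by fun_prop)).length
  have h2 : PolyF (fun p : γ × ℕ => gap (D p.1) (V p.1) (fr (F p.1) (s p.1).2 p.2).length) :=
    gapk (by fun_prop) (by fun_prop) h3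
  exact (PolyF.flatMap (f := fun (x : γ) i => gap (D x) (V x) (fr (F x) (s x).2 i).length)
    h2 h1).length

theorem cand1k {D : γ → ℕ} {R : γ → List (List Bool)} {F : γ → List (ℕ × ℕ)} {s : γ → SI}
    (hD : PolyF D) (hR : PolyF R) (hF : PolyF F) (hs : PolyF s) :
    PolyF (fun x => cand1 (D x) (R x) (F x) (s x)) := by
  unfold cand1
  have a1 : PolyF (fun p : γ × ℕ => (nbr (R p.1) (s p.1).2 p.2).length) :=
    (nbrk (by fun_prop) (by fun_prop) (by fun_prop)).length
  have a2 : PolyF (fun p : γ × ℕ => (fr (F p.1) (s p.1).2 p.2).length) :=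
    (frk (by fun_prop) (by fun_prop) (by fun_prop)).length
  have a3 : PolyF (fun p : γ × ℕ => (nbl (R p.1) (s p.1).1 p.2).length) :=
    (nblk (by fun_prop) (by fun_prop) (by fun_prop)).length
  have a4 : PolyF (fun p : γ × ℕ => (fl (F p.1) (s p.1).1 p.2).length) :=
    (flk (by fun_prop) (by fun_prop) (by fun_prop)).length
  have b1 : PolyF (fun p : γ × ℕ => big (D p.1) (nbr (R p.1) (s p.1).2 p.2).length &&
      decide ((fr (F p.1) (s p.1).2 p.2).length + (fr (F p.1) (s p.1).2 p.2).length ≤ D p.1)) :=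
    (bigk (by fun_prop) a1).and ((a2.nat_add a2).nat_le (by fun_prop))
  have b2 : PolyF (fun p : γ × ℕ => big (D p.1) (nbl (R p.1) (s p.1).1 p.2).length &&
      decide ((fl (F p.1) (s p.1).1 p.2).length + (fl (F p.1) (s p.1).1 p.2).length ≤ D p.1)) :=
    (bigk (by fun_prop) a3).and ((a4.nat_add a4).nat_le (by fun_prop))
  have h1 : PolyF (fun x => (s x).1.filter fun i => big (D x) (nbr (R x) (s x).2 i).length &&
      decide ((fr (F x) (s x).2 i).length + (fr (F x) (s x).2 i).length ≤ D x)) :=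
    PolyF.filter (f := fun (x : γ) i => big (D x) (nbr (R x) (s x).2 i).length &&
      decide ((fr (F x) (s x).2 i).length + (fr (F x) (s x).2 i).length ≤ D x)) b1 (by fun_prop)
  have h2 : PolyF (fun x => (s x).2.filter fun j => big (D x) (nbl (R x) (s x).1 j).length &&
      decide ((fl (F x) (s x).1 j).length + (fl (F x) (s x).1 j).length ≤ D x)) :=
    PolyF.filter (f := fun (x : γ) j => big (D x) (nbl (R x) (s x).1 j).length &&
      decide ((fl (F x) (s x).1 j).length + (fl (F x) (s x).1 j).length ≤ D x)) b2 (by fun_prop)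
  have h3 : PolyF (fun p : γ × ℕ => (false, p.2, (0 : ℕ))) :=
    (PolyF.const _).pair ((PolyF.snd PolyF.id).pair (PolyF.const _))
  have h4 : PolyF (fun p : γ × ℕ => (true, p.2, (0 : ℕ))) :=
    (PolyF.const _).pair ((PolyF.snd PolyF.id).pair (PolyF.const _))
  exact PolyF.append
    (PolyF.map (f := fun (_ : γ) (i : ℕ) => (false, i, (0 : ℕ))) h3 h1)
    (PolyF.map (f := fun (_ : γ) (j : ℕ) => (true, j, (0 : ℕ))) h4 h2)

theorem cand2k {D : γ → ℕ} {V : γ → List ℕ} {F : γ → List (ℕ × ℕ)} {s : γ → SI}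
    (hD : PolyF D) (hV : PolyF V) (hF : PolyF F) (hs : PolyF s) :
    PolyF (fun x => cand2 (D x) (V x) (F x) (s x)) := by
  unfold cand2
  have h1 : PolyF (fun x => (s x).1.filter fun i => big (D x) (fr (F x) (s x).2 i).length) := by
    refine PolyF.filter (f := fun (x : γ) i => big (D x) (fr (F x) (s x).2 i).length) ?_
      (by fun_prop)
    exact bigk (by fun_prop) (frk (by fun_prop) (by fun_prop) (by fun_prop)).length
  have h2 : PolyF (fun x => (s x).2.filter fun j => big (D x) (fl (F x) (s x).1 j).length) := by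
    refine PolyF.filter (f := fun (x : γ) j => big (D x) (fl (F x) (s x).1 j).length) ?_
      (by fun_prop)
    exact bigk (by fun_prop) (flk (by fun_prop) (by fun_prop) (by fun_prop)).length
  have h3 : PolyF (fun p : γ × ℕ => (false, p.2, cstL (D p.1) (V p.1) (F p.1) (s p.1) p.2)) :=
    (PolyF.const _).pair ((PolyF.snd PolyF.id).pair
      (cstLk (by fun_prop) (by fun_prop) (by fun_prop) (by fun_prop) (by fun_prop)))
  have h4 : PolyF (fun p : γ × ℕ => (true, p.2, cstR (D p.1) (V p.1) (F p.1) (s p.1) p.2)) :=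
    (PolyF.const _).pair ((PolyF.snd PolyF.id).pair
      (cstRk (by fun_prop) (by fun_prop) (by fun_prop) (by fun_prop) (by fun_prop)))
  exact PolyF.append
    (PolyF.map (f := fun (x : γ) i => (false, i, cstL (D x) (V x) (F x) (s x) i)) h3 h1)
    (PolyF.map (f := fun (x : γ) j => (true, j, cstR (D x) (V x) (F x) (s x) j)) h4 h2)

theorem candsKk {D : γ → ℕ} {V : γ → List ℕ} {R : γ → List (List Bool)}
    {F : γ → List (ℕ × ℕ)} {s : γ → SI}
    (hD : PolyF D) (hV : PolyF V) (hR : PolyF R) (hF : PolyF F) (hs : PolyF s) :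
    PolyF (fun x => candsK (D x) (V x) (R x) (F x) (s x)) := by
  have h1 : PolyF (fun x => cand1 (D x) (R x) (F x) (s x)) := cand1k hD hR hF hs
  have h2 : PolyF (fun x => cand2 (D x) (V x) (F x) (s x)) := cand2k hD hV hF hs
  unfold candsK
  exact PolyF.cond h1.isEmpty h2 h1

end

end PTC_

open PTC_ in
theorem k_PTC : K_PTC := by
  intro hC
  exact candsKk (by fun_prop) (by fun_prop) (by fun_prop) (by fun_prop) (by fun_prop)

end Pool.Agent.BisRk
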