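import Pool.Agent.BisRk.Targets
import Pool.Agent.BisRu.P_PTX

/-!
# Polynomial time: the whole algorithm
-/

set_option autoImplicit false

namespace Pool.Agent.BisRk

open Finset Pool.Agent.PT Pool.Agent.BisTh Pool.Agent.BisRg Pool.Agent.BisRt Pool.Agent.BisRf

namespace PTX_

theorem K_pt (h_PTA : K_PTA) [hC : Fact Core] :
    PolyF (fun x : In₂ => algK x.1 x.2.1 x.2.2.1 x.2.2.2) := by
  have h1 := h_PTA hC
  have h2 : PolyF (fun x : In₂ => List.range (true :: (un x.2.2.2 ++ x.2.2.1)).length) := by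
    refine PolyF.range_length ?_
    fun_prop
  have h4 : PolyF (fun p : In₂ × ℕ => algKD p.2 p.1.1 p.1.2.1 p.1.2.2.1 p.1.2.2.2) :=
    h1.comp (g := fun p : In₂ × ℕ => (p.2, p.1.1, p.1.2.1, p.1.2.2.1, p.1.2.2.2)) (by fun_prop)
  unfold algK
  exact Pool.Agent.BisRt.PTX_.maxL_pt
      (PolyF.map (f := fun (x : In₂) D => algKD D x.1 x.2.1 x.2.2.1 x.2.2.2) h4 h2)

attribute [local irreducible] algK algW pw

theorem gen_pt [hC : Fact Core] (f g : In₂ → ℕ) (hf : PolyF f) (hg : PolyF g) :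
    PolyF (fun x : In₂ => maxL [f x, g x]) := by
  refine Pool.Agent.BisRt.PTX_.maxL_pt ?_
  exact PolyF.cons hf (PolyF.cons hg (PolyF.const _))

end PTX_

theorem k_PTX (h_PTA : K_PTA) : K_PTX := by
  intro hC
  have h6 : PolyF (fun x : In₂ => pw 135 x.1) := pw_pt 135 (PolyF.fst PolyF.id)
  exact PTX_.gen_pt (fun x : In₂ => algK x.1 x.2.1 x.2.2.1 x.2.2.2)
    (fun x : In₂ => algW (pw 135 x.1) x.2.1 x.2.2.1 x.2.2.2) (PTX_.K_pt h_PTA)
    (Pool.Agent.BisRu.PTX_.W_pt (hC := hC) (pw 135) h6)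

end Pool.Agent.BisRk
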