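import Pool.Agent.BisRk.Defs

/-!
# Targets of the project BisRk (MP_29585b_lc)

The targets are variants of targets of `Pool.Agent.BisRf` (copy the file `BisRf/P_XXX.lean` of the
same name and adapt it). The targets `V_...` of BisRf may be used as hypotheses. `FSub adj fd n D`
gives `FReg fd fd n D 1` and `FReg adj fd n D n` (for `1 ≤ D`), so the targets of BisRf can be used
with `adj = fd`, `κ = 1` (for costs in `F`) and with `κ = n` (for `V_INN`).
-/

set_option autoImplicit false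

namespace Pool.Agent.BisRk

open Finset Pool.Agent.PT Pool.Agent.BisTh Pool.Agent.BisRg Pool.Agent.BisRt Pool.Agent.BisRf

/-- The weight of a state. -/
noncomputable def WN (F : List (ℕ × ℕ)) (D m : ℕ) (θ : ℝ) (s : SI) : ℝ :=
  WW (aF F) D m θ s.1.toFinset s.2.toFinset

/-- `u ∈ X` has more than `D / 5` neighbours in `Y`, and either at most `D / 2` edges of `fd`, or
maximal cost in `fd` among all vertices of both sides with more than `D / 5` edges of `fd`. -/
def BestK (adj fd : ℕ → ℕ → Bool) (D : ℕ) (X Y : Finset ℕ) (u : ℕ) : Prop :=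
  u ∈ hi adj D X Y ∧ (2 * (nb fd Y u).card ≤ D ∨
    (∀ i ∈ hi fd D X Y, cF fd fd D X Y i ≤ cF fd fd D X Y u) ∧
    ∀ j ∈ hi (tr fd) D Y X, cF (tr fd) (tr fd) D Y X j ≤ cF fd fd D X Y u)

/-- The chosen vertex (side, vertex, cost). -/
def ChosenK (adj fd : ℕ → ℕ → Bool) (D : ℕ) (X Y : Finset ℕ) (c : Bool × ℕ × ℕ) : Prop :=
  (c.1 = false → BestK adj fd D X Y c.2.1) ∧
  (c.1 = true → BestK (tr adj) (tr fd) D Y X c.2.1)

/-! ### Sets of vertices -/

/-- REG. Elementary (`(nb adj (range n) i).card ≤ n ≤ n * D`). -/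
def K_REG : Prop :=
  ∀ (adj fd : ℕ → ℕ → Bool) (n D : ℕ), FSub adj fd n D → 1 ≤ D →
    FReg fd fd n D 1 ∧ FReg adj fd n D n ∧ FSub (tr adj) (tr fd) n D

/-- INN. Variant of V_INN (2), (3), (4) for the costs in `fd`; `N = nb adj Y u`. (1): for
`j ∈ Y \ N` the vertex `u` is not adjacent to `j`, so `nb (tr fd) (X.erase u) j = nb (tr fd) X j`;
`nb fd Y i` is the disjoint union of `nb fd (Y \ N) i` and `nb fd Y i ∩ N`. (2): the outer index set
`nb (tr fd) X j` does not change, `|nb fd (Y \ N) i| ≤ |nb fd Y i|`. (3): the left side is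
`∑_{j ∈ N} (D - |nb (tr fd) X j|) * |nb (tr fd) X j|`, and `|nb (tr fd) X j| ≤ D`. -/
def K_INN : Prop :=
  ∀ (adj fd : ℕ → ℕ → Bool) (n D : ℕ), FSub adj fd n D → ∀ X Y : Finset ℕ,
    X ⊆ range n → Y ⊆ range n → ∀ u ∈ X,
    (∀ i : ℕ, cF fd fd D (X.erase u) (Y \ nb adj Y u) i +
      ∑ j ∈ nb fd Y i ∩ nb adj Y u, (D - (nb (tr fd) X j).card) = cF fd fd D X Y i) ∧
    (∀ j ∈ Y \ nb adj Y u, cF (tr fd) (tr fd) D Y X j ≤
      cF (tr fd) (tr fd) D (Y \ nb adj Y u) (X.erase u) j) ∧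
    (∑ i ∈ X, ∑ j ∈ nb fd Y i ∩ nb adj Y u, (D - (nb (tr fd) X j).card) ≤
      D * cF adj fd D X Y u) ∧
    cF fd fd D X Y u ≤ cF adj fd D X Y u

/-- DPI (variant of V_DPI, `κ = 1`, with the costs in `fd` and the neighbours in `adj`),
`c = cF adj fd D X Y u / D`. The first term changes by `- θ (1 + c)` (V_INN (1) with `κ = n`); the
second by `- 35 (1 + |N|) / D ≤ - 7` (as `5 |N| > D`). Left side: `hi fd` becomes smaller, the costs
decrease by `s(i) / D`, `∑ s(i) ≤ D cF adj fd u` (K_INN (1), (3)), so the sum of `Fk 1` increases by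
at most `cF adj fd u / 4 = D c / 4`. Right side: the set becomes smaller and the costs do not
decrease (K_INN (2)). Together at most `- θ (1 + c) + c / 4 - 7`. -/
def K_DPI : Prop :=
  ∀ (adj fd : ℕ → ℕ → Bool) (n D m : ℕ), FSub adj fd n D → 1 ≤ D → ∀ θ : ℝ,
    3 / 5 ≤ θ → ∀ X Y : Finset ℕ, X ⊆ range n → Y ⊆ range n → ∀ u ∈ hi adj D X Y,
    PW fd D m θ (X.erase u) (Y \ nb adj Y u) + 7 +
      (cF adj fd D X Y u : ℝ) / D / 10 ≤ PW fd D m θ X Y

/-- STP (variant of V_STP). Always `W(in) ≤ e^(-7) e^(-c/10) W` with `c = cF fd fd u / D` (K_DPI,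
K_INN (4)) and `W(out) ≤ W` (V_DPO with `adj = fd`, `κ = 1`). If `2 |nb fd Y u| ≤ D`:
`W(out) ≤ e^(-7/40) W ≤ (1 - 7/80) W` (the sum in V_DPO is `≥ 0`; `T_FFF` (5) of BisRt) and
`W(in) ≤ W / 400`. Otherwise `u ∈ hi fd D X Y` and the second case of `BestK` holds: if
`cF fd fd u > 10 g D` then `W(in) ≤ e^(-g) W`; if not: V_OVL, V_GAI (`adj = fd`, `κ = 1`) with
`q = e^(-c/10) / 200`, `e^(-q) ≤ 1 - q / 2`, `W(in) ≤ (q / 2) W`. -/
def K_STP : Prop :=
  ∀ (adj fd : ℕ → ℕ → Bool) (n D m g : ℕ), FSub adj fd n D → 125 * g + 10 ≤ D →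
    ∀ θ : ℝ, 3 / 5 ≤ θ → ∀ X Y : Finset ℕ, X ⊆ range n → Y ⊆ range n →
    ∀ u : ℕ, BestK adj fd D X Y u →
    WW fd D m θ (X.erase u) Y + WW fd D m θ (X.erase u) (Y \ nb adj Y u) ≤
      gr g * WW fd D m θ X Y

/-! ### States -/

/-- LNK (variant of V_LNK). -/
def K_LNK : Prop :=
  ∀ (F : List (ℕ × ℕ)) (n N D : ℕ) (s : SI), GoodS n s → D ≤ N →
    (∀ i, cstL D (List.range N) F s i = cF (aF F) (aF F) D s.1.toFinset s.2.toFinset i) ∧
    (∀ j, cstR D (List.range N) F s j =
      cF (tr (aF F)) (tr (aF F)) D s.2.toFinset s.1.toFinset j) ∧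
    (∀ i, (fr F s.2 i).length = (nb (aF F) s.2.toFinset i).card) ∧
    ∀ j, (fl F s.1 j).length = (nb (tr (aF F)) s.1.toFinset j).card

/-- BST (variant of V_BST). If `cand1 ≠ []` the chosen vertex is an element of `cand1` (first case
of `BestK`). If `cand1 = []` and `cand2 ≠ []` it has maximal cost in `cand2`; it has more than
`D / 5` neighbours as `F` is a part of the graph. If both are empty then a vertex with more than
`D / 5` neighbours would have more than `D / 2` edges of `F`, so it would be in `cand2`. -/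
def K_BST : Prop :=
  ∀ (R : List (List Bool)) (F : List (ℕ × ℕ)) (n N D : ℕ) (s : SI),
    (∀ i j, aF F i j = true → aj R i j = true) → GoodS n s → D ≤ N →
    (candsK D (List.range N) R F s = [] → Low R D s) ∧
    (candsK D (List.range N) R F s ≠ [] → ChosenK (aj R) (aF F) D s.1.toFinset s.2.toFinset
      (best (candsK D (List.range N) R F s)))

/-- WKD (variant of V_WKD): K_STP and its mirror image (V_SYM with `adj = fd`, `κ = 1`); the slack
does not decrease: V_OUT (1) (`adj = fd`, `κ = 1`), V_INN (1) (`κ = n`). -/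
def K_WKD : Prop :=
  ∀ (R : List (List Bool)) (F : List (ℕ × ℕ)) (n D m g : ℕ), FSub (aj R) (aF F) n D →
    125 * g + 10 ≤ D → ∀ θ : ℝ, 3 / 5 ≤ θ → ∀ (s : SI) (c : Bool × ℕ × ℕ), GoodS n s →
    ChosenK (aj R) (aF F) D s.1.toFinset s.2.toFinset c →
    ((kids R c s).map (WN F D m θ)).sum ≤ gr g * WN F D m θ s ∧
    ∀ s' ∈ kids R c s, SG F D m s ≤ SG F D m s'

/-- WRT (variant of V_WRT, `κ = 1`). -/
def K_WRT : Prop :=
  ∀ (F : List (ℕ × ℕ)) (D m : ℕ), 1 ≤ D →
    (∀ s : SI, 0 < WN F D m (3 / 5) s ∧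
      WN F D m (69 / 100) s =
        Real.exp (-(9 / 100 * SG F D m s)) * WN F D m (3 / 5) s ∧
      ∀ θ : ℝ, Real.exp (-(θ * SG F D m s)) ≤ WN F D m θ s) ∧
    ∀ a b : ℕ, 0 ≤ SG F D m (List.range a, List.range b) →
      WN F D m (3 / 5) (List.range a, List.range b) ≤
        Real.exp (38 * ((1 * (a + b) : ℕ) / (D : ℝ)))

/-- CBD (variant of V_CBD; V_LFB of BisRf for the leaves). -/
def K_CBD : Prop :=
  ∀ (R : List (List Bool)) (F : List (ℕ × ℕ)) (n N D m g : ℕ), FSub (aj R) (aF F) n D →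
    125 * g + 10 ≤ D → D ≤ N → ∀ s : SI, GoodS n s → 0 ≤ SG F D m s →
    (cs R s : ℝ) ≤ 2 ^ m * gr g ^ (s.1.length + s.2.length) * WN F D m (69 / 100) s

/-- STS (variant of V_STS). -/
def K_STS : Prop :=
  ∀ (R : List (List Bool)) (F : List (ℕ × ℕ)) (n N D K : ℕ) (Ml : List ℕ) (s : SI),
    (∀ i j, aF F i j = true → aj R i j = true) → GoodS n s → D ≤ N →
    (∀ s' ∈ stepK D K (List.range N) Ml R F s, GoodS n s' ∧
      (keep D K (List.range N) Ml F s = true → keep D K (List.range N) Ml F s' = true) ∧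
      (Low R D s' ∨ s'.1.length + s'.2.length < s.1.length + s.2.length)) ∧
    ((stepK D K (List.range N) Ml R F s).map (cs R)).sum ≤ cs R s ∧
    (stepK D K (List.range N) Ml R F s).length ≤ 2

/-- STW (variant of V_STW; V_LNK (4) of BisRf for `keep`). -/
def K_STW : Prop :=
  ∀ (R : List (List Bool)) (F : List (ℕ × ℕ)) (n N D c g K N' : ℕ) (Ml : List ℕ),
    FSub (aj R) (aF F) n D → 125 * g + 10 ≤ D → D ≤ N → ∀ s : SI, GoodS n s →
    s.1.length + s.2.length ≤ N' → 0 ≤ SG F D (Ml.length + c) s →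
    (∀ s' ∈ stepK D K (List.range N) Ml R F s, 0 ≤ SG F D (Ml.length + c) s') ∧
    ((stepK D K (List.range N) Ml R F s).map (WN F D (Ml.length + c) (3 / 5))).sum ≤
      gr g * WN F D (Ml.length + c) (3 / 5) s ∧
    (cs R s : ℝ) + Mf (Ml.length + c) D g K N' *
        ((stepK D K (List.range N) Ml R F s).map (WN F D (Ml.length + c) (3 / 5))).sum ≤
      ((stepK D K (List.range N) Ml R F s).map fun s' => (cs R s' : ℝ)).sum +
        Mf (Ml.length + c) D g K N' * (gr g * WN F D (Ml.length + c) (3 / 5) s)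

/-- RND (variant of V_RND). -/
def K_RND : Prop :=
  ∀ (R : List (List Bool)) (F : List (ℕ × ℕ)) (n a b D c g K : ℕ) (P : Un) (Ml : List ℕ),
    FSub (aj R) (aF F) n D → 125 * g + 10 ≤ D → D ≤ a + b → a ≤ n → b ≤ n →
    0 ≤ SG F D (Ml.length + c) (List.range a, List.range b) →
    keep D K (List.range (a + b)) Ml F (List.range a, List.range b) = true →
    gr g ^ (a + b) * Real.exp (38 * ((1 * (a + b) : ℕ) / (D : ℝ))) *
      Real.exp (3 / 5 * (c + (K : ℝ) / D)) ≤ P.length →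
    (∀ s ∈ roundsK D K P (List.range (a + b)) Ml R F [(List.range a, List.range b)],
      GoodS n s ∧ Low R D s ∧ 0 ≤ SG F D (Ml.length + c) s) ∧
    (roundsK D K P (List.range (a + b)) Ml R F [(List.range a, List.range b)]).length ≤
      P.length ∧
    (cs R (List.range a, List.range b) : ℝ) ≤
      ((roundsK D K P (List.range (a + b)) Ml R F [(List.range a, List.range b)]).map
        fun s => (cs R s : ℝ)).sum + Mf (Ml.length + c) D g K (a + b) *
          (gr g ^ (a + b) * Real.exp (38 * ((1 * (a + b) : ℕ) / (D : ℝ))))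

/-- RLB (variant of V_RLB); the children of every vertex have together as many independent pairs
(`p_CSK` of BisRt); any `n ≥ a, b` may be used for `GoodS`. -/
def K_RLB : Prop :=
  ∀ (R : List (List Bool)) (F : List (ℕ × ℕ)) (a b D K : ℕ) (P : Un) (Ml : List ℕ),
    (∀ i j, aF F i j = true → aj R i j = true) → D ≤ a + b →
    ((roundsK D K P (List.range (a + b)) Ml R F [(List.range a, List.range b)]).map
      (cs R)).sum ≤ cs R (List.range a, List.range b)

/-! ### The algorithm -/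

/-- FRG (variant of V_FRG): `V_MXM` of BisRf. -/
def K_FRG : Prop :=
  ∀ (D : ℕ) (B : Un) (R : List (List Bool)), (∀ u ∈ R, u.length = B.length) →
    (∀ i j, aF (maxM D B R) i j = true → aj R i j = true) ∧
    FSub (aj R) (aF (maxM D B R)) (max R.length B.length) D

/-- ERR (variant of V_ERR); V_NUM with `σ = 1`. -/
def K_ERR : Prop :=
  (∀ (D : ℕ) (W T B : Un) (R : List (List Bool)), (∀ u ∈ R, u.length = B.length) →
    D ≤ R.length + B.length →
    algKD D W T B R ≤ cs R (List.range R.length, List.range B.length)) ∧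
  ∀ (D c k : ℕ) (W T B : Un) (R : List (List Bool)), (∀ u ∈ R, u.length = B.length) →
    135 ≤ D → D ≤ R.length + B.length → Cond D c B R →
    1 * (R.length + B.length) + D * c ≤ D * k → 2 ^ k ≤ W.length →
    T.length * (cs R (List.range R.length, List.range B.length) - algKD D W T B R) ≤
      2 ^ max R.length B.length

/-- ALT (variant of V_ALT, `κ = 1`). -/
def K_ALT : Prop :=
  (∀ (W T B : Un) (R : List (List Bool)), (∀ u ∈ R, u.length = B.length) →
    algZ W T B R ≤ cnt R (List.range B.length)) ∧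
  ∀ (D c k : ℕ) (W T B : Un) (R : List (List Bool)), (∀ u ∈ R, u.length = B.length) →
    1 ≤ D → Cond D c B R → R.length + B.length + D * c ≤ D * k → 2 ^ k ≤ W.length →
    T.length * (cnt R (List.range B.length) - algZ W T B R) ≤ cnt R (List.range B.length)

/-! ### Polynomial time -/

/-- PTC (variant of V_PTC, first part; `keep` is in V_PTC). -/
def K_PTC : Prop :=
  Fact Core → PolyF (fun x : InG => candsK x.1 x.2.1 x.2.2.1 x.2.2.2.1 x.2.2.2.2)

/-- PTS (variant of V_PTS). -/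
def K_PTS : Prop :=
  (Fact Core → PolyF (fun x : (ℕ × ℕ) × List ℕ × List ℕ × List (List Bool) × List (ℕ × ℕ) × SI =>
    stepK x.1.1 x.1.2 x.2.1 x.2.2.1 x.2.2.2.1 x.2.2.2.2.1 x.2.2.2.2.2)) ∧
  ∀ (D K : ℕ) (V Ml : List ℕ) (R : List (List Bool)) (F : List (ℕ × ℕ)) (s : SI),
    (stepK D K V Ml R F s).length ≤ 2 ∧ ∀ s' ∈ stepK D K V Ml R F s, sz s' ≤ sz s

/-- PTR (variant of V_PTR). -/
def K_PTR : Prop :=
  Fact Core → PolyF (fun x : (ℕ × ℕ) × Un × List ℕ × List ℕ × List (List Bool) ×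
      List (ℕ × ℕ) × SI =>
    roundsK x.1.1 x.1.2 x.2.1 x.2.2.1 x.2.2.2.1 x.2.2.2.2.1 x.2.2.2.2.2.1 [x.2.2.2.2.2.2])

/-- PTA (variant of V_PTA; V_PTM of BisRf). -/
def K_PTA : Prop :=
  Fact Core → PolyF (fun x : ℕ × Un × Un × Un × List (List Bool) =>
    algKD x.1 x.2.1 x.2.2.1 x.2.2.2.1 x.2.2.2.2)

/-- PTX (variant of V_PTX). -/
def K_PTX : Prop :=
  Fact Core → PolyF (fun x : In₂ => algZ x.1 x.2.1 x.2.2.1 x.2.2.2)

/-! ### The statements -/

/-- S11 (variant of V_S10, no degrees). -/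
def K_S11 : Prop := Statement11

/-- S12. `algZ` with `W = pw q (B ++ un R ++ [true])` and `k = q * log (a + b)`, see `P_ST9.lean` of
BisRu, `P_ST2.lean` of BisRg. -/
def K_S12 : Prop := Statement12

/-- S13. With `M = max d e + s` (`≥ 1`) put `f = 1 / M` on all edges. The total is `|E| / M`,
`|E| ≥ max d e * min a b` (if `e ≤ d` by the degrees of the left side, `|E| ≥ a d`; otherwise by
those of the right side, `|E| ≥ b e`), so `|E| / M ≥ min a b - min a b * s / M ≥ min a b - c`. -/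
def K_S13 : Prop := Statement13

end Pool.Agent.BisRk
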