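import Pool.Agent.BisRk.Defs2

/-!
# Targets of the project BisRk, second part (general `M`)

Variants of the targets `K_...` with `max a b` replaced by `M`.
-/

set_option autoImplicit false

namespace Pool.Agent.BisRk

open Finset Pool.Agent.PT Pool.Agent.BisTh Pool.Agent.BisRg Pool.Agent.BisRt Pool.Agent.BisRf

/-- ERR (variant of K_ERR). `Ml = dl M (range (a + b))` has `M` elements, `F = maxM D B R`. By
V_MXM (2) `D (a + b) ≤ |F| + D (max a b + c') = |F| + D (M + c)`, so the slack `SG F D (M + c)` of
the root is `≥ 0`. If `keep` holds for the root: as in K_ERR (V_ERR), `M` instead of `max a b`. If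
`keep` is false for the root: then `SG > c + K / D ≥ K / D` (V_LNK (4)), and by K_CBD, K_WRT
`cs root ≤ 2 ^ (M + c) gr ^ (a + b) e^(-(9/100) SG) WN (3/5) root`, so `2 t (cs root) ≤ 2 ^ M` by
V_NUM (1), (3) (all factors `e^(134 N / D)` are `≥ 1`). Lower bound as in K_ERR. -/
def L_ERR : Prop :=
  (∀ (D M : ℕ) (W T B : Un) (R : List (List Bool)), (∀ u ∈ R, u.length = B.length) →
    D ≤ R.length + B.length →
    algLD D M W T B R ≤ cs R (List.range R.length, List.range B.length)) ∧
  ∀ (D M c c' k : ℕ) (W T B : Un) (R : List (List Bool)), (∀ u ∈ R, u.length = B.length) →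
    135 ≤ D → D ≤ R.length + B.length → M ≤ R.length + B.length → Cond D c' B R →
    max R.length B.length + c' = M + c → 1 * (R.length + B.length) + D * c ≤ D * k →
    2 ^ k ≤ W.length →
    T.length * (cs R (List.range R.length, List.range B.length) - algLD D M W T B R) ≤ 2 ^ M

/-- ALT (variant of K_ALT, the same cases). `M ≤ a + b` as `2 ^ M ≤ cnt ≤ 2 ^ (a + b)`. If `D < 135`
or `a + b < 135`: the second algorithm (the hypotheses `Cond`, `M` are not needed). If
`135 ≤ D ≤ a + b`: L_ERR and `2 ^ M ≤ cnt`. If `D > a + b ≥ 135`: L_ERR with `D' = a + b`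
(`Cond D c'` implies `Cond D' c'` for `D' ≤ D`; `c + 1 ≤ k`). -/
def L_ALT : Prop :=
  (∀ (W T B : Un) (R : List (List Bool)), (∀ u ∈ R, u.length = B.length) →
    algQ W T B R ≤ cnt R (List.range B.length)) ∧
  ∀ (D M c c' k : ℕ) (W T B : Un) (R : List (List Bool)), (∀ u ∈ R, u.length = B.length) →
    1 ≤ D → Cond D c' B R → max R.length B.length + c' = M + c →
    2 ^ M ≤ cnt R (List.range B.length) → R.length + B.length + D * c ≤ D * k →
    2 ^ k ≤ W.length →
    T.length * (cnt R (List.range B.length) - algQ W T B R) ≤ cnt R (List.range B.length)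

/-- PTA (variant of K_PTA). -/
def L_PTA : Prop :=
  Fact Core → PolyF (fun x : (ℕ × ℕ) × Un × Un × Un × List (List Bool) =>
    algLD x.1.1 x.1.2 x.2.1 x.2.2.1 x.2.2.2.1 x.2.2.2.2)

/-- PTX (variant of K_PTX; `PolyF` of `flatMap`, `map`). -/
def L_PTX : Prop :=
  Fact Core → PolyF (fun x : In₂ => algQ x.1 x.2.1 x.2.2.1 x.2.2.2)

/-- DUL. The total is at most `min a b`, so `max a b ≤ m`. -/
def L_DUL : Prop :=
  ∀ (G : Bip) (D m : ℕ), SpreadFor G D m →
    max G.a G.b ≤ m ∧ SpreadMatching G D (m - max G.a G.b)

/-- S14 (variant of K_S11). `c' = M + c - max a b` (L_DUL), `Cond D c'` by `p_DUL` of BisRg. -/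
def L_S14 : Prop := Statement14

/-- S15 (variant of K_S12). -/
def L_S15 : Prop := Statement15

/-- S16. Let `(I, J)` be an independent pair (`I` on the left, `J` on the right side) with
`|I| + |J|` maximal. Hall: every set `S` of left vertices outside `I` has at least `|S|` neighbours
in `J` (otherwise `(I ∪ S, J \ N(S))` is larger), so there is a matching of the complement of `I`
into `J`; in the same way a matching of the complement of `J` into `I`
(`Finset.all_card_le_biUnion_card_iff_exists_injective` and its variants). Together they are a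
matching with `a - |I| + b - |J|` edges, so `|I| + |J| ≥ a + b - ν`. All pairs of subsets of `I` and
`J` are independent. -/
def L_S16 : Prop := Statement16

end Pool.Agent.BisRk
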