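import Pool.Agent.BisRk.Defs3

/-!
# Targets of the project BisRk, third part (matching number instead of number of vertices)
-/

set_option autoImplicit false

namespace Pool.Agent.BisRk

open Finset Pool.Agent.PT Pool.Agent.BisTh Pool.Agent.BisRg Pool.Agent.BisRt Pool.Agent.BisRf

/-- SYM. V_SYM (1) (`adj = fd`, `κ = 1`) and `add_comm`. -/
def N_SYM : Prop :=
  ∀ (fd : ℕ → ℕ → Bool) (n D m : ℕ) (θ : ℝ) (X Y : Finset ℕ),
    WH fd n D m θ X Y = WH (tr fd) n D m θ Y X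

/-- DPO. From V_DPO (`adj = fd`, `κ = 1`): without the term `35 (|X| + |Y|) / D` (which decreases by
`35 / D`) the other two terms satisfy the inequality with `+ 35 / D` on the right. The new term
`80 (..) / D` does not increase, and it decreases by `80 / D` if `5 |nb fd Y u| > D`, as then
`u ∈ X ∩ hv fd D n`. -/
def N_DPO : Prop :=
  ∀ (adj fd : ℕ → ℕ → Bool) (n D m : ℕ), FSub adj fd n D → 1 ≤ D → ∀ θ : ℝ,
    3 / 5 ≤ θ → ∀ X Y : Finset ℕ, X ⊆ range n → Y ⊆ range n → ∀ u ∈ X,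
    PH fd n D m θ (X.erase u) Y + 7 / 20 * (1 - ((nb fd Y u).card : ℝ) / D) +
      (∑ i ∈ (hi fd D X Y).erase u, (Fk 1 ((cF fd fd D X Y i : ℝ) / D) -
        Fk 1 ((cF fd fd D X Y i : ℝ) / D + ((nb fd Y i ∩ nb fd Y u).card : ℝ) / D))) / D +
      (if D < 5 * (nb fd Y u).card then 80 / (D : ℝ) else 0) ≤
      PH fd n D m θ X Y + 35 / D

/-- DPI (variant of K_DPI, its lemmas `left`, `right` for the terms `Sk` can be used). Let
`N = nb adj Y u`, `c = cF adj fd D X Y u / D`, `H = hv (tr fd) D n`. The first term changes by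
`- θ (1 + c)`, the terms `Sk` together by at most `c / 4`. If `2 |N ∩ H| ≥ |N|` then the second term
decreases by at least `80 |N ∩ H| / D ≥ 8`. Otherwise `2 |N \ H| ≥ |N| > D / 5`, and
`5 (D - |nb (tr fd) X j|) ≥ 4 D` for `j ∈ N \ H`, so `25 c ≥ 2 D ≥ 700`, `c / 4 ≥ 7`, and
`- θ (1 + c) + c / 4 ≤ - c / 10 - c / 4`. -/
def N_DPI : Prop :=
  ∀ (adj fd : ℕ → ℕ → Bool) (n D m : ℕ), FSub adj fd n D → 350 ≤ D → ∀ θ : ℝ,
    3 / 5 ≤ θ → ∀ X Y : Finset ℕ, X ⊆ range n → Y ⊆ range n → ∀ u ∈ hi adj D X Y,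
    PH fd n D m θ (X.erase u) (Y \ nb adj Y u) + 7 +
      (cF adj fd D X Y u : ℝ) / D / 10 ≤ PH fd n D m θ X Y

/-- STP (variant of K_STP). `W(in) ≤ e^(-7) e^(-c/10) W`, `c = cF fd fd u / D` (N_DPI, K_INN (4)).
If `2 |nb fd Y u| ≤ D`: `W(out) ≤ e^(35/D - 7/40) W ≤ e^(-3/40) W ≤ (1 - 3/80) W` and
`W(in) ≤ W / 400`. Otherwise `5 |nb fd Y u| > D`, so `W(out) ≤ e^(-45/D - gain) W`; put
`g = (D - 10) / 125`. If `cF fd fd u > 10 g D`: `W(in) ≤ e^(-7) e^(-g) W ≤ W / D`
(`e^(-g) ≤ 1 / (1 + g) ≤ 134 / D`), `W(out) ≤ (1 - 22 / D) W`. If not: V_OVL, V_GAI (`adj = fd`,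
`κ = 1`), `q = e^(-c/10) / 200 ≤ gain`, `W(out) ≤ (1 - q / 2) W`, `W(in) ≤ (q / 2) W`. -/
def N_STP : Prop :=
  ∀ (adj fd : ℕ → ℕ → Bool) (n D m : ℕ), FSub adj fd n D → 350 ≤ D →
    ∀ θ : ℝ, 3 / 5 ≤ θ → ∀ X Y : Finset ℕ, X ⊆ range n → Y ⊆ range n →
    ∀ u : ℕ, BestK adj fd D X Y u →
    WH fd n D m θ (X.erase u) Y + WH fd n D m θ (X.erase u) (Y \ nb adj Y u) ≤ WH fd n D m θ X Y

/-- WKD (variant of K_WKD). -/
def N_WKD : Prop :=
  ∀ (R : List (List Bool)) (F : List (ℕ × ℕ)) (n D m : ℕ), FSub (aj R) (aF F) n D →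
    350 ≤ D → ∀ θ : ℝ, 3 / 5 ≤ θ → ∀ (s : SI) (c : Bool × ℕ × ℕ), GoodS n s →
    ChosenK (aj R) (aF F) D s.1.toFinset s.2.toFinset c →
    ((kids R c s).map (WS F n D m θ)).sum ≤ WS F n D m θ s ∧
    ∀ s' ∈ kids R c s, SG F D m s ≤ SG F D m s'

/-- WRT (variant of K_WRT). Exponent of the initial weight: the first term is `≤ 0`; `|hv| ≤ 5 ν`
for both sides (`D |hv fd D n| ≤ 5 eN fd n`; the number of edges is the same from both sides),
`hi fd D X Y ⊆ hv fd D n` for `X, Y ⊆ range n`, `Fk 1 ≤ 5 / 2`: at most `800 ν / D + 25 ν / D`. -/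
def N_WRT : Prop :=
  ∀ (F : List (ℕ × ℕ)) (n D m : ℕ), 1 ≤ D →
    (∀ s : SI, 0 < WS F n D m (3 / 5) s ∧
      WS F n D m (69 / 100) s =
        Real.exp (-(9 / 100 * SG F D m s)) * WS F n D m (3 / 5) s ∧
      ∀ θ : ℝ, Real.exp (-(θ * SG F D m s)) ≤ WS F n D m θ s) ∧
    ∀ a b ν : ℕ, a ≤ n → b ≤ n → eN (aF F) n ≤ D * ν → 0 ≤ SG F D m (List.range a, List.range b) →
      WS F n D m (3 / 5) (List.range a, List.range b) ≤ Real.exp (825 * ((ν : ℝ) / D))

/-- CBD (variant of K_CBD). -/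
def N_CBD : Prop :=
  ∀ (R : List (List Bool)) (F : List (ℕ × ℕ)) (n N D m : ℕ), FSub (aj R) (aF F) n D →
    350 ≤ D → D ≤ N → ∀ s : SI, GoodS n s → 0 ≤ SG F D m s →
    (cs R s : ℝ) ≤ 2 ^ m * WS F n D m (69 / 100) s

/-- STW (variant of K_STW, without the factors `gr g`). -/
def N_STW : Prop :=
  ∀ (R : List (List Bool)) (F : List (ℕ × ℕ)) (n N D c K : ℕ) (Ml : List ℕ),
    FSub (aj R) (aF F) n D → 350 ≤ D → D ≤ N → ∀ s : SI, GoodS n s →
    0 ≤ SG F D (Ml.length + c) s →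
    (∀ s' ∈ stepK D K (List.range N) Ml R F s, 0 ≤ SG F D (Ml.length + c) s') ∧
    ((stepK D K (List.range N) Ml R F s).map (WS F n D (Ml.length + c) (3 / 5))).sum ≤
      WS F n D (Ml.length + c) (3 / 5) s ∧
    (cs R s : ℝ) + Mg (Ml.length + c) D K *
        ((stepK D K (List.range N) Ml R F s).map (WS F n D (Ml.length + c) (3 / 5))).sum ≤
      ((stepK D K (List.range N) Ml R F s).map fun s' => (cs R s' : ℝ)).sum +
        Mg (Ml.length + c) D K * WS F n D (Ml.length + c) (3 / 5) s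

/-- RND (variant of K_RND, without the factors `gr g`). -/
def N_RND : Prop :=
  ∀ (R : List (List Bool)) (F : List (ℕ × ℕ)) (n a b D c K ν : ℕ) (P : Un) (Ml : List ℕ),
    FSub (aj R) (aF F) n D → 350 ≤ D → D ≤ a + b → a ≤ n → b ≤ n → eN (aF F) n ≤ D * ν →
    0 ≤ SG F D (Ml.length + c) (List.range a, List.range b) →
    keep D K (List.range (a + b)) Ml F (List.range a, List.range b) = true →
    Real.exp (825 * ((ν : ℝ) / D)) * Real.exp (3 / 5 * (c + (K : ℝ) / D)) ≤ P.length →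
    (∀ s ∈ roundsK D K P (List.range (a + b)) Ml R F [(List.range a, List.range b)],
      GoodS n s ∧ Low R D s ∧ 0 ≤ SG F D (Ml.length + c) s) ∧
    (roundsK D K P (List.range (a + b)) Ml R F [(List.range a, List.range b)]).length ≤
      P.length ∧
    (cs R (List.range a, List.range b) : ℝ) ≤
      ((roundsK D K P (List.range (a + b)) Ml R F [(List.range a, List.range b)]).map
        fun s => (cs R s : ℝ)).sum + Mg (Ml.length + c) D K * Real.exp (825 * ((ν : ℝ) / D))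

/-- NUM. Let `m = size w + size t + 1`; `k < size w`, `ν / D ≤ k`, `c ≤ k`; `K / D = 9300 m`. (1):
the exponent is at most `825 k + (3/5) k + 5580 m ≤ 6406 m`, `e^(2 m) ≤ 8^m`, `2 ^ m ≤ B ^ 2`
(`B = 2 w + 2 t + 3`), so at most `B ^ 19218`. (2): the exponent is at most
`size t + 1 + k + 825 k - 837 m ≤ 0`. -/
def N_NUM : Prop :=
  ∀ ν D c k w t : ℕ, 1 ≤ D → ν + D * c ≤ D * k → 2 ^ k ≤ w → 1 ≤ t →
    Real.exp (825 * ((ν : ℝ) / D)) *
      Real.exp (3 / 5 * (c + ((D * (9300 * (Nat.size w + Nat.size t + 1)) : ℕ) : ℝ) / D)) ≤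
      (((2 * w + 2 * t + 3) ^ 19300 : ℕ) : ℝ) ∧
    2 * (t : ℝ) * (2 ^ c *
      Real.exp (-(9 / 100 * (((D * (9300 * (Nat.size w + Nat.size t + 1)) : ℕ) : ℝ) / D))) *
      Real.exp (825 * ((ν : ℝ) / D))) ≤ 1

/-- EDN. All edges of a `D`-matching of the graph are counted. -/
def N_EDN : Prop :=
  ∀ (D : ℕ) (B : Un) (R : List (List Bool)), (∀ u ∈ R, u.length = B.length) →
    eN (aF (maxM D B R)) (max R.length B.length) = (maxM D B R).length

/-- ERR (variant of L_ERR; the same two cases for `keep`). -/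
def N_ERR : Prop :=
  (∀ (D M : ℕ) (W T B : Un) (R : List (List Bool)), (∀ u ∈ R, u.length = B.length) →
    D ≤ R.length + B.length →
    algND D M W T B R ≤ cs R (List.range R.length, List.range B.length)) ∧
  ∀ (D M c c' ν k : ℕ) (W T B : Un) (R : List (List Bool)), (∀ u ∈ R, u.length = B.length) →
    350 ≤ D → D ≤ R.length + B.length → M ≤ R.length + B.length → Cond D c' B R →
    max R.length B.length + c' = M + c → (maxM D B R).length ≤ D * ν →
    ν + D * c ≤ D * k → 2 ^ k ≤ W.length →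
    T.length * (cs R (List.range R.length, List.range B.length) - algND D M W T B R) ≤ 2 ^ M

/-! ### Small `D` -/

/-- BFA. `maxM 1 B R` is a maximal matching: `aug = []` as in `P_MXM.lean` of BisRf (`fold_inv`,
`aug_full`); if `dL F i = 0` and `dR F j = 0` for an edge `(i, j)` then `(j, [], []) ∈ z0` and `aug`
is not empty. -/
def N_BFA : Prop :=
  ∀ (B : Un) (R : List (List Bool)), (∀ u ∈ R, u.length = B.length) → ∀ i j : ℕ,
    i < R.length → j < B.length → aj R i j = true →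
    (∃ e ∈ maxM 1 B R, e.1 = i) ∨ ∃ e ∈ maxM 1 B R, e.2 = j

/-- BFB. (1) A step does not change the number of independent pairs (`p_CSK` of BisRt if the vertex
is in the state), dropped lists give `0`, `apx_le`. (2) `C = cov F` has `2 |F|` elements, so after
`r` steps there are at most `2 ^ r` states and nothing is dropped; in the end no vertex of `C` is in
a state (vertices never come back), so by N_BFA no row has a neighbour in the state and
`apx 0 = cnt` (`tot_flatMap_leafExp`). -/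
def N_BFB : Prop :=
  (∀ (P B : Un) (R : List (List Bool)), (∀ u ∈ R, u.length = B.length) →
    algB P B R ≤ cnt R (List.range B.length)) ∧
  ∀ (ν : ℕ) (P B : Un) (R : List (List Bool)), (∀ u ∈ R, u.length = B.length) →
    (maxM 1 B R).length ≤ ν → 4 ^ ν ≤ P.length → algB P B R = cnt R (List.range B.length)

/-- BFP. Polynomial time (V_PTM, `kids` as in V_PTS; the fold as in K_PTR). -/
def N_BFP : Prop :=
  Fact Core → PolyF (fun x : Un × Un × List (List Bool) => algB x.1 x.2.1 x.2.2)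

/-! ### The whole algorithm -/

/-- MTL. Let `(I, J)` be an independent pair with `|I| + |J| ≥ a + b - ν` (see the proof in
`Q_S16.lean`); every edge of `F = maxM D` has its left vertex outside `I` or its right vertex
outside `J`, and every vertex is in at most `D` edges. -/
def N_MTL : Prop :=
  ∀ (G : Bip) (ν D : ℕ), MatchLe G ν →
    (maxM D (List.replicate G.b true) (rowsOf G)).length ≤ D * ν

/-- ALT (variant of L_ALT). If `ν = 0`: `maxM 1` is empty, `algB` is exact. Let `ν ≥ 1`, so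
`c + 1 ≤ k`. If `D < 350`: `ν ≤ 350 k`, `4 ^ ν ≤ w ^ 700`, `algB` is exact. If `350 ≤ D ≤ a + b`:
N_ERR, `2 ^ M ≤ cnt`. If `D > a + b ≥ 350`: N_ERR with `D' = a + b` and `ν' = a + b` (V_MXM (4);
`ν' + D' c = D' (c + 1) ≤ D' k`). If `D ≥ 350 > a + b`: `algB` is exact, as `|maxM 1| ≤ a + b ≤ 349`
and `4 ^ 350 ≤ w ^ 700`. -/
def N_ALT : Prop :=
  (∀ (W T B : Un) (R : List (List Bool)), (∀ u ∈ R, u.length = B.length) →
    algS W T B R ≤ cnt R (List.range B.length)) ∧
  ∀ (D M c c' ν k : ℕ) (W T B : Un) (R : List (List Bool)), (∀ u ∈ R, u.length = B.length) →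
    1 ≤ D → Cond D c' B R → max R.length B.length + c' = M + c →
    (∀ D' : ℕ, (maxM D' B R).length ≤ D' * ν) → 2 ^ M ≤ cnt R (List.range B.length) →
    ν + D * c ≤ D * k → 2 ^ k ≤ W.length →
    T.length * (cnt R (List.range B.length) - algS W T B R) ≤ cnt R (List.range B.length)

/-- PTA (variant of L_PTA). -/
def N_PTA : Prop :=
  Fact Core → PolyF (fun x : (ℕ × ℕ) × Un × Un × Un × List (List Bool) =>
    algND x.1.1 x.1.2 x.2.1 x.2.2.1 x.2.2.2.1 x.2.2.2.2)

/-- PTX (variant of L_PTX). -/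
def N_PTX : Prop :=
  Fact Core → PolyF (fun x : In₂ => algS x.1 x.2.1 x.2.2.1 x.2.2.2)

/-- S18 (variant of L_S14). -/
def N_S18 : Prop := Statement18

/-- S19 (variant of L_S15). -/
def N_S19 : Prop := Statement19

end Pool.Agent.BisRk
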